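import Mathlib

/-!
# Definitions: Hamiltonian lattice gauge theory in finite and infinite volume
-/

open MeasureTheory Matrix
open scoped ContDiff Matrix.Norms.Frobenius

namespace Pool.Agent.YMI

set_option linter.unusedSectionVars false

noncomputable section

/-- Complex `N × N` matrices. -/
abbrev Mt (N : ℕ) := Matrix (Fin N) (Fin N) ℂ

/-- The unitary group `U(N)`. -/
abbrev UU (N : ℕ) := Matrix.unitaryGroup (Fin N) ℂ

/-- The matrix of an element of a subgroup of `U(N)`. -/
def mt {N : ℕ} {G : Subgroup (UU N)} (g : G) : Mt N := ((g : UU N) : Mt N)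

/-- Links of the periodic lattice `(ℤ/l)^D`: base point and direction. -/
abbrev Link (D l : ℕ) := (Fin D → ZMod l) × Fin D

/-- Links of the lattice `ℤ^D`. -/
abbrev LinkZ (D : ℕ) := (Fin D → ℤ) × Fin D

/-- Unit vector of the lattice in direction `i`. -/
def unitv {D l : ℕ} (i : Fin D) : Fin D → ZMod l := Pi.single i 1

/-- An orthonormal basis `X` of the Lie algebra of `G`, that is of the real space of all matrices `Y`
with `exp (t Y) ∈ G` for all real `t`, with the scalar product `Re tr (Y* Z)`; `ex a t` is the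
element `exp (t X_a)` of `G`. -/
structure LieBasis {N : ℕ} (G : Subgroup (UU N)) (n : ℕ) where
  X : Fin n → Mt N
  ex : Fin n → ℝ → G
  ex_eq : ∀ a t, mt (ex a t) = NormedSpace.exp (t • X a)
  orth : ∀ a b, (trace ((X a)ᴴ * X b)).re = if a = b then 1 else 0
  full : ∀ Y : Mt N, (∀ t : ℝ, ∃ g : G, mt g = NormedSpace.exp (t • Y)) →
    Y ∈ Submodule.span ℝ (Set.range X)

section

variable {N n D l : ℕ} {G : Subgroup (UU N)}

/-- The product of the link variables around the plaquette at `x` in the directions `i`, `j`. -/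
def plaq (U : Link D l → G) (x : Fin D → ZMod l) (i j : Fin D) : G :=
  U (x, i) * U (x + unitv i, j) * (U (x + unitv j, i))⁻¹ * (U (x, j))⁻¹

/-- The magnetic energy `∑_p Re tr (1 - U_p)`, the sum over the plaquettes. -/
def magnetic [NeZero l] (U : Link D l → G) : ℝ :=
  ∑ x : Fin D → ZMod l, ∑ i : Fin D, ∑ j : Fin D,
    if i < j then (trace (1 - mt (plaq U x i j))).re else 0

/-- Smooth functions of the link variables: restrictions of smooth functions of the matrices. -/
def IsSmooth [NeZero l] (F : (Link D l → G) → ℝ) : Prop :=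
  ∃ f : (Link D l → Mt N) → ℝ, ContDiff ℝ ∞ f ∧ ∀ U, F U = f fun e => mt (U e)

/-- The derivative of `F` at `U` when the variable of the link `e` moves as `exp (t X_a) U_e`. -/
def dlink {E : Type*} [DecidableEq E] (B : LieBasis G n) (e : E) (a : Fin n)
    (F : (E → G) → ℝ) (U : E → G) : ℝ :=
  deriv (fun t => F (Function.update U e (B.ex a t * U e))) 0

/-- The energy `⟨F, H F⟩` of a smooth function `F`, as a quadratic form, `μ` being the Haar measure:
`(g ^ 2 / 2) ∑_{e, a} ∫ (D_{e, a} F) ^ 2 + g ^ (-2) ∫ (∑_p Re tr (1 - U_p)) F ^ 2`. -/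
def energy [NeZero l] [MeasurableSpace G] (B : LieBasis G n) (μ : Measure G) (g : ℝ)
    (F : (Link D l → G) → ℝ) : ℝ :=
  g ^ 2 / 2 * (∑ e : Link D l, ∑ a : Fin n,
    ∫ U, (dlink B e a F U) ^ 2 ∂(Measure.pi fun _ : Link D l => μ)) +
  1 / g ^ 2 * ∫ U, magnetic U * F U ^ 2 ∂(Measure.pi fun _ : Link D l => μ)

/-- Gauge transformation of the link variables. -/
def gauge (γ : (Fin D → ZMod l) → G) (U : Link D l → G) : Link D l → G :=
  fun e => γ e.1 * U e * (γ (e.1 + unitv e.2))⁻¹

/-- Gauge invariant functions. -/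
def GaugeInv (F : (Link D l → G) → ℝ) : Prop := ∀ γ U, F (gauge γ U) = F U

/-- A state: a smooth gauge invariant function of the link variables with `∫ Ψ ^ 2 = 1`. -/
structure IsState [NeZero l] [MeasurableSpace G] (μ : Measure G)
    (Ψ : (Link D l → G) → ℝ) : Prop where
  smooth : IsSmooth Ψ
  inv : GaugeInv Ψ
  norm : ∫ U, Ψ U ^ 2 ∂(Measure.pi fun _ : Link D l => μ) = 1

/-- The ground state energy: the infimum of the energies of the states. -/
def groundEnergy (D l : ℕ) [NeZero l] [MeasurableSpace G] (B : LieBasis G n) (μ : Measure G)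
    (g : ℝ) : ℝ :=
  sInf {E : ℝ | ∃ Ψ : (Link D l → G) → ℝ, IsState μ Ψ ∧ energy B μ g Ψ = E}

/-- `K` is a lower bound of the Ricci curvature of the bi-invariant metric of `G` given by
`Re tr (Y* Z)`: as `Ric (Y, Y) = (1 / 4) ∑_a ‖[X_a, Y]‖ ^ 2`, this is
`4 K ‖Y‖ ^ 2 ≤ ∑_a ‖[X_a, Y]‖ ^ 2` for all `Y` in the Lie algebra, with `‖Z‖ ^ 2 = Re tr (Z* Z)`. -/
def Curved (B : LieBasis G n) (K : ℝ) : Prop :=
  ∀ Y ∈ Submodule.span ℝ (Set.range B.X), 4 * K * (trace (Yᴴ * Y)).re ≤
    ∑ a, (trace ((B.X a * Y - Y * B.X a)ᴴ * (B.X a * Y - Y * B.X a))).re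

/-! ### infinite volume -/

/-- The configuration on `ℤ^D`, with period `l` in all directions, given by a configuration on the
periodic lattice. -/
def per (U : Link D l → G) : LinkZ D → G := fun e => U (fun k => (e.1 k : ZMod l), e.2)

/-- Local observables: smooth functions of the variables of the links in the finite set `Λ`. -/
def IsLocal (Λ : Finset (LinkZ D)) (F : (LinkZ D → G) → ℝ) : Prop :=
  ∃ f : (Λ → Mt N) → ℝ, ContDiff ℝ ∞ f ∧ ∀ U, F U = f fun e => mt (U e)

/-- The square of the gradient of a function of the variables of the links in `Λ`. -/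
def gradSq (B : LieBasis G n) (Λ : Finset (LinkZ D)) (F : (LinkZ D → G) → ℝ)
    (U : LinkZ D → G) : ℝ :=
  ∑ e ∈ Λ, ∑ a, (dlink B e a F U) ^ 2

/-- Distance of the base points of two links, in the maximum norm. -/
def dis (e e' : LinkZ D) : ℕ := Finset.univ.sup fun k => (e.1 k - e'.1 k).natAbs

/-- Translation of a configuration. -/
def transl (y : Fin D → ℤ) (U : LinkZ D → G) : LinkZ D → G := fun e => U (e.1 + y, e.2)

/-- Gauge transformation of a configuration on `ℤ^D`. -/
def gaugeZ (γ : (Fin D → ℤ) → G) (U : LinkZ D → G) : LinkZ D → G :=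
  fun e => γ e.1 * U e * (γ (e.1 + Pi.single e.2 1))⁻¹

end

end

end Pool.Agent.YMI
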