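import Mathlib
import Pool.Agent.YMI.Defs

/-!
# Low energy functions and expectations
-/

open MeasureTheory Matrix
open scoped ContDiff Matrix.Norms.Frobenius

namespace Pool.Agent.YMI

noncomputable section

variable {N n D : ℕ} {G : Subgroup (UU N)}

/-- Low energy functions on the periodic lattice of size `l`: smooth, normalized, energy at most
`E₀ + δ`. -/
structure Low [MeasurableSpace G] (B : LieBasis G n) (μ : Measure G) (g : ℝ) (l : ℕ) [NeZero l]
    (δ : ℝ) (Ψ : (Link D l → G) → ℝ) : Prop where
  smooth : IsSmooth Ψ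
  norm : ∫ U, Ψ U ^ 2 ∂(Measure.pi fun _ : Link D l => μ) = 1
  low : energy B μ g Ψ ≤ groundEnergy D l B μ g + δ

/-- The expectation of a function of the link variables of the periodic lattice. -/
def ex [MeasurableSpace G] (μ : Measure G) {l : ℕ} [NeZero l] (Ψ F : (Link D l → G) → ℝ) : ℝ :=
  ∫ U, F U * Ψ U ^ 2 ∂(Measure.pi fun _ : Link D l => μ)

end

end Pool.Agent.YMI
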