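import Mathlib
import Pool.Agent.W504.YM.Fin

/-!
# The magnetic energy of a set of plaquettes
-/

open MeasureTheory Matrix
open scoped Matrix.Norms.Frobenius ContDiff
open Pool.Agent.H906R3.YM Pool.Agent.W504.YM

namespace Pool.Agent.YMI

set_option linter.unusedSectionVars false

noncomputable section

variable {G : Type*} [Group G] [TopologicalSpace G] {N n : ℕ} {L : LD G N n} {D l : ℕ} [NeZero l]

/-- `e` is one of the four links of the plaquette `p` -/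
def inPl (p : Pl D l) (e : Ed D l) : Prop :=
  e = (p.1.1, p.1.2.1) ∨ e = (p.1.1 + eT p.1.2.1, p.1.2.2) ∨ e = (p.1.1 + eT p.1.2.2, p.1.2.1) ∨
    e = (p.1.1, p.1.2.2)

/-- The magnetic energy with coefficients. -/
def VC (L : LD G N n) (D l : ℕ) [NeZero l] (c : Pl D l → ℝ) : Sm L (Ed D l) :=
  ∑ p : Pl D l, c p • lin (ip 1) _ (SmM_plqT (L := L) p.1.1 p.1.2.1 p.1.2.2)

theorem VC_one : VC L D l (fun _ => 1) = VT L D l := by
  unfold VC VT
  exact Finset.sum_congr rfl fun p _ => one_smul _ _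

theorem VC_sub (c c' : Pl D l → ℝ) : VC L D l c - VC L D l c' = VC L D l (fun p => c p - c' p) := by
  unfold VC
  rw [← Finset.sum_sub_distrib]
  exact Finset.sum_congr rfl fun p _ => (sub_smul _ _ _).symm

theorem VC_apply (c : Pl D l → ℝ) (U : Ed D l → G) :
    L.ev U (VC L D l c) = ∑ p : Pl D l, c p * we L (plqT U p.1.1 p.1.2.1 p.1.2.2) := by
  unfold VC
  rw [map_sum]
  refine Finset.sum_congr rfl fun p _ => ?_
  rw [map_smul, smul_eq_mul]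
  congr 1
  show ip 1 _ = _
  rw [ip_apply, conjTranspose_one, one_mul]
  rfl

theorem VC_nonneg {c : Pl D l → ℝ} (hc : ∀ p, 0 ≤ c p) (U : Ed D l → G) :
    0 ≤ L.ev U (VC L D l c) := by
  rw [VC_apply]
  exact Finset.sum_nonneg fun p _ => mul_nonneg (hc p) (we_nonneg _)

/-- The four derivatives of one plaquette. -/
theorem plq_mixed (ξ η : Ed D l × Fin n → ℝ) (U : Ed D l → G) (p : Pl D l) :
    |∑ j, ξ j * L.ev U (L.Dv j (∑ k, η k • Rv L k
      (lin (ip 1) _ (SmM_plqT (L := L) p.1.1 p.1.2.1 p.1.2.2))))| ≤ pn ξ p.1 * pn η p.1 := by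
  have hT := (((Tri.link (L := L) ξ η (p.1.1, p.1.2.1)).mul
    (Tri.link (L := L) ξ η (p.1.1 + eT p.1.2.1, p.1.2.2))).mul
    (Tri.link (L := L) ξ η (p.1.1 + eT p.1.2.2, p.1.2.1)).ct).mul
    (Tri.link (L := L) ξ η (p.1.1, p.1.2.2)).ct
  refine mixed hT _ (ip 1 (1 : Mat N)) (fun U => ?_) U
  rw [lin_apply, map_sub]
  congr 2
  unfold plqT
  rw [map_mul, map_mul, map_mul, L.rho_inv, L.rho_inv]
  rfl

theorem ip_one_one : ip (1 : Mat N) 1 = N := by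
  rw [ip_apply, conjTranspose_one, one_mul, trace_one, Fintype.card_fin]
  simp

/-- The gradient of the trace of a matrix function. -/
theorem first {E : Type*} [Fintype E] [DecidableEq E] {ξ η : E × Fin n → ℝ}
    {f fL fR fLR : (E → Mat N) → Mat N} {a b : ℝ} (hf : Tri L ξ η f fL fR fLR a b) (F : Sm L E)
    (c : ℝ) (hF : ∀ U : E → G, F.1 U = c - ip 1 (f (L.mat U))) (U : E → G) :
    |∑ j, ξ j * L.ev U (L.Dv j F)| ≤ Real.sqrt N * a := by
  have h0 : ∃ F1 : Sm L E, ∀ U : E → G, F1.1 U = ip 1 (f (L.mat U)) :=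
    ⟨⟨_, _, (ip (1 : Mat N)).contDiff.comp hf.sm, fun U => rfl⟩, fun U => rfl⟩
  obtain ⟨F1, hF1⟩ := h0
  have hFF : F = c • (1 : Sm L E) - F1 := ev_ext fun U => by
    rw [map_sub, map_smul, map_one, smul_eq_mul, mul_one]
    show F.1 U = c - F1.1 U
    rw [hF, hF1]
  have h2 : ∑ j, ξ j * L.ev U (L.Dv j F) = -∑ j, ξ j * L.ev U (L.Dv j F1) := by
    rw [← Finset.sum_neg_distrib]
    refine Finset.sum_congr rfl fun j _ => ?_
    rw [hFF, map_sub, Derivation.map_smul, Derivation.map_one_eq_zero, smul_zero, zero_sub,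
      map_neg, mul_neg]
  have h3 := sum_Dv ξ hf.sm hf.dL (ip 1) F1 hF1 U
  rw [h2, abs_neg, h3]
  refine ip_bound (Real.sqrt_nonneg _) hf.ha ?_ (hf.nL U)
  rw [Real.sq_sqrt (Nat.cast_nonneg N), ip_one_one]

theorem plq_first (ξ : Ed D l × Fin n → ℝ) (U : Ed D l → G) (p : Pl D l) :
    |∑ j, ξ j * L.ev U (L.Dv j (lin (ip 1) _ (SmM_plqT (L := L) p.1.1 p.1.2.1 p.1.2.2)))| ≤
      Real.sqrt N * pn ξ p.1 := by
  have hT := (((Tri.link (L := L) ξ ξ (p.1.1, p.1.2.1)).mul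
    (Tri.link (L := L) ξ ξ (p.1.1 + eT p.1.2.1, p.1.2.2))).mul
    (Tri.link (L := L) ξ ξ (p.1.1 + eT p.1.2.2, p.1.2.1)).ct).mul
    (Tri.link (L := L) ξ ξ (p.1.1, p.1.2.2)).ct
  refine first hT _ (ip 1 (1 : Mat N)) (fun U => ?_) U
  rw [lin_apply, map_sub]
  congr 2
  unfold plqT
  rw [map_mul, map_mul, map_mul, L.rho_inv, L.rho_inv]
  rfl

theorem mixed_VC (c : Pl D l → ℝ) (ξ η : Ed D l × Fin n → ℝ) (U : Ed D l → G) :
    |∑ j, ξ j * L.ev U (L.Dv j (∑ k, η k • Rv L k (VC L D l c)))| ≤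
      ∑ p : Pl D l, |c p| * (pn ξ p.1 * pn η p.1) := by
  have h1 : ∑ j, ξ j * L.ev U (L.Dv j (∑ k, η k • Rv L k (VC L D l c))) =
      ∑ p : Pl D l, c p * ∑ j, ξ j * L.ev U (L.Dv j (∑ k, η k • Rv L k
        (lin (ip 1) _ (SmM_plqT (L := L) p.1.1 p.1.2.1 p.1.2.2)))) := by
    have h2 : (∑ k, η k • Rv L k (VC L D l c) : Sm L (Ed D l)) =
        ∑ p : Pl D l, c p • ∑ k, η k • Rv L k
          (lin (ip 1) _ (SmM_plqT (L := L) p.1.1 p.1.2.1 p.1.2.2)) := by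
      have h3 : ∀ k, η k • Rv L k (VC L D l c) = ∑ p : Pl D l, c p • (η k • Rv L k
          (lin (ip 1) _ (SmM_plqT (L := L) p.1.1 p.1.2.1 p.1.2.2))) := by
        intro k
        unfold VC
        rw [map_sum, Finset.smul_sum]
        refine Finset.sum_congr rfl fun p _ => ?_
        rw [Derivation.map_smul, smul_comm]
      rw [Finset.sum_congr rfl fun k _ => h3 k, Finset.sum_comm]
      exact Finset.sum_congr rfl fun p _ => Finset.smul_sum.symm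
    rw [h2]
    have h4 : ∀ j, ξ j * L.ev U (L.Dv j (∑ p : Pl D l, c p • ∑ k, η k • Rv L k
          (lin (ip 1) _ (SmM_plqT (L := L) p.1.1 p.1.2.1 p.1.2.2)))) =
        ∑ p : Pl D l, c p * (ξ j * L.ev U (L.Dv j (∑ k, η k • Rv L k
          (lin (ip 1) _ (SmM_plqT (L := L) p.1.1 p.1.2.1 p.1.2.2))))) := by
      intro j
      rw [map_sum, map_sum, Finset.mul_sum]
      refine Finset.sum_congr rfl fun p _ => ?_
      rw [Derivation.map_smul, map_smul, smul_eq_mul]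
      ring
    rw [Finset.sum_congr rfl fun j _ => h4 j, Finset.sum_comm]
    exact Finset.sum_congr rfl fun p _ => (Finset.mul_sum _ _ _).symm
  rw [h1]
  refine (Finset.abs_sum_le_sum_abs _ _).trans (Finset.sum_le_sum fun p _ => ?_)
  rw [abs_mul]
  exact mul_le_mul_of_nonneg_left (plq_mixed ξ η U p) (abs_nonneg _)

theorem ne_scale (w : Ed D l → ℝ) (ξ : Ed D l × Fin n → ℝ) (e : Ed D l) (hw : 0 ≤ w e) :
    ne (fun j => w j.1 * ξ j) e = w e * ne ξ e := by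
  unfold ne
  have h1 : ∑ a, (w e * ξ (e, a)) ^ 2 = w e ^ 2 * ∑ a, ξ (e, a) ^ 2 := by
    rw [Finset.mul_sum]
    exact Finset.sum_congr rfl fun a _ => by ring
  rw [h1, Real.sqrt_mul (sq_nonneg _), Real.sqrt_sq hw]

/-- The bound for the mixed second derivatives, with weights. -/
theorem VC_bound (hD : 1 ≤ D) (w : Ed D l → ℝ) (hw : ∀ e, 0 < w e) {r : ℝ}
    (hr : ∀ p e e', inPl p e → inPl p e' → w e ≤ r * w e') {c : Pl D l → ℝ}
    (hc : ∀ p, 0 ≤ c p ∧ c p ≤ 1) (η : Ed D l × Fin n → ℝ) (U : Ed D l → G) :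
    ∑ j, (w j.1) ^ 2 * L.ev U (L.Dv j (∑ k, ((w k.1)⁻¹ * η k) • Rv L k (VC L D l c))) ^ 2 ≤
      (8 * ((D : ℝ) - 1) * r) ^ 2 * ∑ k, η k ^ 2 := by
  obtain ⟨a, ha⟩ : ∃ a : Ed D l × Fin n → ℝ,
    a = fun j => L.ev U (L.Dv j (∑ k, ((w k.1)⁻¹ * η k) • Rv L k (VC L D l c))) := ⟨_, rfl⟩
  have haj : ∀ j, L.ev U (L.Dv j (∑ k, ((w k.1)⁻¹ * η k) • Rv L k (VC L D l c))) = a j := by
    intro j; rw [ha]
  obtain ⟨ζ, hζ⟩ : ∃ ζ : Ed D l × Fin n → ℝ, ζ = fun j => w j.1 * a j := ⟨_, rfl⟩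
  obtain ⟨Z, hZ⟩ : ∃ Z, Z = ∑ j, ζ j ^ 2 := ⟨_, rfl⟩
  have hZ1 : ∑ j, (w j.1) ^ 2 *
      L.ev U (L.Dv j (∑ k, ((w k.1)⁻¹ * η k) • Rv L k (VC L D l c))) ^ 2 = Z := by
    rw [hZ, hζ]
    refine Finset.sum_congr rfl fun j _ => ?_
    rw [haj]
    ring
  rw [hZ1]
  have hZ0 : 0 ≤ Z := by rw [hZ]; exact Finset.sum_nonneg fun k _ => sq_nonneg _
  have h1 := mixed_VC (L := L) c (fun j => w j.1 * ζ j) (fun k => (w k.1)⁻¹ * η k) U
  have h2 : ∑ j, (w j.1 * ζ j) *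
      L.ev U (L.Dv j (∑ k, ((w k.1)⁻¹ * η k) • Rv L k (VC L D l c))) = Z := by
    rw [hZ]
    refine Finset.sum_congr rfl fun j _ => ?_
    rw [haj, hζ]
    ring
  rw [h2] at h1
  have h3 : ∀ p : Pl D l, pn (fun j => w j.1 * ζ j) p.1 * pn (fun k => (w k.1)⁻¹ * η k) p.1 ≤
      r * (pn ζ p.1 * pn η p.1) := by
    intro p
    have hi : ∀ e, inPl p e → ∀ e', inPl p e' → w e * (w e')⁻¹ ≤ r := by
      intro e he e' he'
      rw [mul_inv_le_iff₀ (hw e')]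
      exact hr p e e' he he'
    have q1 : inPl p (p.1.1, p.1.2.1) := Or.inl rfl
    have q2 : inPl p (p.1.1 + eT p.1.2.1, p.1.2.2) := Or.inr (Or.inl rfl)
    have q3 : inPl p (p.1.1 + eT p.1.2.2, p.1.2.1) := Or.inr (Or.inr (Or.inl rfl))
    have q4 : inPl p (p.1.1, p.1.2.2) := Or.inr (Or.inr (Or.inr rfl))
    have hx : ∀ e, inPl p e → ∀ e', inPl p e' →
        (w e * ne ζ e) * ((w e')⁻¹ * ne η e') ≤ r * (ne ζ e * ne η e') := by
      intro e he e' he'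
      have h4 : (w e * ne ζ e) * ((w e')⁻¹ * ne η e') =
          (w e * (w e')⁻¹) * (ne ζ e * ne η e') := by ring
      rw [h4]
      exact mul_le_mul_of_nonneg_right (hi e he e' he')
        (mul_nonneg (ne_nonneg _ _) (ne_nonneg _ _))
    have hs1 : ∀ e, ne (fun j => w j.1 * ζ j) e = w e * ne ζ e :=
      fun e => ne_scale w ζ e (hw e).le
    have hs2 : ∀ e, ne (fun k => (w k.1)⁻¹ * η k) e = (w e)⁻¹ * ne η e :=
      fun e => ne_scale (fun e => (w e)⁻¹) η e (inv_nonneg.2 (hw e).le)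
    unfold pn
    rw [hs1, hs1, hs1, hs1, hs2, hs2, hs2, hs2]
    have k11 := hx _ q1 _ q1
    have k12 := hx _ q1 _ q2
    have k13 := hx _ q1 _ q3
    have k14 := hx _ q1 _ q4
    have k21 := hx _ q2 _ q1
    have k22 := hx _ q2 _ q2
    have k23 := hx _ q2 _ q3
    have k24 := hx _ q2 _ q4
    have k31 := hx _ q3 _ q1
    have k32 := hx _ q3 _ q2
    have k33 := hx _ q3 _ q3
    have k34 := hx _ q3 _ q4
    have k41 := hx _ q4 _ q1
    have k42 := hx _ q4 _ q2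
    have k43 := hx _ q4 _ q3
    have k44 := hx _ q4 _ q4
    simp only [add_mul, mul_add]
    linarith
  obtain ⟨S, hS⟩ : ∃ S, S = ∑ p : Pl D l, pn ζ p.1 * pn η p.1 := ⟨_, rfl⟩
  have h5 : Z ≤ r * S := by
    refine ((le_abs_self _).trans h1).trans ?_
    rw [hS, Finset.mul_sum]
    refine Finset.sum_le_sum fun p _ => ?_
    have h6 : 0 ≤ pn (fun j => w j.1 * ζ j) p.1 * pn (fun k => (w k.1)⁻¹ * η k) p.1 :=
      mul_nonneg (pn_nonneg _ _) (pn_nonneg _ _)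
    have h7 : |c p| ≤ 1 := abs_le.2 ⟨by linarith [(hc p).1], (hc p).2⟩
    calc |c p| * (pn (fun j => w j.1 * ζ j) p.1 * pn (fun k => (w k.1)⁻¹ * η k) p.1)
        ≤ 1 * (pn (fun j => w j.1 * ζ j) p.1 * pn (fun k => (w k.1)⁻¹ * η k) p.1) :=
          mul_le_mul_of_nonneg_right h7 h6
      _ ≤ r * (pn ζ p.1 * pn η p.1) := by rw [one_mul]; exact h3 p
  have h8 := sum_pn_mul ζ η hD
  rw [← hS, ← hZ] at h8
  have h9 : Z ^ 2 ≤ r ^ 2 * S ^ 2 := by
    have := pow_le_pow_left₀ hZ0 h5 2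
    rwa [mul_pow] at this
  have h10 : r ^ 2 * S ^ 2 ≤ r ^ 2 * ((8 * ((D : ℝ) - 1)) ^ 2 * (Z * ∑ j, η j ^ 2)) :=
    mul_le_mul_of_nonneg_left h8 (sq_nonneg _)
  have hn : 0 ≤ ∑ j, η j ^ 2 := Finset.sum_nonneg fun k _ => sq_nonneg _
  rcases hZ0.eq_or_lt with h | h
  · rw [← h]
    positivity
  · have h11 : Z * Z ≤ Z * ((8 * ((D : ℝ) - 1) * r) ^ 2 * ∑ j, η j ^ 2) := by
      calc Z * Z = Z ^ 2 := by ring
        _ ≤ r ^ 2 * ((8 * ((D : ℝ) - 1)) ^ 2 * (Z * ∑ j, η j ^ 2)) := h9.trans h10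
        _ = _ := by ring
    exact le_of_mul_le_mul_left h11 h

/-- The bound for the gradient, with weights. -/
theorem VC_grad (hD : 1 ≤ D) (w : Ed D l → ℝ) {c : Pl D l → ℝ} (hc : ∀ p, |c p| ≤ 1)
    (T : Finset (Ed D l)) (hT : ∀ p, c p ≠ 0 → ∀ e, inPl p e → e ∈ T) (U : Ed D l → G) :
    ∑ j, (w j.1) ^ 2 * L.ev U (L.Dv j (VC L D l c)) ^ 2 ≤
      N * (2 * ((D : ℝ) - 1)) ^ 2 * ∑ e ∈ T, (w e) ^ 2 := by
  classical
  have hD' : (0 : ℝ) ≤ D - 1 := by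
    have : (1 : ℝ) ≤ D := by exact_mod_cast hD
    linarith
  obtain ⟨a, ha⟩ : ∃ a : Ed D l × Fin n → ℝ, a = fun j => L.ev U (L.Dv j (VC L D l c)) :=
    ⟨_, rfl⟩
  have haj : ∀ j, L.ev U (L.Dv j (VC L D l c)) = a j := by intro j; rw [ha]
  simp only [haj]
  obtain ⟨Z, hZ⟩ : ∃ Z, Z = ∑ j, w j.1 ^ 2 * a j ^ 2 := ⟨_, rfl⟩
  rw [← hZ]
  have hZ0 : 0 ≤ Z := by
    rw [hZ]; exact Finset.sum_nonneg fun k _ => mul_nonneg (sq_nonneg _) (sq_nonneg _)
  have h1 : ∑ j, (w j.1 ^ 2 * a j) * L.ev U (L.Dv j (VC L D l c)) =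
      ∑ p : Pl D l, c p * ∑ j, (w j.1 ^ 2 * a j) * L.ev U (L.Dv j
        (lin (ip 1) _ (SmM_plqT (L := L) p.1.1 p.1.2.1 p.1.2.2))) := by
    have h4 : ∀ j, (w j.1 ^ 2 * a j) * L.ev U (L.Dv j (VC L D l c)) =
        ∑ p : Pl D l, c p * ((w j.1 ^ 2 * a j) * L.ev U (L.Dv j
          (lin (ip 1) _ (SmM_plqT (L := L) p.1.1 p.1.2.1 p.1.2.2)))) := by
      intro j
      unfold VC
      rw [map_sum, map_sum, Finset.mul_sum]
      refine Finset.sum_congr rfl fun p _ => ?_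
      rw [Derivation.map_smul, map_smul, smul_eq_mul]
      ring
    rw [Finset.sum_congr rfl fun j _ => h4 j, Finset.sum_comm]
    exact Finset.sum_congr rfl fun p _ => (Finset.mul_sum _ _ _).symm
  have h2 : ∑ j, (w j.1 ^ 2 * a j) * L.ev U (L.Dv j (VC L D l c)) = Z := by
    rw [hZ]
    exact Finset.sum_congr rfl fun j _ => by rw [haj]; ring
  obtain ⟨ξ, hξ⟩ : ∃ ξ : Ed D l × Fin n → ℝ, ξ = fun j => w j.1 ^ 2 * a j := ⟨_, rfl⟩
  have hne : ∀ e, ne ξ e = w e ^ 2 * ne a e := by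
    intro e
    rw [hξ]
    exact ne_scale (fun e => w e ^ 2) a e (sq_nonneg _)
  -- the bound by the links of `T`
  have h3 : Z ≤ Real.sqrt N * (2 * ((D : ℝ) - 1) * ∑ e, if e ∈ T then ne ξ e else 0) := by
    rw [← h2, h1, ← count (fun e => if e ∈ T then ne ξ e else 0), Finset.mul_sum]
    refine Finset.sum_le_sum fun p _ => ?_
    by_cases hcp : c p = 0
    · rw [hcp, zero_mul]
      have h5 : ∀ e, 0 ≤ (if e ∈ T then ne ξ e else 0) := by
        intro e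
        split_ifs
        · exact ne_nonneg _ _
        · exact le_rfl
      have := h5 (p.1.1, p.1.2.1)
      have := h5 (p.1.1 + eT p.1.2.1, p.1.2.2)
      have := h5 (p.1.1 + eT p.1.2.2, p.1.2.1)
      have := h5 (p.1.1, p.1.2.2)
      positivity
    · have e1 := hT p hcp _ (Or.inl rfl)
      have e2 := hT p hcp _ (Or.inr (Or.inl rfl))
      have e3 := hT p hcp _ (Or.inr (Or.inr (Or.inl rfl)))
      have e4 := hT p hcp _ (Or.inr (Or.inr (Or.inr rfl)))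
      rw [if_pos e1, if_pos e2, if_pos e3, if_pos e4]
      have h5 := plq_first (L := L) ξ U p
      have h6 : c p * ∑ j, (w j.1 ^ 2 * a j) * L.ev U (L.Dv j
          (lin (ip 1) _ (SmM_plqT (L := L) p.1.1 p.1.2.1 p.1.2.2))) ≤
          |c p| * |∑ j, ξ j * L.ev U (L.Dv j
          (lin (ip 1) _ (SmM_plqT (L := L) p.1.1 p.1.2.1 p.1.2.2)))| := by
        rw [← abs_mul, hξ]
        exact le_abs_self _
      refine h6.trans ?_
      calc |c p| * |∑ j, ξ j * L.ev U (L.Dv j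
          (lin (ip 1) _ (SmM_plqT (L := L) p.1.1 p.1.2.1 p.1.2.2)))|
          ≤ 1 * (Real.sqrt N * pn ξ p.1) :=
            mul_le_mul (hc p) h5 (abs_nonneg _) zero_le_one
        _ = _ := by rw [one_mul]; rfl
  have h7 : (∑ e, if e ∈ T then ne ξ e else 0) = ∑ e ∈ T, w e * (w e * ne a e) := by
    rw [← Finset.sum_filter, Finset.filter_mem_eq_inter, Finset.univ_inter]
    refine Finset.sum_congr rfl fun e _ => ?_
    rw [hne]
    ring
  rw [h7] at h3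
  obtain ⟨Q, hQ⟩ : ∃ Q, Q = ∑ e ∈ T, w e * (w e * ne a e) := ⟨_, rfl⟩
  rw [← hQ] at h3
  have h8 : Q ^ 2 ≤ (∑ e ∈ T, w e ^ 2) * Z := by
    have h9 := Finset.sum_mul_sq_le_sq_mul_sq T (fun e => w e) (fun e => w e * ne a e)
    rw [← hQ] at h9
    refine h9.trans (mul_le_mul_of_nonneg_left ?_ (Finset.sum_nonneg fun _ _ => sq_nonneg _))
    calc ∑ e ∈ T, (w e * ne a e) ^ 2 ≤ ∑ e, (w e * ne a e) ^ 2 :=
          Finset.sum_le_sum_of_subset_of_nonneg (Finset.subset_univ _)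
            fun _ _ _ => sq_nonneg _
      _ = Z := by
          rw [hZ, Fintype.sum_prod_type (f := fun j => w j.1 ^ 2 * a j ^ 2)]
          refine Finset.sum_congr rfl fun e _ => ?_
          rw [mul_pow, ne_sq, Finset.mul_sum]
  have hW0 : 0 ≤ ∑ e ∈ T, w e ^ 2 := Finset.sum_nonneg fun _ _ => sq_nonneg _
  have h10 : Z ^ 2 ≤ (Real.sqrt N * (2 * ((D : ℝ) - 1) * Q)) ^ 2 := pow_le_pow_left₀ hZ0 h3 2
  have h11 : (Real.sqrt N * (2 * ((D : ℝ) - 1) * Q)) ^ 2 = N * (2 * ((D : ℝ) - 1)) ^ 2 * Q ^ 2 := by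
    rw [mul_pow, Real.sq_sqrt (Nat.cast_nonneg N)]
    ring
  rw [h11] at h10
  have h12 : (N : ℝ) * (2 * ((D : ℝ) - 1)) ^ 2 * Q ^ 2 ≤
      N * (2 * ((D : ℝ) - 1)) ^ 2 * ((∑ e ∈ T, w e ^ 2) * Z) :=
    mul_le_mul_of_nonneg_left h8 (by positivity)
  rcases hZ0.eq_or_lt with h | h
  · rw [← h]
    positivity
  · have h13 : Z * Z ≤ Z * (N * (2 * ((D : ℝ) - 1)) ^ 2 * ∑ e ∈ T, w e ^ 2) := by
      calc Z * Z = Z ^ 2 := by ring
        _ ≤ N * (2 * ((D : ℝ) - 1)) ^ 2 * ((∑ e ∈ T, w e ^ 2) * Z) := h10.trans h12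
        _ = _ := by ring
    exact le_of_mul_le_mul_left h13 h

variable [IsTopologicalGroup G] [CompactSpace G] [SecondCountableTopology G]
  [MeasurableSpace G] [BorelSpace G] (μ : Measure G) [IsProbabilityMeasure μ]
  [μ.IsMulLeftInvariant] [μ.IsOpenPosMeasure] {K : ℝ} {hK : 0 < K} {hc : Curv L K}

theorem Rep_VC (c : Pl D l → ℝ) : (geo μ L (Ed D l) hK hc).Rep (VC L D l c) := by
  unfold VC
  refine Geo.Rep.sum _ fun p _ => Geo.Rep.smul ?_ _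
  have h1 : RepM μ hK hc fun U : Ed D l → G =>
      L.rho (plqT U p.1.1 p.1.2.1 p.1.2.2) := by
    have h2 := ((((RepM.link (μ := μ) (hK := hK) (hc := hc) (p.1.1, p.1.2.1)).mul
      (RepM.link (p.1.1 + eT p.1.2.1, p.1.2.2))).mul
      (RepM.link (p.1.1 + eT p.1.2.2, p.1.2.1)).ct).mul
      (RepM.link (p.1.1, p.1.2.2)).ct)
    have h3 : (fun U : Ed D l → G => L.rho (plqT U p.1.1 p.1.2.1 p.1.2.2)) =
        fun U => L.rho (U (p.1.1, p.1.2.1)) * L.rho (U (p.1.1 + eT p.1.2.1, p.1.2.2)) *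
          (L.rho (U (p.1.1 + eT p.1.2.2, p.1.2.1)))ᴴ * (L.rho (U (p.1.1, p.1.2.2)))ᴴ := by
      funext U
      unfold plqT
      rw [map_mul, map_mul, map_mul, L.rho_inv, L.rho_inv]
    rw [h3]
    exact h2
  choose f hf hf' using h1
  obtain ⟨c0, hc0⟩ : ∃ c0 : ℝ, c0 = ip (1 : Mat N) 1 := ⟨_, rfl⟩
  have h4 : lin (ip 1) _ (SmM_plqT (L := L) p.1.1 p.1.2.1 p.1.2.2) =
      c0 • (1 : Sm L (Ed D l)) + ∑ c, (-co c (1 : Mat N)) • f c := by
    refine ev_ext fun U => ?_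
    rw [map_add, map_smul, map_one, map_sum]
    have h5 : L.ev U (lin (ip 1) _ (SmM_plqT (L := L) p.1.1 p.1.2.1 p.1.2.2)) =
        c0 - ip 1 (L.rho (plqT U p.1.1 p.1.2.1 p.1.2.2)) := by
      rw [hc0]
      show ip (1 : Mat N) (1 - _) = _
      rw [map_sub]
    rw [h5, ip_sum_co 1 (L.rho (plqT U p.1.1 p.1.2.1 p.1.2.2)), smul_eq_mul, mul_one,
      sub_eq_add_neg, ← Finset.sum_neg_distrib]
    congr 1
    refine Finset.sum_congr rfl fun c _ => ?_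
    rw [map_smul, hf', smul_eq_mul]; ring
  rw [h4]
  exact (Geo.Rep.one.smul _).add (Geo.Rep.sum _ fun c _ => (hf c).smul _)

end

end Pool.Agent.YMI
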