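import Mathlib
import Pool.Agent.W504.YM.Fin

/-!
# Functions of some of the variables
-/

open MeasureTheory Matrix
open scoped Matrix.Norms.Frobenius ContDiff
open Pool.Agent.H906R3.YM Pool.Agent.W504.YM

namespace Pool.Agent.YMI

set_option linter.unusedSectionVars false

noncomputable section

variable {G : Type*} [Group G] [TopologicalSpace G] {N n : ℕ} {L : LD G N n}
variable {E E' : Type*} [Fintype E] [DecidableEq E] [Fintype E'] [DecidableEq E']

/-- `(pl φ F) U = F (U ∘ φ)` -/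
def pl (L : LD G N n) (φ : E → E') : Sm L E →ₐ[ℝ] Sm L E' :=
  pull (L := L) φ

theorem ev_pl (φ : E → E') (U : E' → G) (F : Sm L E) :
    L.ev U (pl L φ F) = L.ev (fun e => U (φ e)) F := rfl

theorem Dv_pl {φ : E → E'} (hφ : Function.Injective φ) (e : E) (a : Fin n) (F : Sm L E) :
    L.Dv (φ e, a) (pl L φ F) = pl L φ (L.Dv (e, a) F) :=
  Dv_pull hφ (e, a) F

theorem Dv_pl_zero {φ : E → E'} {e' : E'} (he : e' ∉ Set.range φ) (a : Fin n) (F : Sm L E) :
    L.Dv (e', a) (pl L φ F) = 0 :=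
  Dv_pull_zero e' (fun s hs => he ⟨s, hs⟩) a F

theorem Lap_pl {φ : E → E'} (hφ : Function.Injective φ) (F : Sm L E) :
    Lap L.Dv (pl L φ F) = pl L φ (Lap L.Dv F) := by
  unfold Lap
  rw [map_sum]
  symm
  refine Fintype.sum_of_injective (fun j : E × Fin n => (φ j.1, j.2)) ?_ _ _ ?_ ?_
  · rintro ⟨e, a⟩ ⟨e', a'⟩ h
    simp only [Prod.mk.injEq] at h
    rw [Prod.mk.injEq]
    exact ⟨hφ h.1, h.2⟩
  · rintro ⟨e', a⟩ h
    have he : e' ∉ Set.range φ := by
      rintro ⟨e, rfl⟩
      exact h ⟨(e, a), rfl⟩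
    rw [Dv_pl_zero he, map_zero]
  · rintro ⟨e, a⟩
    rw [Dv_pl hφ, Dv_pl hφ]

variable [IsTopologicalGroup G] [CompactSpace G] [SecondCountableTopology G]
  [MeasurableSpace G] [BorelSpace G] (μ : Measure G) [IsProbabilityMeasure μ]
  [μ.IsMulLeftInvariant] [μ.IsOpenPosMeasure] {K : ℝ} {hK : 0 < K} {hc : Curv L K}

theorem Rep_pl {φ : E → E'} (hφ : Function.Injective φ) {F : Sm L E}
    (hF : (geo μ L E hK hc).Rep F) : (geo μ L E' hK hc).Rep (pl L φ F) := by
  obtain ⟨W, h1, h2, h3⟩ := hF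
  refine ⟨W.map (pl L φ).toLinearMap, h1.map _, Submodule.mem_map_of_mem h2, ?_⟩
  rintro ⟨e', a⟩ _ ⟨g, hg, rfl⟩
  show L.Dv (e', a) (pl L φ g) ∈ _
  by_cases he : e' ∈ Set.range φ
  · obtain ⟨e, rfl⟩ := he
    rw [Dv_pl hφ]
    exact Submodule.mem_map_of_mem (h3 (e, a) g hg)
  · rw [Dv_pl_zero he]
    exact Submodule.zero_mem _

theorem P_pl {φ : E → E'} (hφ : Function.Injective φ) {F : Sm L E}
    (hF : (geo μ L E hK hc).Rep F) {s : ℝ} (hs : 0 ≤ s) :
    (geo μ L E' hK hc).P s (pl L φ F) = pl L φ ((geo μ L E hK hc).P s F) := by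
  have h1 : (geo μ L E' hK hc).Heat fun s => pl L φ ((geo μ L E hK hc).P s F) := by
    have h2 := FC.map (Geo.P_heat hF) (pl L φ).toLinearMap
    unfold Geo.Heat
    have h3 : ∀ s, Lap (geo μ L E' hK hc).D (pl L φ ((geo μ L E hK hc).P s F)) =
        pl L φ (Lap (geo μ L E hK hc).D ((geo μ L E hK hc).P s F)) := fun s => Lap_pl hφ _
    simp only [h3]
    exact h2
  exact ((Geo.P_heat (Rep_pl μ hφ hF)).unique h1
    (by rw [Geo.P_zero hF, Geo.P_zero (Rep_pl μ hφ hF)]) hs)

theorem St_pl {φ : E → E'} (hφ : Function.Injective φ) {w F : Sm L E}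
    (hw : (geo μ L E hK hc).Rep w)
    (hF : (geo μ L E hK hc).Rep F) {τ : ℝ} (hτ : 0 ≤ τ) (k : ℕ) :
    ((geo μ L E' hK hc).St (pl L φ w) τ)^[k] (pl L φ F) =
      pl L φ (((geo μ L E hK hc).St w τ)^[k] F) := by
  induction k with
  | zero => rfl
  | succ k ih =>
    rw [Function.iterate_succ_apply', ih, Function.iterate_succ_apply']
    unfold Geo.St
    rw [← map_mul]
    exact P_pl μ hφ (hw.mul (Geo.It_rep hw hF τ k)) hτ

/-- the marginal of a product measure under an injection of the indices -/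
theorem map_pi_comp {φ : E → E'} (hφ : Function.Injective φ) :
    (ME μ E').map (fun U : E' → G => fun e => U (φ e)) = ME μ E := by
  have hm : Measurable (fun U : E' → G => fun e => U (φ e)) :=
    measurable_pi_lambda _ fun e => measurable_pi_apply (φ e)
  symm
  refine Measure.pi_eq fun s hs => ?_
  rw [Measure.map_apply hm (MeasurableSet.univ_pi hs)]
  have h1 : (fun U : E' → G => fun e => U (φ e)) ⁻¹' Set.univ.pi s =
      Set.univ.pi (fun e' => {g : G | ∀ e, φ e = e' → g ∈ s e}) := by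
    ext U
    simp only [Set.mem_preimage, Set.mem_pi, Set.mem_univ, true_implies, Set.mem_setOf_eq]
    constructor
    · rintro h e' e rfl
      exact h e
    · intro h e
      exact h (φ e) e rfl
  rw [h1, Measure.pi_pi]
  symm
  refine Fintype.prod_of_injective φ hφ _ _ ?_ ?_
  · intro e' he'
    have h2 : {g : G | ∀ e, φ e = e' → g ∈ s e} = Set.univ := by
      ext g
      simp only [Set.mem_setOf_eq, Set.mem_univ, iff_true]
      intro e he
      exact absurd ⟨e, he⟩ he'
    rw [h2, measure_univ]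
  · intro e
    congr 1
    ext g
    simp only [Set.mem_setOf_eq]
    constructor
    · intro hg e1 h1
      rw [hφ h1]
      exact hg
    · intro hg
      exact hg e rfl

theorem I_pl {φ : E → E'} (hφ : Function.Injective φ) (F : Sm L E) :
    L.I μ (pl L φ F) = L.I μ F := by
  rw [I_apply, I_apply]
  have hm : Measurable (fun U : E' → G => fun e => U (φ e)) :=
    measurable_pi_lambda _ fun e => measurable_pi_apply (φ e)
  have h2 := integral_map (μ := ME μ E') (f := F.1) hm.aemeasurable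
    (Sm_cont F).aestronglyMeasurable
  rw [map_pi_comp μ hφ] at h2
  rw [h2]
  rfl

end

end Pool.Agent.YMI
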