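import Mathlib
import Pool.Agent.YMI.Pot
import Pool.Agent.YMI.Pull
import Pool.Agent.YMI.Defs2

/-!
# Definitions: distances, balls, embeddings for the periodic lattices
-/

open MeasureTheory Matrix
open scoped Matrix.Norms.Frobenius ContDiff
open Pool.Agent.H906R3.YM Pool.Agent.W504.YM

namespace Pool.Agent.YMI

set_option linter.unusedSectionVars false

noncomputable section

variable {D : ℕ}

/-- distance from the origin, in the maximum norm -/
def nrm {l : ℕ} (x : Fin D → ZMod l) : ℕ := Finset.univ.sup fun k => (x k).valMinAbs.natAbs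

/-- the projection of the links of `ℤ^D` -/
def prj (l : ℕ) (e : LinkZ D) : Ed D l := (fun k => (e.1 k : ZMod l), e.2)

/-- the plaquettes with base point at distance at most `R` -/
def ball {l : ℕ} (R : ℕ) : Pl D l → ℝ := fun p => if nrm p.1.1 ≤ R then 1 else 0

/-- the embedding of the links -/
def emb (l l' : ℕ) (e : Ed D l) : Ed D l' := (fun k => ((e.1 k).valMinAbs : ZMod l'), e.2)

end

end Pool.Agent.YMI
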