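import Mathlib
import Pool.Agent.YMI.Pot
import Pool.Agent.YMI.Pull
import Pool.Agent.YMI.Defs2
import Pool.Agent.YMI.LatD

/-!
# Distances, balls, embeddings for the periodic lattices: part A
-/

open MeasureTheory Matrix
open scoped Matrix.Norms.Frobenius ContDiff
open Pool.Agent.H906R3.YM Pool.Agent.W504.YM

namespace Pool.Agent.YMI

set_option linter.unusedSectionVars false

noncomputable section

variable {D : ℕ}

/-! ### auxiliary lemmas -/

theorem nrm_le_iff {l : ℕ} (x : Fin D → ZMod l) (R : ℕ) :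
    nrm x ≤ R ↔ ∀ k, (x k).valMinAbs.natAbs ≤ R := by
  unfold nrm
  rw [Finset.sup_le_iff]
  simp

theorem le_nrm {l : ℕ} (x : Fin D → ZMod l) (k : Fin D) : (x k).valMinAbs.natAbs ≤ nrm x :=
  (nrm_le_iff x _).1 le_rfl k

theorem natAbs_cast_le {l : ℕ} [NeZero l] (z : ℤ) :
    ((z : ZMod l)).valMinAbs.natAbs ≤ z.natAbs :=
  ZMod.natAbs_min_of_le_div_two l _ z (ZMod.coe_valMinAbs _) (ZMod.natAbs_valMinAbs_le _)

theorem natAbs_add_int {l : ℕ} [NeZero l] (a : ZMod l) (z : ℤ) (hz : z.natAbs ≤ 1) :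
    (a + (z : ZMod l)).valMinAbs.natAbs ≤ a.valMinAbs.natAbs + 1 := by
  refine (ZMod.natAbs_valMinAbs_add_le _ _).trans ?_
  refine (Int.natAbs_add_le _ _).trans ?_
  have := (natAbs_cast_le (l := l) z).trans hz
  omega

theorem valMinAbs_cast {l : ℕ} [NeZero l] (z : ℤ) (h : 2 * z.natAbs < l) :
    (z : ZMod l).valMinAbs = z := by
  rw [ZMod.valMinAbs_spec]
  refine ⟨rfl, ?_, ?_⟩ <;> omega

theorem inPl_coord {l : ℕ} {p : Pl D l} {e : Ed D l} (h : inPl p e) (k : Fin D) :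
    e.1 k = p.1.1 k ∨ e.1 k = p.1.1 k + 1 := by
  have hs : ∀ i : Fin D, (p.1.1 + (eT i : Fin D → ZMod l)) k = p.1.1 k ∨
      (p.1.1 + (eT i : Fin D → ZMod l)) k = p.1.1 k + 1 := by
    intro i
    by_cases hk : k = i
    · right
      subst hk
      simp [eT]
    · left
      simp [eT, hk]
  rcases h with rfl | rfl | rfl | rfl
  · exact Or.inl rfl
  · exact hs _
  · exact hs _
  · exact Or.inl rfl

theorem nrm_close {l : ℕ} [NeZero l] (x y : Fin D → ZMod l)
    (h : ∀ k, ∃ z : ℤ, z.natAbs ≤ 1 ∧ x k = y k + (z : ZMod l)) : nrm x ≤ nrm y + 1 := by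
  rw [nrm_le_iff]
  intro k
  obtain ⟨z, hz, e⟩ := h k
  rw [e]
  refine (natAbs_add_int _ z hz).trans ?_
  have := le_nrm y k
  omega

/-! ### the statements -/

theorem nrm_pl {l : ℕ} [NeZero l] (p : Pl D l) (e e' : Ed D l) (h : inPl p e) (h' : inPl p e') :
    nrm e.1 ≤ nrm e'.1 + 1 := by
  refine nrm_close _ _ fun k => ?_
  rcases inPl_coord h k with h1 | h1 <;> rcases inPl_coord h' k with h2 | h2
  · exact ⟨0, by simp, by rw [h1, h2]; simp⟩
  · exact ⟨-1, by simp, by rw [h1, h2]; push_cast; ring⟩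
  · exact ⟨1, by simp, by rw [h1, h2]; push_cast; ring⟩
  · exact ⟨0, by simp, by rw [h1, h2]; simp⟩

theorem nrm_prj {l : ℕ} [NeZero l] (e : LinkZ D) (m : ℕ)
    (h : ∀ k, |e.1 k| ≤ m) : nrm (prj l e).1 ≤ m := by
  rw [nrm_le_iff]
  intro k
  refine (natAbs_cast_le (l := l) (e.1 k)).trans ?_
  have := h k
  rw [abs_le] at this
  omega

/-- the links of the plaquettes outside of the ball are at distance at least `R` -/
theorem ball_out {l : ℕ} [NeZero l] (R : ℕ) (p : Pl D l) (h : ¬ nrm p.1.1 ≤ R) (e : Ed D l)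
    (he : inPl p e) : R ≤ nrm e.1 := by
  have h1 : nrm p.1.1 ≤ nrm e.1 + 1 := by
    refine nrm_close _ _ fun k => ?_
    rcases inPl_coord he k with h1 | h1
    · exact ⟨0, by simp, by rw [h1]; simp⟩
    · exact ⟨-1, by simp, by rw [h1]; push_cast; ring⟩
  omega

theorem valMinAbs_bd {l : ℕ} [NeZero l] (a : ZMod l) :
    -(l : ℤ) < a.valMinAbs * 2 ∧ a.valMinAbs * 2 ≤ l := ZMod.valMinAbs_mem_Ioc a

theorem emb_inj {l l' : ℕ} [NeZero l] [NeZero l'] (h : l ≤ l') :
    Function.Injective (emb l l' : Ed D l → Ed D l') := by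
  rintro ⟨x, i⟩ ⟨y, j⟩ he
  unfold emb at he
  rw [Prod.mk.injEq] at he
  obtain ⟨h1, h2⟩ := he
  refine Prod.ext (funext fun k => ?_) h2
  have h3 := congrFun h1 k
  simp only at h3
  rw [ZMod.intCast_eq_intCast_iff, Int.modEq_iff_dvd] at h3
  obtain ⟨c, hc⟩ := h3
  have b1 := valMinAbs_bd (x k)
  have b2 := valMinAbs_bd (y k)
  have hl : (l : ℤ) ≤ l' := by exact_mod_cast h
  have hc0 : c = 0 := by
    by_contra hne
    have hpos : (0 : ℤ) < l' := by
      have := NeZero.pos l'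
      omega
    rcases lt_or_gt_of_ne hne with hlt | hgt
    · have : (l' : ℤ) * c ≤ -(l' : ℤ) := by nlinarith
      omega
    · have : (l' : ℤ) ≤ (l' : ℤ) * c := by nlinarith
      omega
  rw [hc0, mul_zero, sub_eq_zero] at hc
  show x k = y k
  rw [← ZMod.coe_valMinAbs (x k), ← ZMod.coe_valMinAbs (y k), hc]

/-- the embedding of the points -/
def embP (l l' : ℕ) (x : Fin D → ZMod l) : Fin D → ZMod l' :=
  fun k => ((x k).valMinAbs : ZMod l')

theorem valMinAbs_embP {l l' R : ℕ} [NeZero l'] (h : 2 * R < l') {x : Fin D → ZMod l}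
    (hx : nrm x ≤ R) (k : Fin D) : (embP l l' x k).valMinAbs = (x k).valMinAbs := by
  unfold embP
  have := (nrm_le_iff x R).1 hx k
  exact valMinAbs_cast _ (by omega)

theorem nrm_embP {l l' R : ℕ} [NeZero l'] (h : 2 * R < l') {x : Fin D → ZMod l}
    (hx : nrm x ≤ R) : nrm (embP l l' x) ≤ R := by
  rw [nrm_le_iff]
  intro k
  rw [valMinAbs_embP h hx]
  exact (nrm_le_iff x R).1 hx k

theorem embP_embP {l l' R : ℕ} [NeZero l] [NeZero l'] (h : 2 * R < l') {x : Fin D → ZMod l}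
    (hx : nrm x ≤ R) : embP l' l (embP l l' x) = x := by
  funext k
  show (((embP l l' x k).valMinAbs : ℤ) : ZMod l) = x k
  rw [valMinAbs_embP h hx, ZMod.coe_valMinAbs]

theorem embP_add {l l' R : ℕ} [NeZero l] (h : 2 * R + 3 ≤ l) {x : Fin D → ZMod l}
    (hx : nrm x ≤ R) (i : Fin D) : embP l l' (x + eT i) = embP l l' x + eT i := by
  funext k
  show (((x + (eT i : Fin D → ZMod l)) k).valMinAbs : ZMod l') = ((x k).valMinAbs : ZMod l') + (eT i : Fin D → ZMod l') k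
  by_cases hk : k = i
  · subst hk
    have h1 : (x + (eT k : Fin D → ZMod l)) k = x k + 1 := by simp [eT]
    have h2 : (eT k : Fin D → ZMod l') k = 1 := by simp [eT]
    rw [h1, h2]
    have h3 : (x k + 1).valMinAbs = (x k).valMinAbs + 1 := by
      rw [ZMod.valMinAbs_spec]
      have := (nrm_le_iff x R).1 hx k
      refine ⟨by push_cast [ZMod.coe_valMinAbs]; rfl, ?_, ?_⟩ <;> omega
    rw [h3]
    push_cast
    rfl
  · have h1 : (x + (eT i : Fin D → ZMod l)) k = x k := by simp [eT, hk]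
    have h2 : (eT i : Fin D → ZMod l') k = 0 := by simp [eT, hk]
    rw [h1, h2, add_zero]

theorem plqT_emb {G : Type*} [Group G] {l l' R : ℕ} [NeZero l] (hR : 2 * R + 3 ≤ l)
    (U : Ed D l' → G) {x : Fin D → ZMod l} (hx : nrm x ≤ R) (i j : Fin D) :
    plqT (fun e => U (emb l l' e)) x i j = plqT U (embP l l' x) i j := by
  unfold plqT
  have h1 : ∀ (y : Fin D → ZMod l) (i : Fin D), emb l l' (y, i) = (embP l l' y, i) :=
    fun y i => rfl
  beta_reduce
  rw [h1, h1, h1, h1, embP_add hR hx, embP_add hR hx]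

theorem ev_VC {G : Type*} [Group G] [TopologicalSpace G] {N n : ℕ} {L : LD G N n}
    {l : ℕ} [NeZero l] (c : Pl D l → ℝ) (U : Ed D l → G) :
    L.ev U (VC L D l c) = ∑ p : Pl D l, c p * ip 1 (1 - L.rho (plqT U p.1.1 p.1.2.1 p.1.2.2)) := by
  unfold VC
  rw [map_sum]
  refine Finset.sum_congr rfl fun p _ => ?_
  rw [map_smul, smul_eq_mul]
  rfl

theorem pl_VC {G : Type*} [Group G] [TopologicalSpace G] {N n : ℕ} {L : LD G N n}
    {l l' R : ℕ} [NeZero l] [NeZero l'] (h : l ≤ l') (hR : 2 * R + 3 ≤ l) :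
    pl L (emb l l') (VC L D l (ball R)) = VC L D l' (ball R) := by
  refine ev_ext fun U => ?_
  rw [ev_pl, ev_VC, ev_VC]
  have e1 : ∀ (m : ℕ) (f : Pl D m → ℝ) [NeZero m], ∑ p : Pl D m, ball R p * f p =
      ∑ p ∈ Finset.univ.filter (fun p : Pl D m => nrm p.1.1 ≤ R), f p := by
    intro m f _
    rw [Finset.sum_filter]
    refine Finset.sum_congr rfl fun p _ => ?_
    unfold ball
    split_ifs
    · rw [one_mul]
    · rw [zero_mul]
  rw [e1 l, e1 l']
  refine Finset.sum_bij' (fun p _ => (⟨(embP l l' p.1.1, p.1.2.1, p.1.2.2), p.2⟩ : Pl D l'))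
    (fun p _ => (⟨(embP l' l p.1.1, p.1.2.1, p.1.2.2), p.2⟩ : Pl D l)) ?_ ?_ ?_ ?_ ?_
  · intro p hp
    rw [Finset.mem_filter] at hp ⊢
    exact ⟨Finset.mem_univ _, nrm_embP (by omega) hp.2⟩
  · intro p hp
    rw [Finset.mem_filter] at hp ⊢
    exact ⟨Finset.mem_univ _, nrm_embP (by omega) hp.2⟩
  · intro p hp
    rw [Finset.mem_filter] at hp
    refine Subtype.ext (Prod.ext ?_ rfl)
    exact embP_embP (by omega) hp.2
  · intro p hp
    rw [Finset.mem_filter] at hp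
    refine Subtype.ext (Prod.ext ?_ rfl)
    exact embP_embP (by omega) hp.2
  · intro p hp
    rw [Finset.mem_filter] at hp
    rw [plqT_emb hR U hp.2]

/-- local functions and the embedding -/
theorem per_emb {N : ℕ} {G : Subgroup (UU N)} {m : ℕ} {Λ : Finset (LinkZ D)}
    (hΛ : ∀ e ∈ Λ, ∀ k, |e.1 k| ≤ m) {F : (LinkZ D → G) → ℝ} (hF : IsLocal Λ F) {l l' : ℕ}
    [NeZero l] [NeZero l'] (hl : 2 * m < l) (h : l ≤ l') (U : Link D l' → G) :
    F (per fun e : Link D l => U (emb l l' e)) = F (per U) := by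
  obtain ⟨f, -, hf⟩ := hF
  rw [hf, hf]
  congr 1
  funext e
  congr 1
  show U (emb l l' (fun k => (e.1.1 k : ZMod l), e.1.2)) = U (fun k => (e.1.1 k : ZMod l'), e.1.2)
  congr 1
  refine Prod.ext (funext fun k => ?_) rfl
  show (((e.1.1 k : ZMod l).valMinAbs : ℤ) : ZMod l') = (e.1.1 k : ZMod l')
  have h1 := hΛ e.1 e.2 k
  rw [abs_le] at h1
  rw [valMinAbs_cast _ (by omega)]

end

end Pool.Agent.YMI
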