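import Mathlib
import Pool.Agent.YMI.LatD

/-!
# Sums and distances on periodic lattices
-/

open MeasureTheory Matrix
open scoped Matrix.Norms.Frobenius ContDiff
open Pool.Agent.H906R3.YM Pool.Agent.W504.YM

namespace Pool.Agent.YMI

set_option linter.unusedSectionVars false
set_option maxHeartbeats 400000

noncomputable section

variable {D : ℕ}

namespace LatB

/-- part of the geometric series -/
theorem geo_part {ι : Type*} (s : Finset ι) (f : ι → ℕ) (hf : Set.InjOn f s) (r : ℝ)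
    (hr0 : 0 ≤ r) (hr1 : r < 1) : ∑ z ∈ s, r ^ f z ≤ (1 - r)⁻¹ := by
  classical
  rw [← Finset.sum_image (f := fun m => r ^ m) hf, ← tsum_geometric_of_lt_one hr0 hr1]
  exact (summable_geometric_of_lt_one hr0 hr1).sum_le_tsum _ (fun i _ => pow_nonneg hr0 i)

theorem sum_one {l : ℕ} [NeZero l] (r : ℝ) (hr0 : 0 ≤ r) (hr1 : r < 1) :
    ∑ z : ZMod l, r ^ z.valMinAbs.natAbs ≤ 2 * (1 - r)⁻¹ := by
  classical
  rw [← Finset.sum_filter_add_sum_filter_not Finset.univ (fun z : ZMod l => 0 ≤ z.valMinAbs)]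
  have h1 := geo_part (Finset.univ.filter fun z : ZMod l => 0 ≤ z.valMinAbs)
    (fun z => z.valMinAbs.natAbs) (fun z hz w hw h => by
      simp only [Finset.coe_filter, Finset.mem_univ, true_and, Set.mem_ofPred_eq] at hz hw
      apply ZMod.injective_valMinAbs
      simp only [] at h
      omega) r hr0 hr1
  have h2 := geo_part (Finset.univ.filter fun z : ZMod l => ¬ 0 ≤ z.valMinAbs)
    (fun z => z.valMinAbs.natAbs) (fun z hz w hw h => by
      simp only [Finset.coe_filter, Finset.mem_univ, true_and, Set.mem_ofPred_eq] at hz hw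
      apply ZMod.injective_valMinAbs
      simp only [] at h
      omega) r hr0 hr1
  linarith

theorem nrm_ge {l : ℕ} (x : Fin D → ZMod l) (k : Fin D) : (x k).valMinAbs.natAbs ≤ nrm x :=
  Finset.le_sup (f := fun k => (x k).valMinAbs.natAbs) (Finset.mem_univ k)

theorem sum_all (hD : 0 < D) {l : ℕ} [NeZero l] (a : ℝ) (ha : 0 < a) :
    ∑ x : Fin D → ZMod l, Real.exp (-(a * (nrm x : ℝ))) ≤
      (2 * (1 - Real.exp (-(a / D)))⁻¹) ^ D := by
  classical
  have hD' : (0 : ℝ) < D := by exact_mod_cast hD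
  set r := Real.exp (-(a / D)) with hr
  have hr0 : 0 ≤ r := (Real.exp_pos _).le
  have hr1 : r < 1 := by
    rw [hr, Real.exp_lt_one_iff]
    have : 0 < a / D := by positivity
    linarith
  have h1 : ∀ x : Fin D → ZMod l, Real.exp (-(a * (nrm x : ℝ))) ≤
      ∏ k, r ^ (x k).valMinAbs.natAbs := by
    intro x
    rw [Finset.prod_pow_eq_pow_sum, hr, ← Real.exp_nat_mul, Real.exp_le_exp]
    have h2 : ∑ k, (x k).valMinAbs.natAbs ≤ D * nrm x := by
      refine (Finset.sum_le_card_nsmul _ _ _ (fun k _ => nrm_ge x k)).trans ?_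
      simp
    have h3 : ((∑ k, (x k).valMinAbs.natAbs : ℕ) : ℝ) ≤ D * nrm x := by exact_mod_cast h2
    have h4 : ((∑ k, (x k).valMinAbs.natAbs : ℕ) : ℝ) * (a / D) ≤ D * nrm x * (a / D) :=
      mul_le_mul_of_nonneg_right h3 (by positivity)
    have h5 : (D : ℝ) * nrm x * (a / D) = a * nrm x := by field_simp
    linarith
  refine (Finset.sum_le_sum fun x _ => h1 x).trans ?_
  have h2 : ∑ x : Fin D → ZMod l, ∏ k, r ^ (x k).valMinAbs.natAbs =
      ∏ _k : Fin D, ∑ z : ZMod l, r ^ z.valMinAbs.natAbs := by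
    rw [Finset.prod_univ_sum, Fintype.piFinset_univ]
  rw [h2, Finset.prod_const, Finset.card_univ, Fintype.card_fin]
  exact pow_le_pow_left₀ (Finset.sum_nonneg fun z _ => pow_nonneg hr0 _)
    (sum_one r hr0 hr1) D

theorem cast_le {l : ℕ} [NeZero l] (z : ℤ) : ((z : ZMod l)).valMinAbs.natAbs ≤ z.natAbs := by
  refine ZMod.natAbs_min_of_le_div_two l _ _ ?_ (ZMod.natAbs_valMinAbs_le _)
  rw [ZMod.coe_valMinAbs]

theorem cast_eq {l : ℕ} [NeZero l] (z : ℤ) (h : 2 * z.natAbs < l) :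
    ((z : ZMod l)).valMinAbs = z := by
  rw [ZMod.valMinAbs_spec]
  refine ⟨rfl, ?_⟩
  rw [Set.mem_Ioc]
  omega

theorem nrm_add {l : ℕ} [NeZero l] (x y : Fin D → ZMod l) : nrm (x + y) ≤ nrm x + nrm y := by
  refine Finset.sup_le fun k _ => ?_
  have h1 := ZMod.natAbs_valMinAbs_add_le (x k) (y k)
  have h2 := Int.natAbs_add_le (x k).valMinAbs (y k).valMinAbs
  have h3 := nrm_ge x k
  have h4 := nrm_ge y k
  rw [Pi.add_apply]
  omega

theorem nrm_cast {l : ℕ} [NeZero l] (z : Fin D → ℤ) (m : ℕ) (h : ∀ k, (z k).natAbs ≤ m) :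
    nrm (fun k => (z k : ZMod l)) ≤ m :=
  Finset.sup_le fun k _ => (cast_le (z k)).trans (h k)

/-- the base points of the links of a plaquette -/
theorem inPl_base {l : ℕ} [NeZero l] {p : Pl D l} {e : Ed D l} (h : inPl p e) :
    ∃ s : Fin D → ℤ, e.1 = p.1.1 + (fun k => (s k : ZMod l)) ∧
      (s = 0 ∨ s = Pi.single p.1.2.1 1 ∨ s = Pi.single p.1.2.2 1) := by
  have hs : ∀ i : Fin D, (eT i : Fin D → ZMod l) =
      fun k => (((Pi.single i 1 : Fin D → ℤ) k : ℤ) : ZMod l) := by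
    intro i
    funext k
    by_cases hk : k = i
    · subst hk
      simp [eT]
    · simp [eT, hk]
  rcases h with h | h | h | h
  · refine ⟨0, ?_, Or.inl rfl⟩
    rw [h]
    funext k
    simp
  · refine ⟨Pi.single p.1.2.1 1, ?_, Or.inr (Or.inl rfl)⟩
    rw [h, ← hs]
  · refine ⟨Pi.single p.1.2.2 1, ?_, Or.inr (Or.inr rfl)⟩
    rw [h, ← hs]
  · refine ⟨0, ?_, Or.inl rfl⟩
    rw [h]
    funext k
    simp

theorem inPl_diff {l : ℕ} [NeZero l] {p : Pl D l} {e e' : Ed D l} (h : inPl p e)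
    (h' : inPl p e') : nrm (e.1 - e'.1) ≤ 1 := by
  obtain ⟨s, hs, hs'⟩ := inPl_base h
  obtain ⟨t, ht, ht'⟩ := inPl_base h'
  have h1 : e.1 - e'.1 = fun k => (((s k - t k : ℤ)) : ZMod l) := by
    rw [hs, ht]
    funext k
    simp
  rw [h1]
  refine nrm_cast _ 1 fun k => ?_
  have hv : ∀ (u : Fin D → ℤ), (u = 0 ∨ u = Pi.single p.1.2.1 1 ∨ u = Pi.single p.1.2.2 1) →
      u k = 0 ∨ u k = 1 := by
    rintro u (hu | hu | hu) <;> subst hu
    · left; rfl
    · by_cases hk : k = p.1.2.1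
      · right
        rw [hk, Pi.single_eq_same]
      · left
        rw [Pi.single_eq_of_ne hk]
    · by_cases hk : k = p.1.2.2
      · right
        rw [hk, Pi.single_eq_same]
      · left
        rw [Pi.single_eq_of_ne hk]
  rcases hv s hs' with h2 | h2 <;> rcases hv t ht' with h3 | h3 <;> rw [h2, h3] <;> norm_num

end LatB

/-- the sum of the weights far from the origin, uniformly in `l` -/
theorem sum_far (a : ℝ) (ha : 0 < a) : ∃ C : ℝ, 0 ≤ C ∧ ∀ (l R : ℕ) [NeZero l],
    ∑ e ∈ (Finset.univ.filter fun e : Ed D l => R ≤ nrm e.1),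
      Real.exp (-(a * (nrm e.1 : ℝ))) ^ 2 ≤ C * Real.exp (-(a * R)) := by
  classical
  rcases Nat.eq_zero_or_pos D with hD | hD
  · subst hD
    refine ⟨0, le_rfl, fun l R _ => ?_⟩
    have : (Finset.univ.filter fun e : Ed 0 l => R ≤ nrm e.1) = ∅ := by
      ext e
      exact e.2.elim0
    rw [this, Finset.sum_empty, zero_mul]
  · have hD' : (0 : ℝ) < D := by exact_mod_cast hD
    have hr1 : Real.exp (-(a / D)) < 1 := by
      rw [Real.exp_lt_one_iff]
      have : 0 < a / D := by positivity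
      linarith
    have hC : (0 : ℝ) ≤ 2 * (1 - Real.exp (-(a / D)))⁻¹ := by
      have : 0 < 1 - Real.exp (-(a / D)) := by linarith
      positivity
    refine ⟨D * (2 * (1 - Real.exp (-(a / D)))⁻¹) ^ D, by positivity, fun l R _ => ?_⟩
    have h1 : ∀ e ∈ (Finset.univ.filter fun e : Ed D l => R ≤ nrm e.1),
        Real.exp (-(a * (nrm e.1 : ℝ))) ^ 2 ≤
          Real.exp (-(a * (nrm e.1 : ℝ))) * Real.exp (-(a * R)) := by
      intro e he
      rw [Finset.mem_filter] at he
      have h2 : (R : ℝ) ≤ nrm e.1 := by exact_mod_cast he.2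
      rw [pow_two]
      refine mul_le_mul_of_nonneg_left ?_ (Real.exp_pos _).le
      rw [Real.exp_le_exp]
      have := mul_le_mul_of_nonneg_left h2 ha.le
      linarith
    refine (Finset.sum_le_sum h1).trans ?_
    rw [← Finset.sum_mul]
    refine mul_le_mul_of_nonneg_right ?_ (Real.exp_pos _).le
    have h3 : ∑ e ∈ (Finset.univ.filter fun e : Ed D l => R ≤ nrm e.1),
        Real.exp (-(a * (nrm e.1 : ℝ))) ≤ ∑ e : Ed D l, Real.exp (-(a * (nrm e.1 : ℝ))) :=
      Finset.sum_le_sum_of_subset_of_nonneg (Finset.filter_subset _ _)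
        (fun e _ _ => (Real.exp_pos _).le)
    refine h3.trans ?_
    have h4 : ∑ e : Ed D l, Real.exp (-(a * (nrm e.1 : ℝ))) =
        D * ∑ x : Fin D → ZMod l, Real.exp (-(a * (nrm x : ℝ))) := by
      rw [Fintype.sum_prod_type, Finset.mul_sum]
      refine Finset.sum_congr rfl fun x _ => ?_
      simp
    rw [h4]
    exact mul_le_mul_of_nonneg_left (LatB.sum_all hD a ha) (by positivity)

/-- distance from a finite set of links -/
theorem exists_dist (Λ Λ' : Finset (LinkZ D)) (R : ℕ)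
    (h : ∀ e ∈ Λ, ∀ e' ∈ Λ', R ≤ dis e e') : ∃ l₀ : ℕ, ∀ (l : ℕ) [NeZero l], l₀ ≤ l →
    ∃ d : Ed D l → ℕ, (∀ e ∈ Λ, d (prj l e) = 0) ∧ (∀ e ∈ Λ', R ≤ d (prj l e)) ∧
      ∀ p e e', inPl p e → inPl p e' → d e ≤ d e' + 1 := by
  classical
  rcases Λ.eq_empty_or_nonempty with hΛ | hΛ
  · subst hΛ
    refine ⟨0, fun l _ _ => ⟨fun _ => R, ?_, fun _ _ => le_rfl,
      fun _ _ _ _ _ => Nat.le_succ R⟩⟩
    intro e he
    simp at he
  · -- bound of the coordinates
    obtain ⟨m, hm⟩ : ∃ m : ℕ, ∀ e ∈ Λ ∪ Λ', ∀ k, (e.1 k).natAbs ≤ m := by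
      refine ⟨(Λ ∪ Λ').sup fun e => Finset.univ.sup fun k => (e.1 k).natAbs, fun e he k => ?_⟩
      exact (Finset.le_sup (f := fun k => (e.1 k).natAbs) (Finset.mem_univ k)).trans
        (Finset.le_sup (f := fun e : LinkZ D => Finset.univ.sup fun k => (e.1 k).natAbs) he)
    refine ⟨4 * m + 1, fun l _ hl => ?_⟩
    refine ⟨fun e => Λ.inf' hΛ fun e' => nrm (e.1 - (prj l e').1), ?_, ?_, ?_⟩
    · intro e he
      refine Nat.le_zero.1 ((Finset.inf'_le _ he).trans ?_)
      have : ((prj l e).1 - (prj l e).1 : Fin D → ZMod l) = fun k => (((0 : ℤ)) : ZMod l) := by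
        funext k
        simp
      rw [this]
      exact LatB.nrm_cast (fun _ => 0) 0 (fun k => by simp)
    · intro e he
      refine Finset.le_inf' _ _ fun e' he' => ?_
      rcases Nat.eq_zero_or_pos R with hR | hR
      · omega
      have h1 := h e' he' e he
      unfold dis at h1
      obtain ⟨k, -, hk⟩ := (Finset.le_sup_iff (by exact hR)).1 h1
      refine le_trans ?_ (LatB.nrm_ge _ k)
      have h2 : ((prj l e).1 - (prj l e').1) k = (((e.1 k - e'.1 k : ℤ)) : ZMod l) := by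
        simp [prj]
      have h3 := hm e (Finset.mem_union_right _ he) k
      have h4 := hm e' (Finset.mem_union_left _ he') k
      rw [h2, LatB.cast_eq _ (by omega)]
      omega
    · intro p e e' hp hp'
      obtain ⟨f, hf, hf'⟩ := Finset.exists_mem_eq_inf' hΛ (fun f => nrm (e'.1 - (prj l f).1))
      simp only []
      rw [hf']
      refine (Finset.inf'_le _ hf).trans ?_
      have h1 : e.1 - (prj l f).1 = (e'.1 - (prj l f).1) + (e.1 - e'.1) := by
        abel
      rw [h1]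
      have h2 := LatB.nrm_add (e'.1 - (prj l f).1) (e.1 - e'.1)
      have h3 := LatB.inPl_diff hp hp'
      omega

end

end Pool.Agent.YMI
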