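import Mathlib
import Pool.Agent.YMI.LatA
import Pool.Agent.YMI.LatB

/-!
# Distances, balls, embeddings for the periodic lattices

The definitions are in `LatD`, the proofs in `LatA` and `LatB`.
-/
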