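import Mathlib
import Pool.Agent.W504.YM.Fin

/-!
# Logarithms of positive smooth functions, gradients of mollified functions
-/

open MeasureTheory Matrix
open scoped Matrix.Norms.Frobenius ContDiff
open Pool.Agent.H906R3.YM Pool.Agent.W504.YM

namespace Pool.Agent.YMI

set_option linter.unusedSectionVars false

noncomputable section

variable {G : Type*} [Group G] [TopologicalSpace G] {N n : ℕ} {L : LD G N n}
variable {E : Type*} [Fintype E] [DecidableEq E]
variable [IsTopologicalGroup G] [CompactSpace G] [SecondCountableTopology G]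
  [MeasurableSpace G] [BorelSpace G] (μ : Measure G) [IsProbabilityMeasure μ]
  [μ.IsMulLeftInvariant] [μ.IsOpenPosMeasure]

/-- A positive function has a logarithm. -/
theorem Sm_log (f : Sm L E) (h : ∀ x, 0 < L.ev x f) :
    ∃ ℓ : Sm L E, (∀ x, L.ev x ℓ = Real.log (L.ev x f)) ∧
      ∀ p, f * p = 1 → ∀ j, L.Dv j ℓ = p * L.Dv j f := by
  obtain ⟨x0, -, hx0⟩ := isCompact_univ.exists_isMinOn (s := (Set.univ : Set (E → G)))
    ⟨1, trivial⟩ (Sm_cont f).continuousOn
  obtain ⟨c, hc⟩ : ∃ c, c = f.1 x0 := ⟨_, rfl⟩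
  have hc0 : 0 < c := by rw [hc]; exact h x0
  have hmin : ∀ U, c ≤ f.1 U := fun U => by rw [hc]; exact hx0 (Set.mem_univ U)
  have hmem : (fun U => Real.log (f.1 U)) ∈ Sm L E := by
    obtain ⟨F, Ft, hFt, hF⟩ := f
    refine ⟨fun M => Real.log (cutf c (Ft M)), ?_, fun U => ?_⟩
    · exact ((cutf_contDiff c).comp hFt).log fun M => (cutf_pos hc0 _).ne'
    · dsimp only
      rw [← hF, cutf_eq hc0 (hmin U)]
  refine ⟨⟨_, hmem⟩, fun x => rfl, fun p hp j => ?_⟩
  refine ev_ext fun U => ?_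
  have hpU : f.1 U * p.1 U = 1 := by
    have h1 := congrArg (L.ev U) hp
    rw [map_mul, map_one] at h1
    exact h1
  have hfU : f.1 U ≠ 0 := (h U).ne'
  have d1 := hasDerivAt_dF f.2 j.1 j.2 U 0
  have d2 := hasDerivAt_dF hmem j.1 j.2 U 0
  have d3 := d1.log (by rw [L.shift_zero]; exact hfU)
  have h2 := d2.unique d3
  rw [L.shift_zero] at h2
  rw [map_mul]
  show (L.Dv j ⟨_, hmem⟩).1 U = p.1 U * (L.Dv j f).1 U
  have h3 : (L.Dv j ⟨_, hmem⟩).1 U = (L.Dv j f).1 U / f.1 U := h2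
  rw [h3, div_eq_iff hfU]
  calc (L.Dv j f).1 U = (L.Dv j f).1 U * (f.1 U * p.1 U) := by rw [hpU, mul_one]
    _ = p.1 U * (L.Dv j f).1 U * f.1 U := by ring

/-- Mollifiers do not increase bounds for the gradient. -/
theorem G_moll (M : Moll L E μ) (v : E × Fin n → ℝ) (hv : ∀ j, 0 ≤ v j) (F : Sm L E) {C : ℝ}
    (h : ∀ U, ∑ j, v j * L.ev U (L.Dv j F) ^ 2 ≤ C) :
    ∀ U, ∑ j, v j * L.ev U (L.Dv j (M.M F)) ^ 2 ≤ C := by
  intro U
  have hev : ∀ u : Sm L E, L.ev U (M.M u) = L.I μ (M.ker U * u) := fun u => M.eq U u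
  have h1 : L.I μ (M.ker U) = 1 := by
    have := hev 1
    rw [M.one, map_one, mul_one] at this
    exact this.symm
  have jens : ∀ u : Sm L E, L.ev U (M.M u) ^ 2 ≤ L.I μ (M.ker U * (u * u)) := by
    intro u
    rw [hev]
    obtain ⟨m, hm⟩ : ∃ m, m = L.I μ (M.ker U * u) := ⟨_, rfl⟩
    have h0 : L.I μ (0 : Sm L E) ≤ L.I μ (M.ker U * ((u - m • 1) * (u - m • 1))) := by
      refine I_mono μ fun W => ?_
      rw [map_zero, map_mul, map_mul]
      exact mul_nonneg (M.pos U W) (mul_self_nonneg _)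
    have e : M.ker U * ((u - m • 1) * (u - m • 1)) =
        M.ker U * (u * u) - (2 * m) • (M.ker U * u) + (m ^ 2) • M.ker U := by
      simp only [Algebra.smul_def, map_mul, map_pow, map_ofNat]; ring
    rw [e, map_zero, map_add, map_sub, map_smul, map_smul, ← hm, h1, smul_eq_mul,
      smul_eq_mul] at h0
    rw [← hm]
    nlinarith
  have hsum : ∑ j, v j * L.ev U (L.Dv j (M.M F)) ^ 2 ≤
      L.I μ (M.ker U * ∑ j, v j • (L.Dv j F * L.Dv j F)) := by
    rw [Finset.mul_sum, map_sum]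
    refine Finset.sum_le_sum fun j _ => ?_
    rw [M.comm, mul_smul_comm, map_smul, smul_eq_mul]
    exact mul_le_mul_of_nonneg_left (jens _) (hv j)
  refine hsum.trans ?_
  have hle : L.I μ (M.ker U * ∑ j, v j • (L.Dv j F * L.Dv j F)) ≤ L.I μ (C • M.ker U) := by
    refine I_mono μ fun W => ?_
    rw [map_mul, map_smul, map_sum, smul_eq_mul, mul_comm C]
    refine mul_le_mul_of_nonneg_left ?_ (M.pos U W)
    refine le_trans (le_of_eq ?_) (h W)
    refine Finset.sum_congr rfl fun j _ => ?_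
    rw [map_smul, map_mul, smul_eq_mul, sq]
  refine hle.trans (le_of_eq ?_)
  rw [map_smul, h1, smul_eq_mul, mul_one]

end

end Pool.Agent.YMI
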