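import Mathlib
import Pool.Agent.W504.YM.Fin
import Pool.Agent.YMI.Defs2

/-!
# The definitions in terms of the algebra of smooth functions
-/

open MeasureTheory Matrix
open scoped ContDiff Matrix.Norms.Frobenius

namespace Pool.Agent.YMI

set_option linter.unusedSectionVars false

noncomputable section

open Pool.Agent.H906R3

variable {N n D l : ℕ} {G : Subgroup (UU N)}

/-- The same data in the form used by the helper files. -/
def fm (B : LieBasis G n) : YM.Frame G n where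
  X := B.X
  ex := B.ex
  ex_eq := B.ex_eq
  orth := B.orth
  full := B.full

/-- The abstract data. -/
def ld (B : LieBasis G n) : YM.LD G N n := (fm B).toLD

lemma shift_eq (B : LieBasis G n) (e : Link D l) (a : Fin n) (t : ℝ) (U : Link D l → G) :
    (ld B).shift e a t U = Function.update U e (B.ex a t * U e) := by
  funext e'
  unfold YM.LD.shift
  by_cases h : e' = e
  · subst h
    rw [Pi.mul_apply, Pi.mulSingle_eq_same, Function.update_self]
    rfl
  · rw [Pi.mul_apply, Pi.mulSingle_eq_of_ne h, one_mul, Function.update_of_ne h]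

lemma dlink_eq [NeZero l] (B : LieBasis G n) (e : Link D l) (a : Fin n)
    (F : YM.Sm (ld B) (Link D l)) (U : Link D l → G) :
    dlink B e a F.1 U = ((ld B).Dv (e, a) F).1 U := by
  rw [YM.Dv_apply]
  unfold dlink YM.LD.dF
  simp only [shift_eq]

lemma magnetic_eq [NeZero l] (B : LieBasis G n) (U : Link D l → G) :
    magnetic U = (YM.VT (ld B) D l).1 U := by
  have h1 := YM.VT_apply (L := ld B) U
  have h2 : (YM.VT (ld B) D l).1 U = (ld B).ev U (YM.VT (ld B) D l) := rfl
  rw [h2, h1]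
  have h3 : ∑ p : YM.Pl D l, YM.we (ld B) (YM.plqT U p.1.1 p.1.2.1 p.1.2.2) =
      ∑ p ∈ (Finset.univ.filter fun p : (Fin D → ZMod l) × Fin D × Fin D => p.2.1 < p.2.2),
        YM.we (ld B) (YM.plqT U p.1 p.2.1 p.2.2) := by
    rw [Finset.sum_subtype (p := fun p : (Fin D → ZMod l) × Fin D × Fin D => p.2.1 < p.2.2)]
    intro p; simp
  rw [h3, Finset.sum_filter, Fintype.sum_prod_type]
  unfold magnetic
  refine Finset.sum_congr rfl fun x _ => ?_
  rw [Fintype.sum_prod_type]
  rfl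

lemma inv_iff [NeZero l] (B : LieBasis G n) (u : YM.Sm (ld B) (Link D l)) :
    YM.Inv u ↔ GaugeInv u.1 := by
  constructor
  · intro h γ U
    exact congrArg (fun v : YM.Sm (ld B) (Link D l) => v.1 U) (h γ)
  · intro h γ
    exact YM.ev_ext fun U => h γ U

/-- A Haar probability measure is invariant under right multiplications. -/
lemma right_inv {H : Type*} [Group H] [TopologicalSpace H] [IsTopologicalGroup H]
    [CompactSpace H] [MeasurableSpace H] [BorelSpace H] (μ : Measure H)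
    [IsProbabilityMeasure μ] [μ.IsHaarMeasure] : μ.IsMulRightInvariant := by
  refine ⟨fun g => ?_⟩
  have h1 : IsProbabilityMeasure (Measure.map (fun x => x * g) μ) :=
    Measure.isProbabilityMeasure_map (measurable_mul_const g).aemeasurable
  exact Measure.isHaarMeasure_eq_of_isProbabilityMeasure _ _

lemma enr_smul {A : Type*} [CommRing A] [Algebra ℝ A] {P J : Type*} [Fintype J]
    {S : YM.Fn A P J} (g : ℝ) (V : A) (E0 c : ℝ) (u : A) :
    S.enr g V E0 (c • u) (c • u) = c ^ 2 * S.enr g V E0 u u := by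
  unfold YM.Fn.enr
  rw [YM.HH_smul, smul_comm E0 c, ← smul_sub, smul_mul_assoc, mul_smul_comm, map_smul, map_smul,
    smul_eq_mul, smul_eq_mul]
  ring

section bridge

variable [CompactSpace G] [SecondCountableTopology G] [NeZero l]
  [MeasurableSpace G] [BorelSpace G] (μ : Measure G) [IsProbabilityMeasure μ] [μ.IsHaarMeasure]
  (B : LieBasis G n) (g : ℝ)

lemma energy_eq (F : YM.Sm (ld B) (Link D l)) : energy B μ g F.1 =
    g ^ 2 / 2 * (ld B).I μ (YM.Gam (ld B).Dv F F) +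
      1 / g ^ 2 * (ld B).I μ (YM.VT (ld B) D l * (F * F)) := by
  unfold energy
  congr 1
  · congr 1
    unfold YM.Gam
    rw [map_sum]
    refine Eq.trans ?_ (Fintype.sum_prod_type fun j : Link D l × Fin n =>
      (ld B).I μ ((ld B).Dv j F * (ld B).Dv j F)).symm
    refine Finset.sum_congr rfl fun e _ => Finset.sum_congr rfl fun a _ => ?_
    rw [YM.I_apply]
    refine integral_congr_ae (Filter.Eventually.of_forall fun U => ?_)
    show (dlink B e a F.1 U) ^ 2 = ((ld B).Dv (e, a) F).1 U * ((ld B).Dv (e, a) F).1 U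
    rw [dlink_eq, sq]
  · congr 1
    rw [YM.I_apply]
    refine integral_congr_ae (Filter.Eventually.of_forall fun U => ?_)
    show magnetic U * F.1 U ^ 2 = (YM.VT (ld B) D l).1 U * (F.1 U * F.1 U)
    rw [magnetic_eq B, sq]

lemma norm_eq (F : YM.Sm (ld B) (Link D l)) :
    ∫ U, F.1 U ^ 2 ∂(Measure.pi fun _ : Link D l => μ) = (ld B).I μ (F * F) := by
  rw [YM.I_apply]
  refine integral_congr_ae (Filter.Eventually.of_forall fun U => ?_)
  show F.1 U ^ 2 = F.1 U * F.1 U
  rw [sq]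

lemma enr_eq' (E0 : ℝ) (F : YM.Sm (ld B) (Link D l)) :
    (YM.fnE (ld B) μ (Link D l)).enr g (YM.VT (ld B) D l) E0 F F =
      energy B μ g F.1 - E0 * (ld B).I μ (F * F) := by
  rw [energy_eq]
  exact (YM.fnE (ld B) μ (Link D l)).enr_eq g (YM.VT (ld B) D l) E0 F F

lemma energy_nonneg (F : YM.Sm (ld B) (Link D l)) : 0 ≤ energy B μ g F.1 := by
  have h1 : (YM.fnE (ld B) μ (Link D l)).enr g (YM.VT (ld B) D l) 0 F F =
    energy B μ g F.1 := by rw [enr_eq', zero_mul, sub_zero]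
  rw [energy_eq]
  have h2 : 0 ≤ (ld B).I μ (YM.Gam (ld B).Dv F F) := by
    unfold YM.Gam
    rw [map_sum]
    exact Finset.sum_nonneg fun j _ => YM.I_sq_nonneg μ _
  have h3 : 0 ≤ (ld B).I μ (YM.VT (ld B) D l * (F * F)) := YM.I_nonneg μ fun U => by
    rw [map_mul, map_mul, YM.VT_apply]
    exact mul_nonneg (Finset.sum_nonneg fun _ _ => YM.we_nonneg _) (mul_self_nonneg _)
  positivity

lemma energy_nonneg' {F : (Link D l → G) → ℝ} (hF : IsSmooth F) : 0 ≤ energy B μ g F :=
  energy_nonneg μ B g ⟨F, hF⟩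

lemma ground_bdd : BddBelow {E : ℝ | ∃ Ψ : (Link D l → G) → ℝ, IsState μ Ψ ∧
    energy B μ g Ψ = E} := by
  refine ⟨0, ?_⟩
  rintro E ⟨Ψ, hΨ, rfl⟩
  exact energy_nonneg' μ B g hΨ.smooth

lemma ground_nonempty : {E : ℝ | ∃ Ψ : (Link D l → G) → ℝ, IsState μ Ψ ∧
    energy B μ g Ψ = E}.Nonempty := by
  refine ⟨_, fun _ => 1, ⟨⟨fun _ => 1, contDiff_const, fun _ => rfl⟩, fun _ _ => rfl, ?_⟩, rfl⟩
  simp

lemma ground_nonneg : 0 ≤ groundEnergy D l B μ g := by
  refine Real.sInf_nonneg ?_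
  rintro E ⟨Ψ, hΨ, rfl⟩
  exact energy_nonneg' μ B g hΨ.smooth

lemma state_of (u : YM.Sm (ld B) (Link D l)) (hu : YM.Inv u) (h1 : (ld B).I μ (u * u) = 1) :
    IsState μ u.1 :=
  ⟨u.2, (inv_iff B u).1 hu, by rw [norm_eq]; exact h1⟩

lemma ground_pos (u : YM.Sm (ld B) (Link D l)) (hu : YM.Inv u) :
    0 ≤ (YM.fnE (ld B) μ (Link D l)).enr g (YM.VT (ld B) D l) (groundEnergy D l B μ g) u u := by
  obtain ⟨Z, hZ⟩ : ∃ Z : ℝ, Z = (ld B).I μ (u * u) := ⟨_, rfl⟩
  have hZ0 : 0 ≤ Z := by rw [hZ]; exact YM.I_sq_nonneg μ _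
  rcases hZ0.eq_or_lt with h0 | h0
  · rw [enr_eq', ← hZ, ← h0, mul_zero, sub_zero]
    exact energy_nonneg μ B g u
  · obtain ⟨c, hc⟩ : ∃ c : ℝ, c = (Real.sqrt Z)⁻¹ := ⟨_, rfl⟩
    have hc2 : c ^ 2 * Z = 1 := by
      rw [hc, inv_pow, Real.sq_sqrt h0.le, inv_mul_cancel₀ h0.ne']
    have hn1 : (ld B).I μ (c • u * (c • u)) = 1 := by
      rw [smul_mul_assoc, mul_smul_comm, map_smul, map_smul, smul_eq_mul, smul_eq_mul, ← hZ,
        ← hc2]
      ring
    have h1 : groundEnergy D l B μ g ≤ energy B μ g (c • u).1 :=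
      csInf_le (ground_bdd μ B g) ⟨_, state_of μ B (c • u) (hu.smul c) hn1, rfl⟩
    have h2 := enr_eq' μ B g (groundEnergy D l B μ g) (c • u)
    rw [hn1, mul_one] at h2
    have h3 : 0 ≤ (YM.fnE (ld B) μ (Link D l)).enr g (YM.VT (ld B) D l)
        (groundEnergy D l B μ g) (c • u) (c • u) := by rw [h2]; linarith
    rw [enr_smul] at h3
    have hc0 : 0 < c ^ 2 := by
      rcases (sq_nonneg c).eq_or_lt with h | h
      · rw [← h, zero_mul] at hc2; exact absurd hc2 zero_ne_one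
      · exact h
    exact (mul_nonneg_iff_of_pos_left hc0).1 h3

end bridge

end

end Pool.Agent.YMI
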