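import Mathlib
import Pool.Agent.YMI.Defs2

open MeasureTheory Matrix
open scoped ContDiff Matrix.Norms.Frobenius

namespace Pool.Agent.YMI

set_option linter.unusedSectionVars false

noncomputable section

variable {N n D : ℕ} {G : Subgroup (UU N)}

/-- the link of the periodic lattice under a link of `ℤ^D` -/
def cst (l : ℕ) (e : LinkZ D) : Link D l := (fun k => (e.1 k : ZMod l), e.2)

lemma per_apply {l : ℕ} (U : Link D l → G) (e : LinkZ D) : per U e = U (cst l e) := rfl

lemma mt_cont : Continuous (mt : G → Mt N) :=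
  continuous_subtype_val.comp continuous_subtype_val

lemma mt_mul (x y : G) : mt (x * y) = mt x * mt y := rfl

lemma cst_inj {m l : ℕ} (hl : 2 * m < l) {e e' : LinkZ D} (h : ∀ k, |e.1 k| ≤ m)
    (h' : ∀ k, |e'.1 k| ≤ m) (he : cst l e = cst l e') : e = e' := by
  have h1 := congrArg Prod.fst he
  have h2 := congrArg Prod.snd he
  refine Prod.ext (funext fun k => ?_) h2
  have h3 : ((e.1 k : ℤ) : ZMod l) = ((e'.1 k : ℤ) : ZMod l) := congrFun h1 k
  rw [ZMod.intCast_eq_intCast_iff_dvd_sub] at h3
  have h4 : |e'.1 k - e.1 k| < l := by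
    have a1 := abs_le.1 (h k)
    have a2 := abs_le.1 (h' k)
    have a3 : (2 * m : ℤ) < l := by exact_mod_cast hl
    rw [abs_lt]
    constructor <;> linarith [a1.1, a1.2, a2.1, a2.2]
  have h5 := Int.eq_zero_of_abs_lt_dvd h3 h4
  omega

/-- A local function is smooth as a function of the variables of the periodic lattice. -/
theorem per_smooth {Λ : Finset (LinkZ D)} {F : (LinkZ D → G) → ℝ} (hF : IsLocal Λ F) (l : ℕ)
    [NeZero l] : IsSmooth fun U : Link D l → G => F (per U) := by
  obtain ⟨f, hf, h⟩ := hF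
  refine ⟨fun V => f (fun e : Λ => V (cst l e.1)), ?_, fun U => ?_⟩
  · exact hf.comp (contDiff_pi.2 fun e => contDiff_apply ℝ (Mt N) (cst l e.1))
  · exact h _

/-- A local function is continuous. -/
theorem local_cont {Λ : Finset (LinkZ D)} {F : (LinkZ D → G) → ℝ} (hF : IsLocal Λ F) :
    Continuous F := by
  obtain ⟨f, hf, h⟩ := hF
  have h1 : F = f ∘ fun (U : LinkZ D → G) (e : Λ) => mt (U e) := funext h
  rw [h1]
  exact hf.continuous.comp (continuous_pi fun e => mt_cont.comp (continuous_apply e.1))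

theorem smooth_cont {l : ℕ} [NeZero l] {F : (Link D l → G) → ℝ} (hF : IsSmooth F) :
    Continuous F := by
  obtain ⟨f, hf, h⟩ := hF
  have h1 : F = f ∘ fun (U : Link D l → G) (e : Link D l) => mt (U e) := funext h
  rw [h1]
  exact hf.continuous.comp (continuous_pi fun e => mt_cont.comp (continuous_apply e))

theorem per_cont {l : ℕ} : Continuous (per : (Link D l → G) → LinkZ D → G) :=
  continuous_pi fun e => continuous_apply (cst l e)

/-- a local function depends only on the links of `Λ` -/
lemma local_congr {Λ : Finset (LinkZ D)} {F : (LinkZ D → G) → ℝ} (hF : IsLocal Λ F)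
    {U V : LinkZ D → G} (h : ∀ e ∈ Λ, U e = V e) : F U = F V := by
  obtain ⟨f, _, hf⟩ := hF
  rw [hf, hf]
  congr 1
  funext e
  rw [h e.1 e.2]

lemma dlink_out (B : LieBasis G n) {Λ : Finset (LinkZ D)} {F : (LinkZ D → G) → ℝ}
    (hF : IsLocal Λ F) {l : ℕ} [NeZero l] (U : Link D l → G) (e : Link D l)
    (he : ∀ e' ∈ Λ, cst l e' ≠ e) (a : Fin n) :
    dlink B e a (fun U : Link D l → G => F (per U)) U = 0 := by
  unfold dlink
  have h1 : (fun t : ℝ => F (per (Function.update U e (B.ex a t * U e)))) = fun _ => F (per U) := by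
    funext t
    refine local_congr hF fun e' he' => ?_
    rw [per_apply, per_apply, Function.update_of_ne (he e' he')]
  rw [h1]
  exact deriv_const _ _

lemma dlink_in (B : LieBasis G n) {m : ℕ} {Λ : Finset (LinkZ D)}
    (hΛ : ∀ e ∈ Λ, ∀ k, |e.1 k| ≤ m) {F : (LinkZ D → G) → ℝ} (hF : IsLocal Λ F) {l : ℕ} [NeZero l]
    (hl : 2 * m < l) (U : Link D l → G) (e : LinkZ D) (he : e ∈ Λ) (a : Fin n) :
    dlink B (cst l e) a (fun U : Link D l → G => F (per U)) U = dlink B e a F (per U) := by
  unfold dlink
  congr 1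
  funext t
  refine local_congr hF fun e' he' => ?_
  rw [per_apply]
  by_cases h : e' = e
  · subst h
    rw [Function.update_self, Function.update_self, per_apply]
  · have h2 : cst l e' ≠ cst l e := fun h3 => h (cst_inj hl (hΛ e' he') (hΛ e he) h3)
    rw [Function.update_of_ne h, Function.update_of_ne h2, per_apply]

/-- The gradient of a local function of the periodic configuration. -/
theorem per_grad (B : LieBasis G n) {m : ℕ} {Λ : Finset (LinkZ D)}
    (hΛ : ∀ e ∈ Λ, ∀ k, |e.1 k| ≤ m) {F : (LinkZ D → G) → ℝ} (hF : IsLocal Λ F) {l : ℕ} [NeZero l]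
    (hl : 2 * m < l) (U : Link D l → G) :
    ∑ e, ∑ a, dlink B e a (fun U : Link D l → G => F (per U)) U ^ 2 = gradSq B Λ F (per U) := by
  classical
  have h1 : ∑ e, ∑ a, dlink B e a (fun U : Link D l → G => F (per U)) U ^ 2 =
      ∑ e ∈ Λ.image (cst l), ∑ a, dlink B e a (fun U : Link D l → G => F (per U)) U ^ 2 := by
    symm
    refine Finset.sum_subset (Finset.subset_univ _) fun e _ he => ?_
    refine Finset.sum_eq_zero fun a _ => ?_
    rw [dlink_out B hF U e (fun e' he' h => he (Finset.mem_image.2 ⟨e', he', h⟩)) a]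
    simp
  rw [h1, Finset.sum_image fun e he e' he' h => cst_inj hl (hΛ e he) (hΛ e' he') h]
  unfold gradSq
  refine Finset.sum_congr rfl fun e he => Finset.sum_congr rfl fun a _ => ?_
  rw [dlink_in B hΛ hF hl U e he a]

lemma ex_zero (B : LieBasis G n) (a : Fin n) : mt (B.ex a 0) = 1 := by
  rw [B.ex_eq, zero_smul, NormedSpace.exp_zero]

lemma deriv_ex (B : LieBasis G n) (a : Fin n) :
    HasDerivAt (fun t => mt (B.ex a t)) (B.X a) 0 := by
  have h1 := hasDerivAt_exp_smul_const (𝕂 := ℝ) (B.X a) (0 : ℝ)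
  rw [zero_smul, NormedSpace.exp_zero, one_mul] at h1
  have h2 : (fun t => mt (B.ex a t)) = fun t : ℝ => NormedSpace.exp (t • B.X a) := by
    funext t
    exact B.ex_eq a t
  rw [h2]
  exact h1

lemma dlink_formula (B : LieBasis G n) {Λ : Finset (LinkZ D)} {f : (Λ → Mt N) → ℝ}
    (hf : ContDiff ℝ ∞ f) {F : (LinkZ D → G) → ℝ} (h : ∀ U, F U = f fun e => mt (U e))
    (e : LinkZ D) (he : e ∈ Λ) (a : Fin n) (U : LinkZ D → G) :
    dlink B e a F U = fderiv ℝ f (fun e' : Λ => mt (U e'))
      (Pi.single (⟨e, he⟩ : Λ) (B.X a * mt (U e))) := by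
  unfold dlink
  have h1 : HasDerivAt (fun (t : ℝ) (e' : Λ) => mt (Function.update U e (B.ex a t * U e) e'))
      (Pi.single (⟨e, he⟩ : Λ) (B.X a * mt (U e))) 0 := by
    refine hasDerivAt_pi.2 fun e' => ?_
    by_cases h : e' = ⟨e, he⟩
    · subst h
      rw [Pi.single_eq_same]
      have h2 : (fun t : ℝ => mt (Function.update U e (B.ex a t * U e) e)) =
          fun t : ℝ => mt (B.ex a t) * mt (U e) := by
        funext t
        rw [Function.update_self, mt_mul]
      show HasDerivAt (fun t : ℝ => mt (Function.update U e (B.ex a t * U e) e)) _ 0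
      rw [h2]
      exact (deriv_ex B a).mul_const _
    · rw [Pi.single_eq_of_ne h]
      have h3 : (e' : LinkZ D) ≠ e := fun h4 => h (Subtype.ext h4)
      have h2 : (fun t : ℝ => mt (Function.update U e (B.ex a t * U e) e')) =
          fun _ : ℝ => mt (U e') := by
        funext t
        rw [Function.update_of_ne h3]
      rw [h2]
      exact hasDerivAt_const _ _
  have h0 : (fun e' : Λ => mt (Function.update U e (B.ex a 0 * U e) e')) =
      fun e' : Λ => mt (U e') := by
    funext e'
    by_cases h : (e' : LinkZ D) = e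
    · rw [h, Function.update_self, mt_mul, ex_zero, one_mul]
    · rw [Function.update_of_ne h]
  have h2 : HasFDerivAt f (fderiv ℝ f fun e' : Λ => mt (U e'))
      (fun e' : Λ => mt (Function.update U e (B.ex a 0 * U e) e')) := by
    rw [h0]
    exact (hf.differentiable (by simp)).differentiableAt.hasFDerivAt
  have h3 := h2.comp_hasDerivAt (0 : ℝ) h1
  have h4 : (fun t : ℝ => F (Function.update U e (B.ex a t * U e))) =
      f ∘ fun (t : ℝ) (e' : Λ) => mt (Function.update U e (B.ex a t * U e) e') := by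
    funext t
    exact h _
  rw [h4]
  exact h3.deriv

/-- the square of the gradient of a local function is continuous and bounded -/
theorem gradSq_cont (B : LieBasis G n) {Λ : Finset (LinkZ D)} {F : (LinkZ D → G) → ℝ}
    (hF : IsLocal Λ F) : Continuous (gradSq B Λ F) := by
  obtain ⟨f, hf, h⟩ := hF
  have h1 : gradSq B Λ F = fun U => ∑ e ∈ Λ.attach, ∑ a,
      (fderiv ℝ f (fun e' : Λ => mt (U e')) (Pi.single e (B.X a * mt (U e)))) ^ 2 := by
    funext U
    unfold gradSq
    rw [← Finset.sum_attach]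
    refine Finset.sum_congr rfl fun e _ => Finset.sum_congr rfl fun a _ => ?_
    rw [dlink_formula B hf h e.1 e.2 a U]
  rw [h1]
  refine continuous_finsetSum _ fun e _ => continuous_finsetSum _ fun a _ => Continuous.pow ?_ 2
  have h2 : Continuous fun U : LinkZ D → G => fderiv ℝ f (fun e' : Λ => mt (U e')) :=
    (hf.continuous_fderiv (by simp)).comp
      (continuous_pi fun e' => mt_cont.comp (continuous_apply e'.1))
  refine h2.clm_apply ?_
  have h3 : Continuous fun U : LinkZ D → G => B.X a * mt (U e) :=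
    continuous_const.mul (mt_cont.comp (continuous_apply e.1))
  exact (continuous_single e).comp h3

end

end Pool.Agent.YMI
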