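import Mathlib
import Pool.Agent.YMI.Defs2

open MeasureTheory Matrix
open scoped ContDiff Matrix.Norms.Frobenius

namespace Pool.Agent.YMI

set_option linter.unusedSectionVars false

noncomputable section

variable {N n D : ℕ} {G : Subgroup (UU N)}

section

variable [CompactSpace G] [SecondCountableTopology G] [MeasurableSpace G] [BorelSpace G]
  (μ : Measure G) [IsProbabilityMeasure μ] [μ.IsHaarMeasure] {l : ℕ} [NeZero l]

/-- A Haar probability measure is invariant under right multiplications. -/
lemma e3_right_inv : μ.IsMulRightInvariant := by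
  refine ⟨fun g => ?_⟩
  have h1 : IsProbabilityMeasure (Measure.map (fun x => x * g) μ) :=
    Measure.isProbabilityMeasure_map (measurable_mul_const g).aemeasurable
  exact Measure.isHaarMeasure_eq_of_isProbabilityMeasure _ _

lemma e3_two_sided (a b : G) : MeasurePreserving (fun x : G => a * x * b) μ μ := by
  have := e3_right_inv μ
  exact (measurePreserving_mul_right μ b).comp (measurePreserving_mul_left μ a)

lemma e3_gauge_mp (γ : (Fin D → ZMod l) → G) :
    MeasurePreserving (gauge γ) (Measure.pi fun _ : Link D l => μ)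
      (Measure.pi fun _ : Link D l => μ) :=
  measurePreserving_pi (fun _ : Link D l => μ) (fun _ : Link D l => μ)
    (f := fun e x => γ e.1 * x * (γ (e.1 + unitv e.2))⁻¹)
    fun e => e3_two_sided μ (γ e.1) (γ (e.1 + unitv e.2))⁻¹

lemma e3_gauge_inv (γ : (Fin D → ZMod l) → G) (U : Link D l → G) :
    gauge (fun x => (γ x)⁻¹) (gauge γ U) = U := by
  funext e
  unfold gauge
  group

lemma e3_gauge_inv' (γ : (Fin D → ZMod l) → G) (U : Link D l → G) :
    gauge γ (gauge (fun x => (γ x)⁻¹) U) = U := by
  funext e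
  unfold gauge
  group

/-- the gauge transformation as a measurable equivalence -/
def gaugeME (γ : (Fin D → ZMod l) → G) : (Link D l → G) ≃ᵐ (Link D l → G) where
  toFun := gauge γ
  invFun := gauge fun x => (γ x)⁻¹
  left_inv := e3_gauge_inv γ
  right_inv := e3_gauge_inv' γ
  measurable_toFun := (e3_gauge_mp μ γ).measurable
  measurable_invFun := (e3_gauge_mp μ fun x => (γ x)⁻¹).measurable

/-- Gauge invariant functions give gauge invariant expectations. -/
theorem ex_gauge {Ψ : (Link D l → G) → ℝ} (hΨ : GaugeInv Ψ) {F : (Link D l → G) → ℝ}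
    (hF : Continuous F) (γ : (Fin D → ZMod l) → G) :
    ex μ Ψ (fun U => F (gauge γ U)) = ex μ Ψ F := by
  unfold ex
  have h1 : ∀ U, F (gauge γ U) * Ψ U ^ 2 = (fun V => F V * Ψ V ^ 2) (gauge γ U) := by
    intro U
    show F (gauge γ U) * Ψ U ^ 2 = F (gauge γ U) * Ψ (gauge γ U) ^ 2
    rw [hΨ γ U]
  have h2 := (e3_gauge_mp μ γ).integral_comp (gaugeME μ γ).measurableEmbedding
    (fun V => F V * Ψ V ^ 2)
  rw [← h2]
  exact integral_congr_ae (Filter.Eventually.of_forall h1)

lemma e3_cast (m : ℕ) (hl : 2 * m < l) (z : ℤ) (hz : |z| ≤ m) :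
    ((z : ZMod l)).valMinAbs = z := by
  rw [ZMod.valMinAbs_spec]
  refine ⟨rfl, ?_⟩
  rw [abs_le] at hz
  rw [Set.mem_Ioc]
  constructor <;> omega

/-- Gauge transformations of local functions of periodic configurations. -/
theorem per_gauge {m : ℕ} {Λ : Finset (LinkZ D)}
    (hΛ : ∀ e ∈ Λ, ∀ k, |e.1 k| ≤ m) {F : (LinkZ D → G) → ℝ} (hF : IsLocal Λ F)
    (hl : 2 * m + 2 < l) (γ : (Fin D → ℤ) → G) :
    ∃ γ' : (Fin D → ZMod l) → G, ∀ U : Link D l → G, F (gaugeZ γ (per U)) = F (per (gauge γ' U)) := by
  refine ⟨fun x => γ fun k => (x k).valMinAbs, fun U => ?_⟩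
  obtain ⟨f, _, hf⟩ := hF
  rw [hf, hf]
  congr 1
  funext e
  congr 1
  have h1 : (fun k => ((e.1.1 k : ZMod l)).valMinAbs) = e.1.1 := by
    funext k
    exact e3_cast m (by omega) _ (hΛ e.1 e.2 k)
  have h2 : (fun k => (((fun k => (e.1.1 k : ZMod l)) + unitv e.1.2 : Fin D → ZMod l) k).valMinAbs)
      = e.1.1 + Pi.single e.1.2 1 := by
    funext k
    have h3 : ((fun k => (e.1.1 k : ZMod l)) + unitv e.1.2 : Fin D → ZMod l) k =
        (((e.1.1 + Pi.single e.1.2 1 : Fin D → ℤ) k : ℤ) : ZMod l) := by
      rw [Pi.add_apply, Pi.add_apply, Int.cast_add]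
      congr 1
      unfold unitv
      by_cases hk : k = e.1.2
      · subst hk
        rw [Pi.single_eq_same, Pi.single_eq_same, Int.cast_one]
      · rw [Pi.single_eq_of_ne hk, Pi.single_eq_of_ne hk, Int.cast_zero]
    rw [h3]
    refine e3_cast (m + 1) (by omega) _ ?_
    have h4 := hΛ e.1 e.2 k
    rw [Pi.add_apply]
    rw [abs_le] at h4 ⊢
    by_cases hk : k = e.1.2
    · subst hk
      rw [Pi.single_eq_same]
      push_cast
      constructor <;> omega
    · rw [Pi.single_eq_of_ne hk]
      push_cast
      constructor <;> omega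
  show γ e.1.1 * U (fun k => (e.1.1 k : ZMod l), e.1.2) * (γ (e.1.1 + Pi.single e.1.2 1))⁻¹ =
    γ (fun k => ((e.1.1 k : ZMod l)).valMinAbs) * U (fun k => (e.1.1 k : ZMod l), e.1.2) *
      (γ fun k => (((fun k => (e.1.1 k : ZMod l)) + unitv e.1.2 : Fin D → ZMod l) k).valMinAbs)⁻¹
  rw [h1, h2]

/-- Translations on the periodic lattice. -/
def trp (y : Fin D → ZMod l) (U : Link D l → G) : Link D l → G := fun e => U (e.1 + y, e.2)

/-- the translation of the links -/
def trE (y : Fin D → ZMod l) : Link D l ≃ Link D l where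
  toFun e := (e.1 + y, e.2)
  invFun e := (e.1 - y, e.2)
  left_inv e := by simp
  right_inv e := by simp

/-- the translation as a measurable equivalence -/
def trME (y : Fin D → ZMod l) : (Link D l → G) ≃ᵐ (Link D l → G) :=
  MeasurableEquiv.piCongrLeft (fun _ => G) (trE y).symm

lemma trME_apply (y : Fin D → ZMod l) (U : Link D l → G) : trME y U = trp y U := by
  funext e
  have h := MeasurableEquiv.piCongrLeft_apply_apply (trE (l := l) y).symm
    (β := fun _ : Link D l => G) U (trE y e)
  rw [Equiv.symm_apply_apply] at h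
  exact h

lemma trp_mp (y : Fin D → ZMod l) :
    MeasurePreserving (trME (G := G) y) (Measure.pi fun _ : Link D l => μ)
      (Measure.pi fun _ : Link D l => μ) :=
  measurePreserving_piCongrLeft (α := fun _ : Link D l => G) (fun _ => μ) (trE y).symm

lemma trp_int (y : Fin D → ZMod l) (F : (Link D l → G) → ℝ) :
    ∫ U, F (trp y U) ∂(Measure.pi fun _ : Link D l => μ) =
      ∫ U, F U ∂(Measure.pi fun _ : Link D l => μ) := by
  have h := (trp_mp μ y).integral_comp (trME y).measurableEmbedding F
  rw [← h]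
  exact integral_congr_ae (Filter.Eventually.of_forall fun U => by
    show F (trp y U) = F (trME y U)
    rw [trME_apply])

lemma trp_update (y : Fin D → ZMod l) (U : Link D l → G) (e : Link D l) (v : G) :
    trp y (Function.update U (trE y e) v) = Function.update (trp y U) e v := by
  funext e'
  show Function.update U (trE y e) v (trE y e') = Function.update (trp y U) e v e'
  by_cases h : e' = e
  · subst h
    rw [Function.update_self, Function.update_self]
  · rw [Function.update_of_ne h, Function.update_of_ne (fun h' => h ((trE y).injective h'))]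
    rfl

lemma dlink_trp (B : LieBasis G n) (Ψ : (Link D l → G) → ℝ) (y : Fin D → ZMod l) (e : Link D l)
    (a : Fin n) (U : Link D l → G) :
    dlink B (trE y e) a (fun U => Ψ (trp y U)) U = dlink B e a Ψ (trp y U) := by
  unfold dlink
  simp only [trp_update]
  rfl

lemma magnetic_trp (y : Fin D → ZMod l) (U : Link D l → G) :
    magnetic (trp y U) = magnetic U := by
  unfold magnetic
  refine Fintype.sum_equiv (Equiv.addRight y) _ _ fun x => Finset.sum_congr rfl fun i _ =>
    Finset.sum_congr rfl fun j _ => ?_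
  have h : plaq (trp y U) x i j = plaq U (x + y) i j := by
    unfold plaq trp
    dsimp only
    rw [add_right_comm x (unitv i) y, add_right_comm x (unitv j) y]
  rw [h]
  rfl

lemma energy_trp (B : LieBasis G n) (g : ℝ) (Ψ : (Link D l → G) → ℝ) (y : Fin D → ZMod l) :
    energy B μ g (fun U => Ψ (trp y U)) = energy B μ g Ψ := by
  unfold energy
  congr 1
  · congr 1
    symm
    refine Fintype.sum_equiv (trE y) _ _ fun e => Finset.sum_congr rfl fun a _ => ?_
    rw [← trp_int μ y fun U => (dlink B e a Ψ U) ^ 2]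
    exact integral_congr_ae (Filter.Eventually.of_forall fun U => by
      show dlink B e a Ψ (trp y U) ^ 2 = dlink B (trE y e) a (fun U => Ψ (trp y U)) U ^ 2
      rw [dlink_trp])
  · congr 1
    rw [← trp_int μ y fun V => magnetic V * Ψ V ^ 2]
    exact integral_congr_ae (Filter.Eventually.of_forall fun U => by
      show magnetic U * Ψ (trp y U) ^ 2 = magnetic (trp y U) * Ψ (trp y U) ^ 2
      rw [magnetic_trp])

/-- Translations do not change the energy. -/
theorem Low_trp (B : LieBasis G n) {g δ : ℝ} {Ψ : (Link D l → G) → ℝ} (h : Low B μ g l δ Ψ)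
    (y : Fin D → ZMod l) : Low B μ g l δ fun U => Ψ (trp y U) := by
  refine ⟨?_, ?_, ?_⟩
  · obtain ⟨f, hf, hΨ⟩ := h.smooth
    refine ⟨fun M => f fun e => M (trE y e), ?_, fun U => ?_⟩
    · refine hf.comp ?_
      rw [contDiff_pi]
      exact fun e => contDiff_apply ℝ (Mt N) (trE y e)
    · exact hΨ (trp y U)
  · rw [← h.norm]
    exact trp_int μ y fun U => Ψ U ^ 2
  · rw [energy_trp]
    exact h.low

theorem ex_trp (Ψ F : (Link D l → G) → ℝ) (y : Fin D → ZMod l) :
    ex μ (fun U => Ψ (trp y U)) (fun U => F (trp y U)) = ex μ Ψ F :=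
  trp_int μ y fun U => F U * Ψ U ^ 2

omit [NeZero l] in
theorem transl_per (y : Fin D → ℤ) (U : Link D l → G) :
    transl y (per U) = per (trp (fun k => (y k : ZMod l)) U) := by
  funext e
  show U (fun k => (((e.1 + y) k : ℤ) : ZMod l), e.2) =
    U ((fun k => (e.1 k : ZMod l)) + (fun k => (y k : ZMod l)), e.2)
  congr 2
  funext k
  rw [Pi.add_apply, Pi.add_apply, Int.cast_add]

end

end

end Pool.Agent.YMI
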