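import Mathlib
import Pool.Agent.YMI.Defs2
import Pool.Agent.YMI.E1
import Pool.Agent.YMI.E3

/-!
# From the finite volume estimates to the infinite volume vacuum
-/

open MeasureTheory Matrix
open scoped ContDiff Matrix.Norms.Frobenius

namespace Pool.Agent.YMI

set_option linter.unusedSectionVars false

noncomputable section

variable {N n D : ℕ} {G : Subgroup (UU N)}

/-! ### limits of probability measures -/

/-- Compactness of the space of probability measures. -/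
theorem exists_limit {X : Type*} [MeasurableSpace X] [TopologicalSpace X] [T2Space X]
    [BorelSpace X] [CompactSpace X] (ν : ℕ → ProbabilityMeasure X) :
    ∃ (ν' : ProbabilityMeasure X) (𝒰 : Filter ℕ), 𝒰.NeBot ∧ 𝒰 ≤ Filter.atTop ∧
      ∀ F : X → ℝ, Continuous F →
        Filter.Tendsto (fun k => ∫ x, F x ∂(ν k : Measure X)) 𝒰
          (nhds (∫ x, F x ∂(ν' : Measure X))) := by
  obtain ⟨ν', -, h⟩ := isCompact_univ.ultrafilter_le_nhds
    ((Filter.hyperfilter ℕ).map ν) (by simp)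
  refine ⟨ν', (Filter.hyperfilter ℕ : Filter ℕ), inferInstance, ?_, fun F hF => ?_⟩
  · rw [← Nat.cofinite_eq_atTop]
    exact Filter.hyperfilter_le_cofinite
  · have ht : Filter.Tendsto ν (Filter.hyperfilter ℕ : Filter ℕ) (nhds ν') := h
    exact ProbabilityMeasure.tendsto_iff_forall_integral_tendsto.1 ht
      (BoundedContinuousFunction.mkOfCompact ⟨F, hF⟩)

theorem Low.mono [MeasurableSpace G] {B : LieBasis G n} {μ : Measure G} {g : ℝ} {l : ℕ} [NeZero l]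
    {δ δ' : ℝ} {Ψ : (Link D l → G) → ℝ} (h : Low B μ g l δ Ψ) (hδ : δ ≤ δ') :
    Low B μ g l δ' Ψ :=
  ⟨h.smooth, h.norm, h.low.trans (by linarith)⟩

/-- The measure on the configurations of the infinite lattice given by a low energy function. -/
theorem low_measure [CompactSpace G] [SecondCountableTopology G] [MeasurableSpace G]
    [BorelSpace G] (μ : Measure G) [IsProbabilityMeasure μ] {B : LieBasis G n} {g : ℝ} {l : ℕ}
    [NeZero l] {δ : ℝ} {Ψ : (Link D l → G) → ℝ} (h : Low B μ g l δ Ψ) :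
    ∃ ν : ProbabilityMeasure (LinkZ D → G), ∀ F : (LinkZ D → G) → ℝ, Continuous F →
      ∫ U, F U ∂(ν : Measure (LinkZ D → G)) = ex μ Ψ (fun U => F (per U)) := by
  have hΨc : Continuous Ψ := smooth_cont h.smooth
  have hΨ2 : Continuous fun U => Ψ U ^ 2 := hΨc.pow 2
  have hmeas : Measurable fun U => ENNReal.ofReal (Ψ U ^ 2) :=
    ENNReal.measurable_ofReal.comp hΨ2.measurable
  have hint : Integrable (fun U => Ψ U ^ 2) (Measure.pi fun _ : Link D l => μ) := by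
    by_contra hn
    have := h.norm
    rw [integral_undef hn] at this
    exact zero_ne_one this
  set ρ : Measure (Link D l → G) :=
    (Measure.pi fun _ : Link D l => μ).withDensity fun U => ENNReal.ofReal (Ψ U ^ 2) with hρ
  have hρ1 : ρ Set.univ = 1 := by
    rw [hρ, withDensity_apply _ MeasurableSet.univ, Measure.restrict_univ,
      ← ofReal_integral_eq_lintegral_ofReal hint (Filter.Eventually.of_forall fun U => sq_nonneg _),
      h.norm, ENNReal.ofReal_one]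
  have : IsProbabilityMeasure ρ := ⟨hρ1⟩
  have hper : Measurable (per : (Link D l → G) → LinkZ D → G) := per_cont.measurable
  have : IsProbabilityMeasure (ρ.map (per : (Link D l → G) → LinkZ D → G)) :=
    Measure.isProbabilityMeasure_map hper.aemeasurable
  refine ⟨⟨ρ.map per, inferInstance⟩, fun F hF => ?_⟩
  show ∫ U, F U ∂(ρ.map per) = _
  rw [integral_map hper.aemeasurable hF.aestronglyMeasurable, hρ,
    integral_withDensity_eq_integral_toReal_smul hmeas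
      (Filter.Eventually.of_forall fun U => ENNReal.ofReal_lt_top)]
  unfold ex
  refine integral_congr_ae (Filter.Eventually.of_forall fun U => ?_)
  simp only
  rw [ENNReal.toReal_ofReal (sq_nonneg _), smul_eq_mul, mul_comm]

/-- A continuous function on the configurations is bounded. -/
theorem exists_bd [CompactSpace G] {X : Type*} [TopologicalSpace X] [CompactSpace X] {F : X → ℝ}
    (hF : Continuous F) : ∃ M : ℝ, 0 ≤ M ∧ ∀ U, |F U| ≤ M := by
  obtain ⟨M, hM⟩ := isCompact_univ.exists_bound_of_continuousOn hF.continuousOn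
  exact ⟨max M 0, le_max_right _ _, fun U => (hM U trivial).trans (le_max_left _ _)⟩

theorem exists_box (Λ : Finset (LinkZ D)) : ∃ m : ℕ, ∀ e ∈ Λ, ∀ k, |e.1 k| ≤ (m : ℤ) := by
  refine ⟨Λ.sup fun e => Finset.univ.sup fun k => (e.1 k).natAbs, fun e he k => ?_⟩
  have h1 : (e.1 k).natAbs ≤ Finset.univ.sup fun k => (e.1 k).natAbs :=
    Finset.le_sup (f := fun k => (e.1 k).natAbs) (Finset.mem_univ k)
  have h2 : (Finset.univ.sup fun k => (e.1 k).natAbs) ≤
      Λ.sup fun e => Finset.univ.sup fun k => (e.1 k).natAbs :=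
    Finset.le_sup (f := fun e : LinkZ D => Finset.univ.sup fun k => (e.1 k).natAbs) he
  have h3 : |e.1 k| = ((e.1 k).natAbs : ℤ) := Int.abs_eq_natAbs _
  rw [h3]
  exact_mod_cast h1.trans h2

theorem gaugeZ_cont (γ : (Fin D → ℤ) → G) : Continuous (gaugeZ γ) := by
  unfold gaugeZ
  fun_prop

theorem transl_cont (y : Fin D → ℤ) : Continuous (transl y : (LinkZ D → G) → LinkZ D → G) := by
  unfold transl
  fun_prop

theorem assemble [CompactSpace G] [SecondCountableTopology G] [MeasurableSpace G] [BorelSpace G]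
    (hN : 1 ≤ N) (hD : 1 ≤ D) (μ : Measure G)
    [IsProbabilityMeasure μ] [μ.IsHaarMeasure] (B : LieBasis G n) (g Δ : ℝ) (hg : 0 < g)
    (hΔ : 0 < Δ)
    -- there are gauge invariant functions of low energy
    (hS : ∀ (l : ℕ) [NeZero l] (δ : ℝ), 0 < δ → ∃ Ψ : (Link D l → G) → ℝ, GaugeInv Ψ ∧
      Low B μ g l δ Ψ)
    -- low energy functions have almost the same expectations
    (hA : ∀ (l : ℕ) [NeZero l] (δ : ℝ) (Ψ Φ : (Link D l → G) → ℝ), 0 ≤ δ → Low B μ g l δ Ψ →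
      Low B μ g l δ Φ → ∀ (F : (Link D l → G) → ℝ) (M : ℝ), Continuous F → (∀ U, |F U| ≤ M) →
      |ex μ Ψ F - ex μ Φ F| ≤ 4 * M * Real.sqrt (δ / Δ))
    -- dependence on the volume
    (hB : ∀ m : ℕ, ∃ (C a : ℝ) (l₀ : ℕ), 0 ≤ C ∧ 0 < a ∧ ∀ (Λ : Finset (LinkZ D))
      (F : (LinkZ D → G) → ℝ) (c : ℝ),
      (∀ e ∈ Λ, ∀ k, |e.1 k| ≤ m) → IsLocal Λ F → 0 ≤ c → (∀ U, gradSq B Λ F U ≤ c ^ 2) →
      ∀ (l l' : ℕ) [NeZero l] [NeZero l'], l₀ ≤ l → l ≤ l' → ∀ ε : ℝ, 0 < ε →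
      ∃ (Ψ : (Link D l → G) → ℝ) (Φ : (Link D l' → G) → ℝ), Low B μ g l ε Ψ ∧ Low B μ g l' ε Φ ∧
        |ex μ Ψ (fun U => F (per U)) - ex μ Φ (fun U => F (per U))| ≤
          C * c * Real.exp (-(a * l)) + ε)
    -- clustering
    (A : Set ℝ) (κ : ℝ → ℝ)
    (hC : ∀ a ∈ A, ∀ (Λ Λ' : Finset (LinkZ D)) (F F' : (LinkZ D → G) → ℝ) (c c' : ℝ) (R : ℕ),
      IsLocal Λ F → IsLocal Λ' F' → 0 ≤ c → 0 ≤ c' → (∀ U, gradSq B Λ F U ≤ c ^ 2) →
      (∀ U, gradSq B Λ' F' U ≤ c' ^ 2) → (∀ e ∈ Λ, ∀ e' ∈ Λ', R ≤ dis e e') →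
      ∃ l₀ : ℕ, ∀ (l : ℕ) [NeZero l], l₀ ≤ l → ∀ ε : ℝ, 0 < ε →
      ∃ (Ψ : (Link D l → G) → ℝ), Low B μ g l ε Ψ ∧
        |ex μ Ψ (fun U => F (per U) * F' (per U)) -
          ex μ Ψ (fun U => F (per U)) * ex μ Ψ (fun U => F' (per U))| ≤
          κ a * c * c' * Real.exp (-(a * R)) + ε)
    -- Poincaré inequality
    (hP : ∀ (l : ℕ) [NeZero l] (M c ε : ℝ), 0 < ε → ∃ δ : ℝ, 0 < δ ∧
      ∀ Ψ : (Link D l → G) → ℝ, Low B μ g l δ Ψ → ∀ F : (Link D l → G) → ℝ, IsSmooth F →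
      (∀ U, |F U| ≤ M) → (∀ U, ∑ e, ∑ a, dlink B e a F U ^ 2 ≤ c ^ 2) →
      Δ * (ex μ Ψ (fun U => F U ^ 2) - ex μ Ψ F ^ 2) ≤
        g ^ 2 / 2 * ex μ Ψ (fun U => ∑ e, ∑ a, dlink B e a F U ^ 2) + ε) :
    ∃ ν : Measure (LinkZ D → G), IsProbabilityMeasure ν ∧
      (∀ m : ℕ, ∃ (C a : ℝ) (l₀ : ℕ), 0 < a ∧ ∀ (Λ : Finset (LinkZ D))
        (F : (LinkZ D → G) → ℝ) (c M : ℝ),
        (∀ e ∈ Λ, ∀ k, |e.1 k| ≤ m) → IsLocal Λ F → 0 ≤ c → (∀ U, gradSq B Λ F U ≤ c ^ 2) →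
        (∀ U, |F U| ≤ M) → ∀ (l : ℕ) [NeZero l], l₀ ≤ l → ∀ (δ : ℝ) (Ψ : (Link D l → G) → ℝ),
        0 ≤ δ → Low B μ g l δ Ψ →
        |ex μ Ψ (fun U => F (per U)) - ∫ U, F U ∂ν| ≤
          C * c * Real.exp (-(a * l)) + 4 * M * Real.sqrt (δ / Δ)) ∧
      (∀ (Λ : Finset (LinkZ D)) (F : (LinkZ D → G) → ℝ), IsLocal Λ F →
        Δ * (∫ U, F U ^ 2 ∂ν - (∫ U, F U ∂ν) ^ 2) ≤ g ^ 2 / 2 * ∫ U, gradSq B Λ F U ∂ν) ∧
      (∀ a ∈ A, ∀ (Λ Λ' : Finset (LinkZ D)) (F F' : (LinkZ D → G) → ℝ) (c c' : ℝ) (R : ℕ),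
        IsLocal Λ F → IsLocal Λ' F' → 0 ≤ c → 0 ≤ c' → (∀ U, gradSq B Λ F U ≤ c ^ 2) →
        (∀ U, gradSq B Λ' F' U ≤ c' ^ 2) → (∀ e ∈ Λ, ∀ e' ∈ Λ', R ≤ dis e e') →
        |∫ U, F U * F' U ∂ν - (∫ U, F U ∂ν) * ∫ U, F' U ∂ν| ≤
          κ a * c * c' * Real.exp (-(a * R))) ∧
      (∀ (Λ : Finset (LinkZ D)) (F : (LinkZ D → G) → ℝ), IsLocal Λ F →
        ∀ γ : (Fin D → ℤ) → G, ∫ U, F (gaugeZ γ U) ∂ν = ∫ U, F U ∂ν) ∧
      (∀ (Λ : Finset (LinkZ D)) (F : (LinkZ D → G) → ℝ), IsLocal Λ F →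
        ∀ y : Fin D → ℤ, ∫ U, F (transl y U) ∂ν = ∫ U, F U ∂ν) := by
  classical
  -- the choice of the low energy functions
  have key : ∀ k : ℕ, ∃ (δ : ℝ) (Ψ : (Link D (k + 1) → G) → ℝ), 0 < δ ∧ δ ≤ 1 / ((k : ℝ) + 1) ∧
      GaugeInv Ψ ∧ Low B μ g (k + 1) δ Ψ ∧
      ∀ F : (Link D (k + 1) → G) → ℝ, IsSmooth F → (∀ U, |F U| ≤ (k : ℝ)) →
      (∀ U, ∑ e, ∑ a, dlink B e a F U ^ 2 ≤ (k : ℝ) ^ 2) →
      Δ * (ex μ Ψ (fun U => F U ^ 2) - ex μ Ψ F ^ 2) ≤
        g ^ 2 / 2 * ex μ Ψ (fun U => ∑ e, ∑ a, dlink B e a F U ^ 2) + 1 / ((k : ℝ) + 1) := by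
    intro k
    have hk : (0 : ℝ) < 1 / ((k : ℝ) + 1) := by positivity
    obtain ⟨δ1, hδ1, h1⟩ := hP (k + 1) k k (1 / ((k : ℝ) + 1)) hk
    obtain ⟨Ψ, hΨg, hΨ⟩ := hS (k + 1) (min δ1 (1 / ((k : ℝ) + 1))) (lt_min hδ1 hk)
    exact ⟨_, Ψ, lt_min hδ1 hk, min_le_right _ _, hΨg, hΨ,
      fun F hF hM hc => h1 Ψ (hΨ.mono (min_le_left _ _)) F hF hM hc⟩
  choose δs Ψs hδpos hδle hinv hlow hpoin using key
  have hδ0 : Filter.Tendsto δs Filter.atTop (nhds 0) :=
    squeeze_zero (fun k => (hδpos k).le) hδle tendsto_one_div_add_atTop_nhds_zero_nat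
  choose νs hνs using fun k => low_measure μ (hlow k)
  obtain ⟨ν, 𝒰, hne, hle, hlim⟩ := exists_limit νs
  have hδ𝒰 : Filter.Tendsto δs 𝒰 (nhds 0) := hδ0.mono_left hle
  have hlim' : ∀ F : (LinkZ D → G) → ℝ, Continuous F →
      Filter.Tendsto (fun k => ex μ (Ψs k) (fun U => F (per U))) 𝒰
        (nhds (∫ U, F U ∂(ν : Measure (LinkZ D → G)))) := fun F hF =>
    (hlim F hF).congr fun k => hνs k F hF
  have hlim2 : ∀ (Φ : ∀ k : ℕ, (Link D (k + 1) → G) → ℝ) (k₀ : ℕ),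
      (∀ k, k₀ ≤ k → Low B μ g (k + 1) (δs k) (Φ k)) → ∀ F : (LinkZ D → G) → ℝ, Continuous F →
      Filter.Tendsto (fun k => ex μ (Φ k) (fun U => F (per U))) 𝒰
        (nhds (∫ U, F U ∂(ν : Measure (LinkZ D → G)))) := by
    intro Φ k₀ hΦ F hF
    obtain ⟨M, hM0, hM⟩ := exists_bd (G := G) hF
    have h1 : Filter.Tendsto (fun k => ex μ (Φ k) (fun U => F (per U)) -
        ex μ (Ψs k) (fun U => F (per U))) 𝒰 (nhds 0) := by
      refine squeeze_zero_norm' (a := fun k => 4 * M * Real.sqrt (δs k / Δ)) ?_ ?_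
      · filter_upwards [hle (Filter.eventually_ge_atTop k₀)] with k hk
        exact hA (k + 1) (δs k) (Φ k) (Ψs k) (hδpos k).le (hΦ k hk) (hlow k) _ M
          (hF.comp per_cont) (fun U => hM _)
      · have hc : Continuous fun t : ℝ => 4 * M * Real.sqrt (t / Δ) := by fun_prop
        have := (hc.tendsto 0).comp hδ𝒰
        simpa [Function.comp_def] using this
    have h2 := h1.add (hlim' F hF)
    simpa using h2
  refine ⟨(ν : Measure (LinkZ D → G)), inferInstance, ?_, ?_, ?_, ?_, ?_⟩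
  · -- convergence
    intro m
    obtain ⟨C, a, l₀, hC0, ha, h⟩ := hB m
    refine ⟨C, a, l₀, ha, fun Λ F c M hΛ hF hc hgr hM l _ hl δ Ψ hδ hΨ => ?_⟩
    have hFc := local_cont hF
    have hcont : Continuous fun t : ℝ => C * c * Real.exp (-(a * l)) + t +
        4 * M * Real.sqrt (max δ t / Δ) + 4 * M * Real.sqrt (t / Δ) := by fun_prop
    have hR := (hcont.tendsto 0).comp hδ𝒰
    have hL : Filter.Tendsto (fun k => |ex μ Ψ (fun U => F (per U)) -
        ex μ (Ψs k) (fun U => F (per U))|) 𝒰 (nhds |ex μ Ψ (fun U => F (per U)) -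
          ∫ U, F U ∂(ν : Measure (LinkZ D → G))|) :=
      ((hlim' F hFc).const_sub _).abs
    have hfin := le_of_tendsto_of_tendsto hL hR (by
      filter_upwards [hle (Filter.eventually_ge_atTop l)] with k hk
      obtain ⟨Ψ', Φ', hΨ', hΦ', h3⟩ := h Λ F c hΛ hF hc hgr l (k + 1) hl (by omega) (δs k)
        (hδpos k)
      have h4 := hA l (max δ (δs k)) Ψ Ψ' (le_max_of_le_left hδ) (hΨ.mono (le_max_left _ _))
        (hΨ'.mono (le_max_right _ _)) (fun U => F (per U)) M (hFc.comp per_cont) (fun U => hM _)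
      have h5 := hA (k + 1) (δs k) Φ' (Ψs k) (hδpos k).le hΦ' (hlow k) (fun U => F (per U)) M
        (hFc.comp per_cont) (fun U => hM _)
      simp only [Function.comp_apply]
      rw [abs_le] at *
      constructor <;> linarith [h3.1, h3.2, h4.1, h4.2, h5.1, h5.2])
    rw [max_eq_left hδ] at hfin
    simpa using hfin
  · -- Poincare inequality
    intro Λ F hF
    have hFc := local_cont hF
    have hGc := gradSq_cont B hF
    obtain ⟨M, hM0, hM⟩ := exists_bd (G := G) hFc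
    obtain ⟨M', hM0', hM'⟩ := exists_bd (G := G) hGc
    obtain ⟨m, hm⟩ := exists_box Λ
    obtain ⟨k1, hk1⟩ := exists_nat_ge (max M M')
    have hL : Filter.Tendsto (fun k => Δ * (ex μ (Ψs k) (fun U => F (per U) ^ 2) -
        ex μ (Ψs k) (fun U => F (per U)) ^ 2)) 𝒰
        (nhds (Δ * (∫ U, F U ^ 2 ∂(ν : Measure (LinkZ D → G)) -
          (∫ U, F U ∂(ν : Measure (LinkZ D → G))) ^ 2))) :=
      ((hlim' (fun U => F U ^ 2) (hFc.pow 2)).sub ((hlim' F hFc).pow 2)).const_mul Δ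
    have hR : Filter.Tendsto (fun k : ℕ => g ^ 2 / 2 * ex μ (Ψs k)
        (fun U => gradSq B Λ F (per U)) + 1 / ((k : ℝ) + 1)) 𝒰
        (nhds (g ^ 2 / 2 * (∫ U, gradSq B Λ F U ∂(ν : Measure (LinkZ D → G))) + 0)) :=
      ((hlim' (gradSq B Λ F) hGc).const_mul _).add
        (tendsto_one_div_add_atTop_nhds_zero_nat.mono_left hle)
    rw [add_zero] at hR
    refine le_of_tendsto_of_tendsto hL hR ?_
    filter_upwards [hle (Filter.eventually_ge_atTop (max k1 (2 * m + 1)))] with k hk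
    have hk1' : k1 ≤ k := (le_max_left _ _).trans hk
    have hk2 : 2 * m + 1 ≤ k := (le_max_right _ _).trans hk
    have hkM : M ≤ k := (le_max_left _ _).trans (hk1.trans (by exact_mod_cast hk1'))
    have hkM' : M' ≤ k := (le_max_right _ _).trans (hk1.trans (by exact_mod_cast hk1'))
    have hk0 : (1 : ℝ) ≤ k := by
      have : 1 ≤ k := by omega
      exact_mod_cast this
    have hgr : ∀ U : Link D (k + 1) → G,
        ∑ e, ∑ a, dlink B e a (fun U : Link D (k + 1) → G => F (per U)) U ^ 2 =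
          gradSq B Λ F (per U) := fun U => per_grad B hm hF (by omega) U
    have h1 := hpoin k (fun U => F (per U)) (per_smooth hF (k + 1))
      (fun U => (hM _).trans hkM) (fun U => by
        rw [hgr U]
        refine (le_abs_self _).trans ((hM' _).trans (hkM'.trans ?_))
        nlinarith)
    simp only [hgr] at h1
    exact h1
  · -- clustering
    intro a ha Λ Λ' F F' c c' R hF hF' hc hc' hg1 hg2 hR
    obtain ⟨l₀, h⟩ := hC a ha Λ Λ' F F' c c' R hF hF' hc hc' hg1 hg2 hR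
    have hFc := local_cont hF
    have hFc' := local_cont hF'
    have hex : ∀ k : ℕ, ∃ Φ : (Link D (k + 1) → G) → ℝ, l₀ ≤ k → Low B μ g (k + 1) (δs k) Φ ∧
        |ex μ Φ (fun U => F (per U) * F' (per U)) -
          ex μ Φ (fun U => F (per U)) * ex μ Φ (fun U => F' (per U))| ≤
          κ a * c * c' * Real.exp (-(a * R)) + δs k := by
      intro k
      by_cases hk : l₀ ≤ k
      · obtain ⟨Φ, h1, h2⟩ := h (k + 1) (by omega) (δs k) (hδpos k)
        exact ⟨Φ, fun _ => ⟨h1, h2⟩⟩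
      · exact ⟨0, fun h' => absurd h' hk⟩
    choose Φ hΦ using hex
    have t1 := hlim2 Φ l₀ (fun k hk => (hΦ k hk).1) F hFc
    have t2 := hlim2 Φ l₀ (fun k hk => (hΦ k hk).1) F' hFc'
    have t3 := hlim2 Φ l₀ (fun k hk => (hΦ k hk).1) (fun U => F U * F' U) (hFc.mul hFc')
    have t4 := (t3.sub (t1.mul t2)).abs
    have t5 : Filter.Tendsto (fun k => κ a * c * c' * Real.exp (-(a * R)) + δs k) 𝒰
        (nhds (κ a * c * c' * Real.exp (-(a * R)) + 0)) := hδ𝒰.const_add _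
    rw [add_zero] at t5
    refine le_of_tendsto_of_tendsto t4 t5 ?_
    filter_upwards [hle (Filter.eventually_ge_atTop l₀)] with k hk
    exact (hΦ k hk).2
  · -- gauge invariance
    intro Λ F hF γ
    have hFc := local_cont hF
    obtain ⟨m, hm⟩ := exists_box Λ
    have t1 := hlim' (fun U => F (gaugeZ γ U)) (hFc.comp (gaugeZ_cont γ))
    have t2 := hlim' F hFc
    refine tendsto_nhds_unique_of_eventuallyEq t1 t2 ?_
    filter_upwards [hle (Filter.eventually_ge_atTop (2 * m + 2))] with k hk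
    obtain ⟨γ', hγ'⟩ := per_gauge (l := k + 1) hm hF (by omega) γ
    simp only [hγ']
    exact ex_gauge μ (hinv k) (hFc.comp per_cont) γ'
  · -- translations
    intro Λ F hF y
    have hFc := local_cont hF
    have t1 := hlim' (fun U => F (transl y U)) (hFc.comp (transl_cont y))
    have t2 := hlim2 (fun k U => Ψs k (trp (fun i => ((-y i : ℤ) : ZMod (k + 1))) U)) 0
      (fun k _ => Low_trp μ B (hlow k) _) F hFc
    refine tendsto_nhds_unique_of_eventuallyEq t1 t2 (Filter.Eventually.of_forall fun k => ?_)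
    simp only [transl_per]
    have e := ex_trp μ (fun U => Ψs k (trp (fun i => ((-y i : ℤ) : ZMod (k + 1))) U))
      (fun U => F (per U)) (fun i => ((y i : ℤ) : ZMod (k + 1)))
    rw [← e]
    congr 1
    funext U
    congr 1
    funext e
    have he : (e.1 + fun i => ((-y i : ℤ) : ZMod (k + 1))) +
        (fun i => ((y i : ℤ) : ZMod (k + 1))) = e.1 := by
      funext i
      simp
    show U e = U ((e.1 + fun i => ((-y i : ℤ) : ZMod (k + 1))) +
      (fun i => ((y i : ℤ) : ZMod (k + 1))), e.2)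
    rw [he]

end

end Pool.Agent.YMI
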