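import Mathlib
import Pool.Agent.YMI.Defs2
import Pool.Agent.YMI.E1

/-!
# The algebra of the local functions, and its density in the continuous functions
-/

open MeasureTheory Matrix
open scoped ContDiff Matrix.Norms.Frobenius

namespace Pool.Agent.YMI

set_option linter.unusedSectionVars false

noncomputable section

variable {N n D : ℕ} {G : Subgroup (UU N)}

theorem IsLocal.mono {Λ Λ' : Finset (LinkZ D)} (h : Λ ⊆ Λ') {F : (LinkZ D → G) → ℝ}
    (hF : IsLocal Λ F) : IsLocal Λ' F := by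
  obtain ⟨f, hf, hF⟩ := hF
  refine ⟨fun V => f (fun e : Λ => V ⟨e.1, h e.2⟩), ?_, fun U => hF U⟩
  exact hf.comp (contDiff_pi.2 fun e => contDiff_apply ℝ (Mt N) (⟨e.1, h e.2⟩ : Λ'))

theorem IsLocal.const (Λ : Finset (LinkZ D)) (c : ℝ) :
    IsLocal Λ (fun _ : LinkZ D → G => c) := by
  exact ⟨fun _ => c, contDiff_const, fun _ => rfl⟩

theorem IsLocal.add {Λ Λ' : Finset (LinkZ D)} {F F' : (LinkZ D → G) → ℝ}
    (hF : IsLocal Λ F) (hF' : IsLocal Λ' F') : IsLocal (Λ ∪ Λ') (fun U => F U + F' U) := by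
  obtain ⟨f, hf, h⟩ := hF.mono (Finset.subset_union_left (s₂ := Λ'))
  obtain ⟨f', hf', h'⟩ := hF'.mono (Finset.subset_union_right (s₁ := Λ))
  exact ⟨fun V => f V + f' V, hf.add hf', fun U => by beta_reduce; rw [h, h']⟩

theorem IsLocal.mul {Λ Λ' : Finset (LinkZ D)} {F F' : (LinkZ D → G) → ℝ}
    (hF : IsLocal Λ F) (hF' : IsLocal Λ' F') : IsLocal (Λ ∪ Λ') (fun U => F U * F' U) := by
  obtain ⟨f, hf, h⟩ := hF.mono (Finset.subset_union_left (s₂ := Λ'))
  obtain ⟨f', hf', h'⟩ := hF'.mono (Finset.subset_union_right (s₁ := Λ))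
  exact ⟨fun V => f V * f' V, hf.mul hf', fun U => by beta_reduce; rw [h, h']⟩

/-- the derivative with respect to a link outside of `Λ` vanishes (auxiliary) -/
theorem curve_const (B : LieBasis G n) {Λ : Finset (LinkZ D)} {F : (LinkZ D → G) → ℝ}
    (hF : IsLocal Λ F) {e : LinkZ D} (he : e ∉ Λ) (a : Fin n) (U : LinkZ D → G) (t : ℝ) :
    F (Function.update U e (B.ex a t * U e)) = F U := by
  refine local_congr hF fun e' he' => ?_
  have hne : e' ≠ e := by
    rintro rfl
    exact he he'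
  rw [Function.update_of_ne hne]

/-- a local function is differentiable along the curves of `dlink` -/
theorem curve_diff (B : LieBasis G n) {Λ : Finset (LinkZ D)} {F : (LinkZ D → G) → ℝ}
    (hF : IsLocal Λ F) (e : LinkZ D) (a : Fin n) (U : LinkZ D → G) :
    DifferentiableAt ℝ (fun t => F (Function.update U e (B.ex a t * U e))) 0 := by
  by_cases he : e ∈ Λ
  · obtain ⟨f, hf, h⟩ := hF
    have h1 : HasDerivAt (fun (t : ℝ) (e' : Λ) => mt (Function.update U e (B.ex a t * U e) e'))
        (Pi.single (⟨e, he⟩ : Λ) (B.X a * mt (U e))) 0 := by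
      refine hasDerivAt_pi.2 fun e' => ?_
      by_cases h : e' = ⟨e, he⟩
      · subst h
        rw [Pi.single_eq_same]
        have h2 : (fun t : ℝ => mt (Function.update U e (B.ex a t * U e) e)) =
            fun t : ℝ => mt (B.ex a t) * mt (U e) := by
          funext t
          rw [Function.update_self, mt_mul]
        show HasDerivAt (fun t : ℝ => mt (Function.update U e (B.ex a t * U e) e)) _ 0
        rw [h2]
        exact (deriv_ex B a).mul_const _
      · rw [Pi.single_eq_of_ne h]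
        have h3 : (e' : LinkZ D) ≠ e := fun h4 => h (Subtype.ext h4)
        have h2 : (fun t : ℝ => mt (Function.update U e (B.ex a t * U e) e')) =
            fun _ : ℝ => mt (U e') := by
          funext t
          rw [Function.update_of_ne h3]
        rw [h2]
        exact hasDerivAt_const _ _
    have h4 : (fun t : ℝ => F (Function.update U e (B.ex a t * U e))) =
        f ∘ fun (t : ℝ) (e' : Λ) => mt (Function.update U e (B.ex a t * U e) e') := by
      funext t
      exact h _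
    rw [h4]
    exact ((hf.differentiable (by simp)).differentiableAt).comp _ h1.differentiableAt
  · have h5 : (fun t : ℝ => F (Function.update U e (B.ex a t * U e))) = fun _ => F U :=
      funext fun t => curve_const B hF he a U t
    rw [h5]
    exact differentiableAt_const _

theorem curve_zero (B : LieBasis G n) (e : LinkZ D) (a : Fin n) (U : LinkZ D → G) :
    Function.update U e (B.ex a 0 * U e) = U := by
  have h1 : B.ex a 0 = 1 := by
    have h2 := ex_zero B a
    exact Subtype.ext (Subtype.ext h2)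
  rw [h1, one_mul, Function.update_eq_self]

/-- the derivative of a local function is a local function -/
theorem IsLocal.dlink (B : LieBasis G n) {Λ : Finset (LinkZ D)} {F : (LinkZ D → G) → ℝ}
    (hF : IsLocal Λ F) (e : LinkZ D) (a : Fin n) : IsLocal Λ (fun U => dlink B e a F U) := by
  classical
  by_cases he : e ∈ Λ
  · obtain ⟨f, hf, h⟩ := hF
    refine ⟨fun M => fderiv ℝ f M (Pi.single (⟨e, he⟩ : Λ) (B.X a * M ⟨e, he⟩)), ?_,
      fun U => dlink_formula B hf h e he a U⟩
    have h2 : ContDiff ℝ ∞ fun M : Λ → Mt N => B.X a * M ⟨e, he⟩ := by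
      have h3 : ContDiff ℝ ∞ fun M : Λ → Mt N => M ⟨e, he⟩ := contDiff_apply ℝ (Mt N) _
      exact contDiff_const.mul h3
    have h5 : ContDiff ℝ ∞ fun M : Λ → Mt N =>
        (Pi.single (⟨e, he⟩ : Λ) (B.X a * M ⟨e, he⟩) : Λ → Mt N) := by
      refine contDiff_pi.2 fun e' => ?_
      by_cases he' : e' = ⟨e, he⟩
      · subst he'
        simpa using h2
      · have h4 : (fun M : Λ → Mt N => (Pi.single (⟨e, he⟩ : Λ) (B.X a * M ⟨e, he⟩) : Λ → Mt N) e') =
            fun _ => 0 := by
          funext M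
          exact Pi.single_eq_of_ne he' _
        rw [h4]
        exact contDiff_const
    exact (hf.fderiv_right (m := ∞) (by simp)).clm_apply h5
  · have h5 : (fun U => YMI.dlink B e a F U) = fun _ => 0 := by
      funext U
      unfold YMI.dlink
      have h6 : (fun t : ℝ => F (Function.update U e (B.ex a t * U e))) = fun _ => F U :=
        funext fun t => curve_const B hF he a U t
      rw [h6]
      exact deriv_const _ _
    rw [h5]
    exact IsLocal.const Λ 0

/-- product rule -/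
theorem dlink_mul_local (B : LieBasis G n) {Λ Λ' : Finset (LinkZ D)} {F F' : (LinkZ D → G) → ℝ}
    (hF : IsLocal Λ F) (hF' : IsLocal Λ' F') (e : LinkZ D) (a : Fin n) (U : LinkZ D → G) :
    dlink B e a (fun U => F U * F' U) U = dlink B e a F U * F' U + F U * dlink B e a F' U := by
  unfold dlink
  have h1 := (curve_diff B hF e a U).hasDerivAt
  have h2 := (curve_diff B hF' e a U).hasDerivAt
  have h3 := (h1.mul h2).deriv
  rw [curve_zero] at h3
  exact h3

/-- sum rule -/
theorem dlink_add_local (B : LieBasis G n) {Λ Λ' : Finset (LinkZ D)} {F F' : (LinkZ D → G) → ℝ}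
    (hF : IsLocal Λ F) (hF' : IsLocal Λ' F') (e : LinkZ D) (a : Fin n) (U : LinkZ D → G) :
    dlink B e a (fun U => F U + F' U) U = dlink B e a F U + dlink B e a F' U := by
  unfold dlink
  have h1 := (curve_diff B hF e a U).hasDerivAt
  have h2 := (curve_diff B hF' e a U).hasDerivAt
  exact (h1.add h2).deriv

/-- the derivative with respect to a link outside of `Λ` vanishes -/
theorem dlink_zero_local (B : LieBasis G n) {Λ : Finset (LinkZ D)} {F : (LinkZ D → G) → ℝ}
    (hF : IsLocal Λ F) {e : LinkZ D} (he : e ∉ Λ) (a : Fin n) (U : LinkZ D → G) :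
    dlink B e a F U = 0 := by
  unfold dlink
  have h6 : (fun t : ℝ => F (Function.update U e (B.ex a t * U e))) = fun _ => F U :=
    funext fun t => curve_const B hF he a U t
  rw [h6]
  exact deriv_const _ _

/-- the subalgebra of the local functions -/
def locAlg (G : Subgroup (UU N)) (D : ℕ) : Subalgebra ℝ C(LinkZ D → G, ℝ) where
  carrier := {f | ∃ Λ : Finset (LinkZ D), IsLocal Λ (f : (LinkZ D → G) → ℝ)}
  mul_mem' := by
    rintro f g ⟨Λ, h⟩ ⟨Λ', h'⟩
    exact ⟨Λ ∪ Λ', h.mul h'⟩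
  add_mem' := by
    rintro f g ⟨Λ, h⟩ ⟨Λ', h'⟩
    exact ⟨Λ ∪ Λ', h.add h'⟩
  algebraMap_mem' := fun r => ⟨∅, IsLocal.const ∅ r⟩

theorem entry_local (L : ℂ →L[ℝ] ℝ) (e : LinkZ D) (i j : Fin N) :
    IsLocal {e} (fun U : LinkZ D → G => L (mt (U e) i j)) := by
  have he : e ∈ ({e} : Finset (LinkZ D)) := Finset.mem_singleton_self e
  refine ⟨fun V => L (V ⟨e, he⟩ i j), ?_, fun U => rfl⟩
  have h1 : ContDiff ℝ ∞ fun V : ({e} : Finset (LinkZ D)) → Mt N => V ⟨e, he⟩ :=
    contDiff_apply ℝ (Mt N) _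
  have h2 : ContDiff ℝ ∞ fun M : Mt N => M i j :=
    (LinearMap.toContinuousLinearMap (Matrix.entryLinearMap ℝ ℂ i j :
      Matrix (Fin N) (Fin N) ℂ →ₗ[ℝ] ℂ)).contDiff
  exact L.contDiff.comp (h2.comp h1)

theorem locAlg_sep : (locAlg G D).SeparatesPoints := by
  intro U V hUV
  obtain ⟨e, he⟩ := Function.ne_iff.1 hUV
  have h1 : mt (U e) ≠ mt (V e) := fun h => he (Subtype.ext (Subtype.ext h))
  have h2 : ∃ i j, mt (U e) i j ≠ mt (V e) i j := by
    by_contra h
    push Not at h
    exact h1 (Matrix.ext h)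
  obtain ⟨i, j, hij⟩ := h2
  have key : ∀ L : ℂ →L[ℝ] ℝ, L (mt (U e) i j) ≠ L (mt (V e) i j) →
      ∃ f ∈ (fun f : C(LinkZ D → G, ℝ) => (f : (LinkZ D → G) → ℝ)) '' (locAlg G D : Set C(LinkZ D → G, ℝ)),
        f U ≠ f V := by
    intro L hL
    have hl := entry_local (G := G) L e i j
    refine ⟨_, ⟨⟨_, local_cont hl⟩, ⟨{e}, hl⟩, rfl⟩, hL⟩
  by_cases hre : (mt (U e) i j).re = (mt (V e) i j).re
  · have him : (mt (U e) i j).im ≠ (mt (V e) i j).im := fun h => hij (Complex.ext hre h)
    exact key Complex.imCLM him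
  · exact key Complex.reCLM hre

/-- Density in the continuous functions (Stone-Weierstrass). -/
theorem local_dense [CompactSpace G] {F : (LinkZ D → G) → ℝ} (hF : Continuous F) {ε : ℝ}
    (hε : 0 < ε) : ∃ (Λ : Finset (LinkZ D)) (F' : (LinkZ D → G) → ℝ), IsLocal Λ F' ∧
      ∀ U, |F U - F' U| ≤ ε := by
  obtain ⟨g, hg⟩ := ContinuousMap.exists_mem_subalgebra_near_continuous_of_separatesPoints
    (locAlg G D) locAlg_sep F hF ε hε
  obtain ⟨Λ, hΛ⟩ := g.2
  refine ⟨Λ, _, hΛ, fun U => ?_⟩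
  have := (hg U).le
  rw [Real.norm_eq_abs, abs_sub_comm] at this
  exact this

/-- A probability measure is determined by the integrals of the local functions. -/
theorem local_ext [CompactSpace G] [SecondCountableTopology G] [MeasurableSpace G] [BorelSpace G]
    {ν ν' : Measure (LinkZ D → G)} [IsProbabilityMeasure ν] [IsProbabilityMeasure ν']
    (h : ∀ (Λ : Finset (LinkZ D)) (F : (LinkZ D → G) → ℝ), IsLocal Λ F →
      ∫ U, F U ∂ν = ∫ U, F U ∂ν') : ν = ν' := by
  refine MeasureTheory.ext_of_forall_integral_eq_of_IsFiniteMeasure fun f => ?_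
  by_contra hne
  obtain ⟨ε, hε, hlt⟩ : ∃ ε : ℝ, 0 < ε ∧ 2 * ε < |∫ U, f U ∂ν - ∫ U, f U ∂ν'| := by
    have h0 : 0 < |∫ U, f U ∂ν - ∫ U, f U ∂ν'| := abs_pos.2 (sub_ne_zero.2 hne)
    exact ⟨|∫ U, f U ∂ν - ∫ U, f U ∂ν'| / 4, by positivity, by linarith⟩
  obtain ⟨Λ, F', hF', hd⟩ := local_dense f.continuous hε
  have hb : ∀ (m : Measure (LinkZ D → G)) [IsProbabilityMeasure m],
      |∫ U, f U ∂m - ∫ U, F' U ∂m| ≤ ε := by
    intro m _
    have i1 : Integrable (fun U => f U) m := f.integrable m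
    have i2 : Integrable (fun U => F' U) m :=
      (BoundedContinuousFunction.mkOfCompact ⟨F', local_cont hF'⟩).integrable m
    rw [← integral_sub i1 i2, ← Real.norm_eq_abs]
    have := norm_integral_le_of_norm_le_const (μ := m) (C := ε) (f := fun U => f U - F' U)
      (Filter.Eventually.of_forall fun U => hd U)
    simpa using this
  have h1 := hb ν
  have h2 := hb ν'
  have h3 := h Λ F' hF'
  rw [h3] at h1
  have h4 : |∫ U, f U ∂ν - ∫ U, f U ∂ν'| ≤ 2 * ε := by
    rw [abs_le] at h1 h2 ⊢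
    constructor <;> linarith [h1.1, h1.2, h2.1, h2.2]
  linarith

/-- The local functions are dense in `L²`. -/
theorem local_denseLp [CompactSpace G] [SecondCountableTopology G] [MeasurableSpace G]
    [BorelSpace G] {ν : Measure (LinkZ D → G)} [IsProbabilityMeasure ν]
    (u : Lp ℝ 2 ν) {ε : ℝ} (hε : 0 < ε) :
    ∃ (Λ : Finset (LinkZ D)) (F : (LinkZ D → G) → ℝ) (_ : IsLocal Λ F) (hm : MemLp F 2 ν),
      ‖u - hm.toLp F‖ ≤ ε := by
  have hdr := ContinuousMap.toLp_denseRange ℝ ν ℝ (p := 2) (α := LinkZ D → G) (by norm_num)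
  obtain ⟨f, hf⟩ := hdr.exists_dist_lt u (half_pos hε)
  obtain ⟨Λ, F', hF', hd⟩ := local_dense f.continuous (half_pos hε)
  let F'c : C(LinkZ D → G, ℝ) := ⟨F', local_cont hF'⟩
  have hm : MemLp F' 2 ν := by
    have := Lp.memLp (ContinuousMap.toLp 2 ν ℝ F'c)
    exact (memLp_congr_ae (ContinuousMap.coeFn_toLp ν F'c)).1 this
  refine ⟨Λ, F', hF', hm, ?_⟩
  have h1 : ‖ContinuousMap.toLp 2 ν ℝ f - hm.toLp F'‖ ≤ ε / 2 := by
    have h2 := Lp.norm_le_of_ae_bound (f := ContinuousMap.toLp 2 ν ℝ f - hm.toLp F')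
      (C := ε / 2) (half_pos hε).le ?_
    · have h6 : measureUnivNNReal ν = 1 := by
        rw [← ENNReal.coe_inj, coe_measureUnivNNReal, measure_univ, ENNReal.coe_one]
      rw [h6] at h2
      simpa using h2
    · filter_upwards [Lp.coeFn_sub (ContinuousMap.toLp 2 ν ℝ f) (hm.toLp F'),
        ContinuousMap.coeFn_toLp (p := 2) (𝕜 := ℝ) ν f, hm.coeFn_toLp] with U a1 a2 a3
      rw [a1, Pi.sub_apply, a2, a3]
      exact hd U
  calc ‖u - hm.toLp F'‖ = ‖(u - ContinuousMap.toLp 2 ν ℝ f) +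
        (ContinuousMap.toLp 2 ν ℝ f - hm.toLp F')‖ := by congr 1; abel
    _ ≤ ‖u - ContinuousMap.toLp 2 ν ℝ f‖ + ‖ContinuousMap.toLp 2 ν ℝ f - hm.toLp F'‖ :=
      norm_add_le _ _
    _ ≤ ε / 2 + ε / 2 := by
      rw [dist_eq_norm] at hf
      exact add_le_add hf.le h1
    _ = ε := by ring

end

end Pool.Agent.YMI
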