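import Mathlib

/-!
# The Friedrichs extension, for a form given on an abstract space
-/

namespace Pool.Agent.YMI

noncomputable section

/-- The self-adjoint operator `(J J*)⁻¹ - 1`. -/
theorem fr_abs {E W : Type*} [NormedAddCommGroup E] [InnerProductSpace ℝ E] [CompleteSpace E]
    [NormedAddCommGroup W] [InnerProductSpace ℝ W] [CompleteSpace W] (J : W →L[ℝ] E)
    (hJ : DenseRange J) : ∃ H : E →ₗ.[ℝ] E, IsSelfAdjoint H ∧
      (∀ f : E, ∃ h : J (J.adjoint f) ∈ H.domain, H ⟨J (J.adjoint f), h⟩ = f - J (J.adjoint f)) ∧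
      ∀ u ∈ H.domain, ∃ f, J (J.adjoint f) = u := by
  set R : E →L[ℝ] E := J ∘L J.adjoint with hR
  have hRapp : ∀ f, R f = J (J.adjoint f) := fun f => rfl
  have hin : ∀ f g, inner ℝ (R f) g = inner ℝ (J.adjoint f) (J.adjoint g) := by
    intro f g
    rw [hRapp, ContinuousLinearMap.adjoint_inner_right]
  have hsym : ∀ f g, inner ℝ (R f) g = inner ℝ f (R g) := by
    intro f g
    rw [hin, hRapp, ContinuousLinearMap.adjoint_inner_left]
  have hker : ∀ f, R f = 0 → f = 0 := by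
    intro f hf
    have h1 : J.adjoint f = 0 := by
      have := hin f f
      rw [hf, inner_zero_left] at this
      exact inner_self_eq_zero.1 this.symm
    have h2 : ∀ y : E, inner ℝ f y = 0 := by
      intro y
      refine hJ.induction_on (p := fun y => inner ℝ f y = 0) y ?_ ?_
      · exact isClosed_eq (continuous_const.inner continuous_id) continuous_const
      · intro w
        rw [← ContinuousLinearMap.adjoint_inner_left, h1, inner_zero_left]
    exact inner_self_eq_zero.1 (h2 f)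
  have hinj : Function.Injective (R : E →ₗ[ℝ] E) := by
    rw [injective_iff_map_eq_zero]
    exact hker
  set K : Submodule ℝ E := LinearMap.range (R : E →ₗ[ℝ] E) with hK
  have hdense : Dense (K : Set E) := by
    rw [Submodule.dense_iff_topologicalClosure_eq_top, Submodule.topologicalClosure_eq_top_iff,
      Submodule.eq_bot_iff]
    intro g hg
    apply hker
    have h1 : ∀ f, inner ℝ f (R g) = 0 := by
      intro f
      rw [← hsym]
      exact (Submodule.mem_orthogonal K g).1 hg (R f) ⟨f, rfl⟩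
    exact inner_self_eq_zero.1 (h1 (R g))
  let e : E ≃ₗ[ℝ] K := LinearEquiv.ofInjective (R : E →ₗ[ℝ] E) hinj
  let H : E →ₗ.[ℝ] E := ⟨K, (e.symm : K →ₗ[ℝ] E) - K.subtype⟩
  have hH : ∀ f (h : R f ∈ H.domain), H ⟨R f, h⟩ = f - R f := by
    intro f h
    have h1 : e f = ⟨R f, h⟩ := rfl
    show e.symm ⟨R f, h⟩ - R f = f - R f
    rw [← h1, e.symm_apply_apply]
  have hmem : ∀ f, R f ∈ H.domain := fun f => ⟨f, rfl⟩
  have hfa : H.IsFormalAdjoint H := by
    intro x y
    obtain ⟨f, hf⟩ : ∃ f, R f = x := x.2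
    obtain ⟨g, hg⟩ : ∃ g, R g = y := y.2
    have hx : x = ⟨R f, hmem f⟩ := Subtype.ext hf.symm
    have hy : y = ⟨R g, hmem g⟩ := Subtype.ext hg.symm
    have hx1 : H x = f - R f := by rw [hx, hH f (hmem f)]
    have hy1 : H y = g - R g := by rw [hy, hH g (hmem g)]
    rw [hx1, hy1, ← hf, ← hg, inner_sub_left, inner_sub_right, hsym f g]
  have hdH : Dense (H.domain : Set E) := hdense
  have hle : H ≤ H.adjoint := hfa.le_adjoint hdH
  have hdom : H.adjoint.domain ≤ H.domain := by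
    intro y hy
    have h1 : ∀ f, inner ℝ (H.adjoint ⟨y, hy⟩) (R f) = inner ℝ y (f - R f) := by
      intro f
      have h2 := LinearPMap.adjoint_isFormalAdjoint hdH ⟨y, hy⟩ ⟨R f, hmem f⟩
      rw [hH f (hmem f)] at h2
      exact h2
    have h3 : R (H.adjoint ⟨y, hy⟩) = y - R y := by
      apply ext_inner_right ℝ
      intro f
      rw [hsym, h1, inner_sub_right, inner_sub_left, hsym y f]
    refine ⟨H.adjoint ⟨y, hy⟩ + y, ?_⟩
    show R (H.adjoint ⟨y, hy⟩ + y) = y
    rw [map_add, h3]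
    abel
  refine ⟨H, ?_, ?_, ?_⟩
  · rw [LinearPMap.isSelfAdjoint_def]
    exact (LinearPMap.eq_of_le_of_domain_eq hle (le_antisymm hle.1 hdom)).symm
  · intro f
    exact ⟨⟨f, rfl⟩, hH f _⟩
  · rintro u ⟨f, rfl⟩
    exact ⟨f, rfl⟩

/-- Riesz: representation of the form. -/
theorem fr_riesz {E : Type*} [NormedAddCommGroup E] [InnerProductSpace ℝ E] [CompleteSpace E]
    {V : Type*} [AddCommGroup V] [Module ℝ V] (i : V →ₗ[ℝ] E) (l : V →ₗ[ℝ] ℝ) (C : ℝ)
    (hb : ∀ w, |l w| ≤ C * ‖i w‖) : ∃ a : E, ∀ w, inner ℝ (i w) a = l w := by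
  have hk : LinearMap.ker i ≤ LinearMap.ker l := by
    intro w hw
    rw [LinearMap.mem_ker] at hw ⊢
    have := hb w
    rw [hw, norm_zero, mul_zero] at this
    exact abs_nonpos_iff.1 this
  let φ : LinearMap.range i →ₗ[ℝ] ℝ :=
    ((LinearMap.ker i).liftQ l hk) ∘ₗ (i.quotKerEquivRange.symm : LinearMap.range i →ₗ[ℝ] _)
  have hφ : ∀ w, φ ⟨i w, ⟨w, rfl⟩⟩ = l w := by
    intro w
    show (LinearMap.ker i).liftQ l hk (i.quotKerEquivRange.symm ⟨i w, _⟩) = l w
    have h1 : i.quotKerEquivRange ((LinearMap.ker i).mkQ w) = ⟨i w, ⟨w, rfl⟩⟩ := rfl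
    rw [← h1, LinearEquiv.symm_apply_apply, Submodule.mkQ_apply, Submodule.liftQ_apply]
  let ψ : LinearMap.range i →L[ℝ] ℝ := φ.mkContinuous C (by
    rintro ⟨x, ⟨w, rfl⟩⟩
    rw [hφ w]
    exact hb w)
  obtain ⟨g, hg, _⟩ := _root_.exists_extension_norm_eq (𝕜 := ℝ) (LinearMap.range i) ψ
  refine ⟨(InnerProductSpace.toDual ℝ E).symm g, ?_⟩
  intro w
  rw [real_inner_comm, InnerProductSpace.toDual_symm_apply]
  have h2 := hg ⟨i w, ⟨w, rfl⟩⟩
  rw [h2]
  exact hφ w

/-- The Friedrichs extension when the completion is given. -/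
theorem fr_mid {E : Type*} [NormedAddCommGroup E] [InnerProductSpace ℝ E] [CompleteSpace E]
    {V : Type*} [AddCommGroup V] [Module ℝ V] {W : Type*} [NormedAddCommGroup W]
    [InnerProductSpace ℝ W] [CompleteSpace W] (i : V →ₗ[ℝ] E) (hi : DenseRange i)
    (q : V →ₗ[ℝ] V →ₗ[ℝ] ℝ)
    (hb : ∀ v, ∃ C : ℝ, ∀ w, |q v w| ≤ C * ‖i w‖)
    (j : V → W) (hj : DenseRange j) (J : W →L[ℝ] E) (hJj : ∀ v, J (j v) = i v)
    (hjj : ∀ v w, inner ℝ (j v) (j w) = q v w + inner ℝ (i v) (i w)) :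
    ∃ H : E →ₗ.[ℝ] E, IsSelfAdjoint H ∧
      (∀ v, ∃ h : i v ∈ H.domain, ∀ w, inner ℝ (i w) (H ⟨i v, h⟩) = q v w) ∧
      ∀ (u : H.domain) (ε : ℝ), 0 < ε → ∃ v, ‖(u : E) - i v‖ ≤ ε ∧
        |inner ℝ (u : E) (H u) - q v v| ≤ ε := by
  have hJ : DenseRange J := by
    refine Dense.mono ?_ hi
    rintro _ ⟨v, rfl⟩
    exact ⟨j v, hJj v⟩
  obtain ⟨H, hH1, hH2, hH3⟩ := fr_abs J hJ
  refine ⟨H, hH1, ?_, ?_⟩
  · intro v
    obtain ⟨C, hC⟩ := hb v
    obtain ⟨a, ha⟩ := fr_riesz i (q v) C hC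
    have h1 : J.adjoint (a + i v) = j v := by
      apply ext_inner_right ℝ
      intro w
      refine hj.induction_on (p := fun w => inner ℝ (J.adjoint (a + i v)) w = inner ℝ (j v) w) w
        ?_ ?_
      · exact isClosed_eq (continuous_const.inner continuous_id)
          (continuous_const.inner continuous_id)
      · intro v'
        rw [ContinuousLinearMap.adjoint_inner_left, hJj, hjj, inner_add_left,
          real_inner_comm, ha]
    have h2 : J (J.adjoint (a + i v)) = i v := by rw [h1, hJj]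
    obtain ⟨h3, h4⟩ := hH2 (a + i v)
    have h5 : i v ∈ H.domain := h2 ▸ h3
    refine ⟨h5, ?_⟩
    intro w
    have h6 : H ⟨i v, h5⟩ = a := by
      have h7 : (⟨i v, h5⟩ : H.domain) = ⟨J (J.adjoint (a + i v)), h3⟩ := Subtype.ext h2.symm
      rw [h7, h4, h2]
      abel
    rw [h6, ha]
  · rintro ⟨u, hu⟩ ε hε
    obtain ⟨f, rfl⟩ := hH3 u hu
    obtain ⟨h3, h4⟩ := hH2 f
    set w0 : W := J.adjoint f with hw0
    have hc1 : Continuous fun w : W => ‖J w0 - J w‖ :=
      (continuous_const.sub J.continuous).norm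
    have hc2 : Continuous fun w : W =>
        |(‖w0‖ ^ 2 - ‖J w0‖ ^ 2) - (‖w‖ ^ 2 - ‖J w‖ ^ 2)| :=
      (continuous_const.sub ((continuous_norm.pow 2).sub (J.continuous.norm.pow 2))).abs
    have ho : IsOpen {w : W | ‖J w0 - J w‖ < ε ∧
        |(‖w0‖ ^ 2 - ‖J w0‖ ^ 2) - (‖w‖ ^ 2 - ‖J w‖ ^ 2)| < ε} :=
      (isOpen_lt hc1 continuous_const).inter (isOpen_lt hc2 continuous_const)
    obtain ⟨v, hv1, hv2⟩ := hj.exists_mem_open ho ⟨w0, by
      constructor
      · rw [sub_self, norm_zero]; exact hε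
      · rw [sub_self, abs_zero]; exact hε⟩
    refine ⟨v, ?_, ?_⟩
    · rw [hJj] at hv1
      exact hv1.le
    · have e1 : inner ℝ (J w0) (H ⟨J w0, hu⟩) = ‖w0‖ ^ 2 - ‖J w0‖ ^ 2 := by
        have h5 : H ⟨J w0, hu⟩ = f - J w0 := h4
        rw [h5, inner_sub_right, real_inner_self_eq_norm_sq, hw0,
          ← ContinuousLinearMap.adjoint_inner_right, real_inner_self_eq_norm_sq]
      have e2 : q v v = ‖j v‖ ^ 2 - ‖J (j v)‖ ^ 2 := by
        rw [← real_inner_self_eq_norm_sq, ← real_inner_self_eq_norm_sq, hjj, hJj]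
        ring
      show |inner ℝ (J w0) (H ⟨J w0, hu⟩) - q v v| ≤ ε
      rw [e1, e2]
      exact hv2.le

/-- The Friedrichs extension when the space carries the norm of the form. -/
theorem fr_compl {E : Type*} [NormedAddCommGroup E] [InnerProductSpace ℝ E] [CompleteSpace E]
    {V : Type*} [SeminormedAddCommGroup V] [InnerProductSpace ℝ V] (i : V →ₗ[ℝ] E)
    (hi : DenseRange i)
    (q : V →ₗ[ℝ] V →ₗ[ℝ] ℝ) (hp : ∀ v, 0 ≤ q v v)
    (hb : ∀ v, ∃ C : ℝ, ∀ w, |q v w| ≤ C * ‖i w‖)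
    (hjj : ∀ v w : V, inner ℝ v w = q v w + inner ℝ (i v) (i w)) :
    ∃ H : E →ₗ.[ℝ] E, IsSelfAdjoint H ∧
      (∀ v, ∃ h : i v ∈ H.domain, ∀ w, inner ℝ (i w) (H ⟨i v, h⟩) = q v w) ∧
      ∀ (u : H.domain) (ε : ℝ), 0 < ε → ∃ v, ‖(u : E) - i v‖ ≤ ε ∧
        |inner ℝ (u : E) (H u) - q v v| ≤ ε := by
  have hbound : ∀ v, ‖i v‖ ≤ 1 * ‖v‖ := by
    intro v
    rw [one_mul]
    apply le_of_sq_le_sq _ (norm_nonneg v)
    rw [← real_inner_self_eq_norm_sq, ← real_inner_self_eq_norm_sq, hjj]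
    have := hp v
    linarith
  let ic : V →L[ℝ] E := i.mkContinuous 1 hbound
  let jc : V →L[ℝ] UniformSpace.Completion V := UniformSpace.Completion.toComplL
  have hjd : DenseRange jc := UniformSpace.Completion.denseRange_coe
  have hju : IsUniformInducing jc := UniformSpace.Completion.isUniformInducing_coe V
  let J : UniformSpace.Completion V →L[ℝ] E := ic.extend jc
  refine fr_mid (W := UniformSpace.Completion V) i hi q hb (fun v => jc v) hjd J ?_ ?_
  · intro v
    exact ContinuousLinearMap.extend_eq ic hjd hju v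
  · intro v w
    rw [← hjj]
    exact UniformSpace.Completion.inner_coe v w

/-- The self-adjoint operator of a nonnegative form (Friedrichs extension). -/
theorem friedrichs {E : Type*} [NormedAddCommGroup E] [InnerProductSpace ℝ E] [CompleteSpace E]
    {V : Type*} [AddCommGroup V] [Module ℝ V] (i : V →ₗ[ℝ] E) (hi : DenseRange i)
    (q : V →ₗ[ℝ] V →ₗ[ℝ] ℝ) (hs : ∀ v w, q v w = q w v) (hp : ∀ v, 0 ≤ q v v)
    (hb : ∀ v, ∃ C : ℝ, ∀ w, |q v w| ≤ C * ‖i w‖) :
    ∃ H : E →ₗ.[ℝ] E, IsSelfAdjoint H ∧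
      (∀ v, ∃ h : i v ∈ H.domain, ∀ w, inner ℝ (i w) (H ⟨i v, h⟩) = q v w) ∧
      ∀ (u : H.domain) (ε : ℝ), 0 < ε → ∃ v, ‖(u : E) - i v‖ ≤ ε ∧
        |inner ℝ (u : E) (H u) - q v v| ≤ ε := by
  let c : PreInnerProductSpace.Core ℝ V :=
    { inner := fun v w => q v w + inner ℝ (i v) (i w)
      conj_inner_symm := fun v w => by
        show (starRingEnd ℝ) (q w v + inner ℝ (i w) (i v)) = q v w + inner ℝ (i v) (i w)
        rw [hs w v, real_inner_comm (i v) (i w)]
        rfl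
      re_inner_nonneg := fun v => by
        show 0 ≤ q v v + inner ℝ (i v) (i v)
        exact add_nonneg (hp v) real_inner_self_nonneg
      add_left := fun u v w => by
        show q (u + v) w + inner ℝ (i (u + v)) (i w) =
          (q u w + inner ℝ (i u) (i w)) + (q v w + inner ℝ (i v) (i w))
        rw [map_add, map_add, LinearMap.add_apply, inner_add_left]
        ring
      smul_left := fun v w r => by
        show q (r • v) w + inner ℝ (i (r • v)) (i w) = r * (q v w + inner ℝ (i v) (i w))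
        rw [map_smul, map_smul, LinearMap.smul_apply, real_inner_smul_left, smul_eq_mul]
        ring }
  let s : SeminormedAddCommGroup V :=
    @InnerProductSpace.Core.toSeminormedAddCommGroup ℝ V _ _ _ c
  let ips : InnerProductSpace ℝ V := InnerProductSpace.ofCore c
  exact fr_compl (V := V) i hi q hp hb (fun v w => rfl)

end

end Pool.Agent.YMI
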