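import Mathlib
import Pool.Agent.YMI.Bridge

/-!
# Consequences of the gap: low energy functions are close to each other
-/

open MeasureTheory Matrix
open scoped ContDiff Matrix.Norms.Frobenius

namespace Pool.Agent.YMI

set_option linter.unusedSectionVars false

noncomputable section

lemma enr_comb {A : Type*} [CommRing A] [Algebra ℝ A] {P J : Type*} [Fintype J]
    (S : Pool.Agent.H906R3.YM.Fn A P J) (g : ℝ) (V : A) (E0 : ℝ) (u v : A) (α β : ℝ) :
    S.enr g V E0 (α • u + β • v) (α • u + β • v) =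
      α ^ 2 * S.enr g V E0 u u + 2 * α * β * S.enr g V E0 u v + β ^ 2 * S.enr g V E0 v v := by
  have e1 : S.enr g V E0 (α • u + β • v) (α • u + β • v) = α ^ 2 * S.enr g V E0 u u +
      α * β * S.enr g V E0 u v + α * β * S.enr g V E0 v u + β ^ 2 * S.enr g V E0 v v := by
    unfold Pool.Agent.H906R3.YM.Fn.enr
    rw [Pool.Agent.H906R3.YM.Fn.HH_add, Pool.Agent.H906R3.YM.HH_smul,
      Pool.Agent.H906R3.YM.HH_smul]
    have : (α • u + β • v) * (α • Pool.Agent.H906R3.YM.HH S.D g V u +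
          β • Pool.Agent.H906R3.YM.HH S.D g V v - E0 • (α • u + β • v)) =
        (α ^ 2) • (u * (Pool.Agent.H906R3.YM.HH S.D g V u - E0 • u)) +
          (α * β) • (u * (Pool.Agent.H906R3.YM.HH S.D g V v - E0 • v)) +
          (α * β) • (v * (Pool.Agent.H906R3.YM.HH S.D g V u - E0 • u)) +
          (β ^ 2) • (v * (Pool.Agent.H906R3.YM.HH S.D g V v - E0 • v)) := by
      simp only [Algebra.smul_def, map_pow, map_mul]; ring
    rw [this]
    simp only [map_add, map_smul, smul_eq_mul]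
  rw [e1, S.enr_symm g V E0 v u]
  ring

lemma enr_par {A : Type*} [CommRing A] [Algebra ℝ A] {P J : Type*} [Fintype J]
    (S : Pool.Agent.H906R3.YM.Fn A P J) (g : ℝ) (V : A) (E0 : ℝ)
    (hpos : ∀ u : A, 0 ≤ S.enr g V E0 u u) (u v : A) (α β : ℝ) :
    S.enr g V E0 (α • u + β • v) (α • u + β • v) ≤
      2 * α ^ 2 * S.enr g V E0 u u + 2 * β ^ 2 * S.enr g V E0 v v := by
  have h1 := enr_comb S g V E0 u v α β
  have h2 := enr_comb S g V E0 u v α (-β)
  have h3 := hpos (α • u + (-β) • v)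
  rw [h2] at h3
  rw [h1]
  nlinarith [h3]

lemma ab_bound {α β c : ℝ} (hc : 0 ≤ c) (h : 1 = α ^ 2 + 2 * α * β * c + β ^ 2) :
    (α ^ 2 + β ^ 2) * (1 - c) ≤ 1 := by
  have h1 := mul_nonneg hc (sq_nonneg (α + β))
  have h2 : c * (α + β) ^ 2 = 2 * α * β * c + c * (α ^ 2 + β ^ 2) := by ring
  have h3 : (α ^ 2 + β ^ 2) * (1 - c) = α ^ 2 + β ^ 2 - c * (α ^ 2 + β ^ 2) := by ring
  linarith

lemma comb_eq {A : Type*} [AddCommGroup A] [Module ℝ A] (u v : A) (a b p d : ℝ) :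
    a • u + b • (p • u + d • v) = (a + b * p) • u + (b * d) • v := by
  rw [smul_add, smul_smul, smul_smul, add_smul]
  abel

section

open Pool.Agent.H906R3

variable {N n D : ℕ} {G : Subgroup (UU N)} [CompactSpace G] [SecondCountableTopology G]
  [MeasurableSpace G] [BorelSpace G] (μ : Measure G) [IsProbabilityMeasure μ] [μ.IsHaarMeasure]
  {l : ℕ} [NeZero l] (B : LieBasis G n) {g Δ : ℝ}

lemma cs_bound {x y F : (Link D l → G) → ℝ} (hx : Continuous x) (hy : Continuous y)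
    (hF : Continuous F) {M : ℝ} (hM : ∀ U, |F U| ≤ M) :
    (∫ U, F U * (x U * y U) ∂(Measure.pi fun _ : Link D l => μ)) ^ 2 ≤
      (∫ U, x U ^ 2 ∂(Measure.pi fun _ : Link D l => μ)) *
        (M ^ 2 * ∫ U, y U ^ 2 ∂(Measure.pi fun _ : Link D l => μ)) := by
  refine YM.sq_le_of_forall fun t => ?_
  have i1 : Integrable (fun U => x U ^ 2) (Measure.pi fun _ : Link D l => μ) :=
    YM.integrable_cont μ (hx.pow 2)
  have i2 : Integrable (fun U => 2 * t * (F U * (x U * y U)))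
      (Measure.pi fun _ : Link D l => μ) :=
    YM.integrable_cont μ (continuous_const.mul (hF.mul (hx.mul hy)))
  have i3 : Integrable (fun U => t ^ 2 * (M ^ 2 * y U ^ 2))
      (Measure.pi fun _ : Link D l => μ) :=
    YM.integrable_cont μ (continuous_const.mul (continuous_const.mul (hy.pow 2)))
  have h1 : ∫ U, (x U ^ 2 + 2 * t * (F U * (x U * y U)) + t ^ 2 * (M ^ 2 * y U ^ 2))
      ∂(Measure.pi fun _ : Link D l => μ) =
      (∫ U, x U ^ 2 ∂(Measure.pi fun _ : Link D l => μ)) +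
        2 * t * (∫ U, F U * (x U * y U) ∂(Measure.pi fun _ : Link D l => μ)) +
        t ^ 2 * (M ^ 2 * ∫ U, y U ^ 2 ∂(Measure.pi fun _ : Link D l => μ)) := by
    have i12 : Integrable (fun U => x U ^ 2 + 2 * t * (F U * (x U * y U)))
      (Measure.pi fun _ : Link D l => μ) := i1.add i2
    rw [integral_add i12 i3, integral_add i1 i2, integral_const_mul, integral_const_mul,
      integral_const_mul]
  rw [← h1]
  refine integral_nonneg fun U => ?_
  have h2 : F U ^ 2 ≤ M ^ 2 := sq_le_sq' (by linarith [(abs_le.1 (hM U)).1]) (abs_le.1 (hM U)).2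
  have h3 : 0 ≤ (x U + t * (F U * y U)) ^ 2 := sq_nonneg _
  have h4 : 0 ≤ t ^ 2 * ((M ^ 2 - F U ^ 2) * y U ^ 2) :=
    mul_nonneg (sq_nonneg t) (mul_nonneg (sub_nonneg.2 h2) (sq_nonneg _))
  show 0 ≤ x U ^ 2 + 2 * t * (F U * (x U * y U)) + t ^ 2 * (M ^ 2 * y U ^ 2)
  have e : x U ^ 2 + 2 * t * (F U * (x U * y U)) + t ^ 2 * (M ^ 2 * y U ^ 2) =
      (x U + t * (F U * y U)) ^ 2 + t ^ 2 * ((M ^ 2 - F U ^ 2) * y U ^ 2) := by ring
  rw [e]
  exact add_nonneg h3 h4

/-- Two functions of low energy give almost the same expectations. -/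
theorem closeness (hg : 0 < g) (hΔ : 0 < Δ)
    (hgap : ∀ Ψ Φ : (Link D l → G) → ℝ, IsSmooth Ψ → IsSmooth Φ →
      ∫ U, Ψ U ^ 2 ∂(Measure.pi fun _ : Link D l => μ) = 1 →
      ∫ U, Φ U ^ 2 ∂(Measure.pi fun _ : Link D l => μ) = 1 →
      ∫ U, Ψ U * Φ U ∂(Measure.pi fun _ : Link D l => μ) = 0 →
      ∀ E : ℝ, (∀ a b : ℝ, a ^ 2 + b ^ 2 = 1 →
        energy B μ g (fun U => a * Ψ U + b * Φ U) ≤ E) → groundEnergy D l B μ g + Δ ≤ E)
    (hE0 : ∀ F : (Link D l → G) → ℝ, IsSmooth F → groundEnergy D l B μ g *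
      ∫ U, F U ^ 2 ∂(Measure.pi fun _ : Link D l => μ) ≤ energy B μ g F)
    {δ : ℝ} (hδ : 0 ≤ δ) {Ψ Φ : (Link D l → G) → ℝ} (hΨ : Low B μ g l δ Ψ) (hΦ : Low B μ g l δ Φ)
    {F : (Link D l → G) → ℝ} {M : ℝ} (hF : Continuous F) (hM : ∀ U, |F U| ≤ M) :
    |ex μ Ψ F - ex μ Φ F| ≤ 4 * M * Real.sqrt (δ / Δ) := by
  obtain ⟨E0, hE0d⟩ : ∃ E0 : ℝ, E0 = groundEnergy D l B μ g := ⟨_, rfl⟩
  rw [← hE0d] at hgap hE0
  have hM0 : 0 ≤ M := (abs_nonneg _).trans (hM fun _ => 1)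
  obtain ⟨S, hS⟩ : ∃ S, S = YM.fnE (ld B) μ (Link D l) := ⟨_, rfl⟩
  obtain ⟨V, hV⟩ : ∃ V, V = YM.VT (ld B) D l := ⟨_, rfl⟩
  have hq : ∀ w : YM.Sm (ld B) (Link D l), S.enr g V E0 w w =
      energy B μ g w.1 - E0 * (ld B).I μ (w * w) := fun w => by
    rw [hS, hV]; exact enr_eq' μ B g E0 w
  have hpos : ∀ w : YM.Sm (ld B) (Link D l), 0 ≤ S.enr g V E0 w w := fun w => by
    rw [hq, sub_nonneg, ← norm_eq μ B w]
    exact hE0 w.1 w.2
  obtain ⟨u, hu⟩ : ∃ u : YM.Sm (ld B) (Link D l), u.1 = Ψ := ⟨⟨Ψ, hΨ.smooth⟩, rfl⟩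
  obtain ⟨v, hv⟩ : ∃ v : YM.Sm (ld B) (Link D l), v.1 = Φ := ⟨⟨Φ, hΦ.smooth⟩, rfl⟩
  have nu : (ld B).I μ (u * u) = 1 := by rw [← norm_eq μ B u, hu]; exact hΨ.norm
  have nv : (ld B).I μ (v * v) = 1 := by rw [← norm_eq μ B v, hv]; exact hΦ.norm
  have qu : S.enr g V E0 u u ≤ δ := by
    rw [hq, nu, hu]; have := hΨ.low; rw [← hE0d] at this; linarith
  have qv : S.enr g V E0 v v ≤ δ := by
    rw [hq, nv, hv]; have := hΦ.low; rw [← hE0d] at this; linarith
  -- the sign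
  obtain ⟨s, hs, hsc⟩ : ∃ s : ℝ, s ^ 2 = 1 ∧ 0 ≤ s * (ld B).I μ (u * v) := by
    rcases le_or_gt 0 ((ld B).I μ (u * v)) with h | h
    · exact ⟨1, by norm_num, by linarith⟩
    · exact ⟨-1, by norm_num, by linarith⟩
  obtain ⟨v', hv'⟩ : ∃ v' : YM.Sm (ld B) (Link D l), v' = s • v := ⟨_, rfl⟩
  obtain ⟨c, hc⟩ : ∃ c : ℝ, c = (ld B).I μ (u * v') := ⟨_, rfl⟩
  have hc0 : 0 ≤ c := by
    rw [hc, hv', mul_smul_comm, map_smul, smul_eq_mul]; exact hsc
  have nv' : (ld B).I μ (v' * v') = 1 := by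
    rw [hv', smul_mul_assoc, mul_smul_comm, map_smul, map_smul, smul_eq_mul, smul_eq_mul, nv]
    linarith [hs, sq s]
  have qv' : S.enr g V E0 v' v' ≤ δ := by
    have h1 := enr_comb S g V E0 v v s 0
    have h2 : s • v + (0 : ℝ) • v = v' := by rw [zero_smul, add_zero, hv']
    rw [h2] at h1
    rw [h1, hs]; linarith
  have hc1 : c ≤ 1 := by
    have h1 := YM.I_cs1 μ u v'
    rw [nu, nv', ← hc] at h1
    nlinarith
  -- norm of combinations
  have ncomb : ∀ α β : ℝ, (ld B).I μ ((α • u + β • v') * (α • u + β • v')) =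
      α ^ 2 + 2 * α * β * c + β ^ 2 := by
    intro α β
    have h1 : (α • u + β • v') * (α • u + β • v') =
        (α ^ 2) • (u * u) + (2 * α * β) • (u * v') + (β ^ 2) • (v' * v') := by
      simp only [Algebra.smul_def, map_mul, map_pow, map_ofNat]; ring
    rw [h1, map_add, map_add, map_smul, map_smul, map_smul, nu, nv', ← hc]
    simp only [smul_eq_mul]; ring
  -- main estimate
  have key : Δ * (1 - c) ≤ 2 * δ := by
    rcases hc1.eq_or_lt with h1 | h1
    · rw [h1, sub_self, mul_zero]; linarith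
    · have h1c : 0 < 1 - c := by linarith
      have hd2 : 0 < 1 - c ^ 2 := by nlinarith
      obtain ⟨d, hd⟩ : ∃ d : ℝ, d = (Real.sqrt (1 - c ^ 2))⁻¹ := ⟨_, rfl⟩
      have hdd : d ^ 2 * (1 - c ^ 2) = 1 := by
        rw [hd, inv_pow, Real.sq_sqrt hd2.le, inv_mul_cancel₀ hd2.ne']
      obtain ⟨w, hw⟩ : ∃ w : YM.Sm (ld B) (Link D l), w = (-(d * c)) • u + d • v' := ⟨_, rfl⟩
      have nw : (ld B).I μ (w * w) = 1 := by
        rw [hw, ncomb, ← hdd]; ring
      have uw : (ld B).I μ (u * w) = 0 := by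
        rw [hw, mul_add, mul_smul_comm, mul_smul_comm, map_add, map_smul, map_smul, nu, ← hc]
        simp only [smul_eq_mul]; ring
      have h2 := hgap u.1 w.1 u.2 w.2 (by rw [norm_eq]; exact nu) (by rw [norm_eq]; exact nw)
        (by
          have h3 : ∫ U, u.1 U * w.1 U ∂(Measure.pi fun _ : Link D l => μ) =
            (ld B).I μ (u * w) := rfl
          rw [h3]; exact uw) (E0 + 2 * δ / (1 - c)) (by
          intro a b hab
          have e1 : (fun U => a * u.1 U + b * w.1 U) = (a • u + b • w).1 := rfl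
          rw [e1]
          have e2 : a • u + b • w = (a - b * (d * c)) • u + (b * d) • v' := by
            have e0 : a - b * (d * c) = a + b * (-(d * c)) := by ring
            rw [hw, e0]
            exact comb_eq u v' a b (-(d * c)) d
          have e3 : (ld B).I μ ((a • u + b • w) * (a • u + b • w)) = 1 := by
            rw [e2, ncomb, ← hab]
            have : (a - b * (d * c)) ^ 2 + 2 * (a - b * (d * c)) * (b * d) * c + (b * d) ^ 2 =
              a ^ 2 + b ^ 2 * (d ^ 2 * (1 - c ^ 2)) := by ring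
            rw [this, hdd, mul_one]
          have e4 := hq (a • u + b • w)
          rw [e3, mul_one] at e4
          have e5 := enr_par S g V E0 hpos u v' (a - b * (d * c)) (b * d)
          rw [← e2] at e5
          have e6 : (a - b * (d * c)) ^ 2 + (b * d) ^ 2 ≤ 1 / (1 - c) := by
            rw [le_div_iff₀ h1c]
            have e7 := ncomb (a - b * (d * c)) (b * d)
            rw [← e2, e3] at e7
            exact ab_bound hc0 e7
          have e9 : 2 * (a - b * (d * c)) ^ 2 * S.enr g V E0 u u ≤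
              2 * (a - b * (d * c)) ^ 2 * δ := mul_le_mul_of_nonneg_left qu (by positivity)
          have e10 : 2 * (b * d) ^ 2 * S.enr g V E0 v' v' ≤ 2 * (b * d) ^ 2 * δ :=
            mul_le_mul_of_nonneg_left qv' (by positivity)
          have e11 : 2 * δ * ((a - b * (d * c)) ^ 2 + (b * d) ^ 2) ≤ 2 * δ * (1 / (1 - c)) :=
            mul_le_mul_of_nonneg_left e6 (by positivity)
          have e12 : 2 * δ * (1 / (1 - c)) = 2 * δ / (1 - c) := by ring
          linarith only [e4, e5, e9, e10, e11, e12])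
      have h3 : Δ ≤ 2 * δ / (1 - c) := by linarith only [h2]
      rwa [le_div_iff₀ h1c] at h3
  -- the difference of the expectations
  have hX : ∫ U, (u - v').1 U ^ 2 ∂(Measure.pi fun _ : Link D l => μ) ≤ 4 * (δ / Δ) := by
    rw [norm_eq]
    have h1 : u - v' = (1 : ℝ) • u + (-1 : ℝ) • v' := by
      rw [one_smul, neg_one_smul, sub_eq_add_neg]
    rw [h1, ncomb]
    have h2 : 1 - c ≤ 2 * δ / Δ := by rw [le_div_iff₀ hΔ]; linarith
    have h3 : 2 * δ / Δ = 2 * (δ / Δ) := by ring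
    linarith
  have hY : ∫ U, (u + v').1 U ^ 2 ∂(Measure.pi fun _ : Link D l => μ) ≤ 4 := by
    rw [norm_eq]
    have h1 : u + v' = (1 : ℝ) • u + (1 : ℝ) • v' := by
      rw [one_smul, one_smul]
    rw [h1, ncomb]
    linarith
  have hcs := cs_bound μ (YM.Sm_cont (u - v')) (YM.Sm_cont (u + v')) hF hM
  have hX0 : 0 ≤ ∫ U, (u - v').1 U ^ 2 ∂(Measure.pi fun _ : Link D l => μ) :=
    integral_nonneg fun U => sq_nonneg _
  have hY0 : 0 ≤ ∫ U, (u + v').1 U ^ 2 ∂(Measure.pi fun _ : Link D l => μ) :=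
    integral_nonneg fun U => sq_nonneg _
  have hdiff : ex μ Ψ F - ex μ Φ F =
      ∫ U, F U * ((u - v').1 U * (u + v').1 U) ∂(Measure.pi fun _ : Link D l => μ) := by
    unfold ex
    have i1 : Integrable (fun U => F U * Ψ U ^ 2) (Measure.pi fun _ : Link D l => μ) := by
      rw [← hu]; exact YM.integrable_cont μ (hF.mul ((YM.Sm_cont u).pow 2))
    have i2 : Integrable (fun U => F U * Φ U ^ 2) (Measure.pi fun _ : Link D l => μ) := by
      rw [← hv]; exact YM.integrable_cont μ (hF.mul ((YM.Sm_cont v).pow 2))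
    rw [← integral_sub i1 i2]
    refine integral_congr_ae (Filter.Eventually.of_forall fun U => ?_)
    have e1 : (u - v').1 U = Ψ U - s * Φ U := by rw [hv', ← hu, ← hv]; rfl
    have e2 : (u + v').1 U = Ψ U + s * Φ U := by rw [hv', ← hu, ← hv]; rfl
    show F U * Ψ U ^ 2 - F U * Φ U ^ 2 = F U * ((u - v').1 U * (u + v').1 U)
    rw [e1, e2]
    have e3 : (Ψ U - s * Φ U) * (Ψ U + s * Φ U) = Ψ U ^ 2 - s ^ 2 * Φ U ^ 2 := by ring
    rw [e3, hs]; ring
  rw [hdiff]
  have hδΔ : 0 ≤ δ / Δ := by positivity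
  have hfin : (∫ U, F U * ((u - v').1 U * (u + v').1 U)
      ∂(Measure.pi fun _ : Link D l => μ)) ^ 2 ≤ (4 * M * Real.sqrt (δ / Δ)) ^ 2 := by
    refine hcs.trans ?_
    have e1 : (4 * M * Real.sqrt (δ / Δ)) ^ 2 = 4 * (δ / Δ) * (M ^ 2 * 4) := by
      rw [mul_pow, Real.sq_sqrt hδΔ]; ring
    rw [e1]
    exact mul_le_mul hX (mul_le_mul_of_nonneg_left hY (sq_nonneg M))
      (mul_nonneg (sq_nonneg M) hY0) (by positivity)
  exact abs_le_of_sq_le_sq hfin (by positivity)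

end

end

end Pool.Agent.YMI
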