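import Mathlib
import Pool.Agent.YMI.Bridge

/-!
# The Poincaré inequality for functions of low energy
-/

open MeasureTheory Matrix
open scoped ContDiff Matrix.Norms.Frobenius

namespace Pool.Agent.YMI

set_option linter.unusedSectionVars false

noncomputable section

section abs

open Pool.Agent.H906R3 YM

variable {A : Type*} [CommRing A] [Algebra ℝ A] {P J : Type*} [Fintype J] (S : YM.Fn A P J)

/-- expansion of the energy form on a combination of two elements -/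
lemma enr_combB (g : ℝ) (V : A) (E0 : ℝ) (u v : A) (a b : ℝ) :
    S.enr g V E0 (a • u + b • v) (a • u + b • v) =
      a ^ 2 * S.enr g V E0 u u + 2 * (a * b) * S.enr g V E0 u v + b ^ 2 * S.enr g V E0 v v := by
  have h1 := S.enr_symm g V E0 v u
  have h2 : S.enr g V E0 (a • u + b • v) (a • u + b • v) =
      a ^ 2 * S.enr g V E0 u u + a * b * S.enr g V E0 u v + a * b * S.enr g V E0 v u +
        b ^ 2 * S.enr g V E0 v v := by
    unfold YM.Fn.enr
    rw [YM.Fn.HH_add, YM.HH_smul, YM.HH_smul]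
    have : (a • u + b • v) * (a • YM.HH S.D g V u + b • YM.HH S.D g V v - E0 • (a • u + b • v)) =
        (a ^ 2) • (u * (YM.HH S.D g V u - E0 • u)) + (a * b) • (u * (YM.HH S.D g V v - E0 • v)) +
          (a * b) • (v * (YM.HH S.D g V u - E0 • u)) +
            (b ^ 2) • (v * (YM.HH S.D g V v - E0 • v)) := by
      simp only [Algebra.smul_def, map_pow, map_mul]; ring
    rw [this]
    simp only [map_add, map_smul, smul_eq_mul]
  rw [h2, h1]; ring

lemma I_le_of {u v w : A} {C : ℝ} (h : ∀ x, S.ev x u ≤ C * S.ev x v) : S.I u ≤ C * S.I v := by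
  have h1 := S.I_mono u (C • v) (fun x => by rw [map_smul, smul_eq_mul]; exact h x)
  rwa [map_smul, smul_eq_mul] at h1

/-- the Poincaré inequality, abstract form -/
theorem abs_poincare {g : ℝ} (hg : 0 < g) {V : A} (hV : ∀ x, 0 ≤ S.ev x V) {E0 Δ : ℝ}
    (hE0 : 0 ≤ E0) (hpos : ∀ u : A, 0 ≤ S.enr g V E0 u u)
    (hgap : ∀ u v : A, S.I (u * u) = 1 → S.I (v * v) = 1 → S.I (u * v) = 0 → ∀ E : ℝ,
      (∀ a b : ℝ, a ^ 2 + b ^ 2 = 1 →
        S.enr g V E0 (a • u + b • v) (a • u + b • v) ≤ E) → Δ ≤ E)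
    {w : A} (hw1 : S.I (w * w) = 1) {δ : ℝ} (hδ : 0 ≤ δ) (hδ1 : δ ≤ 1)
    (hw : S.enr g V E0 w w ≤ δ) {f : A} {M c : ℝ} (hM0 : 0 ≤ M) (hM : ∀ x, |S.ev x f| ≤ M)
    (hc : ∀ x, S.ev x (YM.Gam S.D f f) ≤ c ^ 2) :
    Δ * (S.I (f * f * (w * w)) - S.I (f * (w * w)) ^ 2) ≤
      g ^ 2 / 2 * S.I (YM.Gam S.D f f * (w * w)) +
        (δ * M ^ 2 + √((32 * M ^ 4 * (E0 + 1) + 16 * g ^ 2 * M ^ 2 * c ^ 2) * δ)) := by
  obtain ⟨K, hK⟩ : ∃ K, K = 32 * M ^ 4 * (E0 + 1) + 16 * g ^ 2 * M ^ 2 * c ^ 2 := ⟨_, rfl⟩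
  rw [← hK]
  have hK0 : 0 ≤ K := by rw [hK]; positivity
  have hg2 : 0 < g ^ 2 := by positivity
  obtain ⟨m, hm⟩ : ∃ m, m = S.I (f * (w * w)) := ⟨_, rfl⟩
  have hww : ∀ x, 0 ≤ S.ev x (w * w) := fun x => by rw [map_mul]; exact mul_self_nonneg _
  have hmM : |m| ≤ M := by
    rw [abs_le]
    constructor
    · have h1 := S.I_mono ((-M) • (w * w)) (f * (w * w)) (fun x => by
        rw [map_smul, smul_eq_mul, map_mul _ f]
        exact mul_le_mul_of_nonneg_right (abs_le.1 (hM x)).1 (hww x))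
      rw [map_smul, smul_eq_mul, hw1, mul_one, ← hm] at h1
      exact h1
    · have h1 := S.I_mono (f * (w * w)) (M • (w * w)) (fun x => by
        rw [map_smul, smul_eq_mul, map_mul _ f]
        exact mul_le_mul_of_nonneg_right (abs_le.1 (hM x)).2 (hww x))
      rw [map_smul, smul_eq_mul, hw1, mul_one, ← hm] at h1
      exact h1
  obtain ⟨F, hF⟩ : ∃ F : A, F = f - m • (1 : A) := ⟨_, rfl⟩
  have hGF : YM.Gam S.D F F = YM.Gam S.D f f := by
    rw [hF, YM.Gam_sub_const, YM.Gam_comm, YM.Gam_sub_const]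
  have hevF : ∀ x, |S.ev x F| ≤ 2 * M := by
    intro x
    rw [hF, map_sub, map_smul, map_one, smul_eq_mul, mul_one]
    calc |S.ev x f - m| ≤ |S.ev x f| + |m| := abs_sub _ _
      _ ≤ 2 * M := by linarith [hM x]
  have hevF2 : ∀ x, S.ev x F ^ 2 ≤ 4 * M ^ 2 := by
    intro x
    have := sq_le_sq' (by linarith [neg_abs_le (S.ev x F), hevF x]) ((le_abs_self _).trans (hevF x))
    linarith
  have hevF4 : ∀ x, S.ev x F ^ 4 ≤ 16 * M ^ 4 := by
    intro x
    have h1 := pow_le_pow_left₀ (sq_nonneg (S.ev x F)) (hevF2 x) 2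
    have h2 : (S.ev x F ^ 2) ^ 2 = S.ev x F ^ 4 := by ring
    rw [← h2]
    linarith
  -- the variance
  have hvar : S.I (F * F * (w * w)) = S.I (f * f * (w * w)) - m ^ 2 := by
    have h1 : F * F * (w * w) = f * f * (w * w) - (2 * m) • (f * (w * w)) + (m ^ 2) • (w * w) := by
      rw [hF]
      simp only [Algebra.smul_def, map_mul, map_pow, map_ofNat]; ring
    rw [h1, map_add, map_sub, map_smul, map_smul, hw1, ← hm, smul_eq_mul, smul_eq_mul]; ring
  have hFw : S.I (w * (F * w)) = 0 := by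
    have h1 : w * (F * w) = f * (w * w) - m • (w * w) := by
      rw [hF]
      simp only [Algebra.smul_def]; ring
    rw [h1, map_sub, map_smul, hw1, ← hm, smul_eq_mul]; ring
  obtain ⟨Z, hZ⟩ : ∃ Z, Z = S.I (F * F * (w * w)) := ⟨_, rfl⟩
  rw [← hm, ← hvar, ← hZ]
  have hZe : S.I (F * w * (F * w)) = Z := by
    rw [hZ]; congr 1; ring
  have hZ0 : 0 ≤ Z := by rw [← hZe]; exact S.sq_nonneg' _
  have hZM : Z ≤ M ^ 2 := by
    have h1 : S.I (f * f * (w * w)) ≤ M ^ 2 := by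
      have h2 := S.I_mono (f * f * (w * w)) ((M ^ 2) • (w * w)) (fun x => by
        rw [map_smul, smul_eq_mul, map_mul _ (f * f), map_mul _ f f]
        refine mul_le_mul_of_nonneg_right ?_ (hww x)
        have := sq_le_sq' (by linarith [neg_abs_le (S.ev x f), hM x])
          ((le_abs_self _).trans (hM x))
        rwa [← sq])
      rwa [map_smul, smul_eq_mul, hw1, mul_one] at h2
    have h3 := sq_nonneg m
    rw [hZ, hvar]; linarith
  have hGam0 : 0 ≤ S.I (YM.Gam S.D f f * (w * w)) := by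
    refine S.I_nonneg fun x => ?_
    rw [map_mul]
    refine mul_nonneg ?_ (hww x)
    unfold YM.Gam
    rw [map_sum]
    exact Finset.sum_nonneg fun j _ => by rw [map_mul]; exact mul_self_nonneg _
  -- energy of `F * F * w`
  have hbig : S.enr g V E0 (F * F * w) (F * F * w) ≤ K := by
    have hG : S.I (YM.Gam S.D (F * F * w) (F * F * w)) ≤
        32 * M ^ 4 * S.I (YM.Gam S.D w w) + 32 * M ^ 2 * c ^ 2 := by
      have h1 := S.I_mono (YM.Gam S.D (F * F * w) (F * F * w))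
        ((32 * M ^ 4) • YM.Gam S.D w w + (32 * M ^ 2 * c ^ 2) • (w * w)) (fun x => by
        have hj : ∀ j, S.ev x (S.D j (F * F * w)) ^ 2 ≤
            2 * S.ev x F ^ 4 * S.ev x (S.D j w) ^ 2 +
              8 * (S.ev x F ^ 2 * S.ev x w ^ 2) * S.ev x (S.D j F) ^ 2 := by
          intro j
          have e : S.ev x (S.D j (F * F * w)) = S.ev x F ^ 2 * S.ev x (S.D j w) +
              2 * (S.ev x F * S.ev x w) * S.ev x (S.D j F) := by
            rw [Derivation.leibniz, Derivation.leibniz]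
            simp only [smul_eq_mul, map_add, map_mul]; ring
          rw [e]
          nlinarith [sq_nonneg (S.ev x F ^ 2 * S.ev x (S.D j w) -
              2 * (S.ev x F * S.ev x w) * S.ev x (S.D j F))]
        have hGe : ∀ u : A, S.ev x (YM.Gam S.D u u) = ∑ j, S.ev x (S.D j u) ^ 2 := by
          intro u
          unfold YM.Gam
          rw [map_sum]
          exact Finset.sum_congr rfl fun j _ => by rw [map_mul, sq]
        rw [map_add, map_smul, map_smul, smul_eq_mul, smul_eq_mul, hGe, map_mul _ w w]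
        have h2 : ∑ j, S.ev x (S.D j (F * F * w)) ^ 2 ≤
            2 * S.ev x F ^ 4 * S.ev x (YM.Gam S.D w w) +
              8 * (S.ev x F ^ 2 * S.ev x w ^ 2) * S.ev x (YM.Gam S.D F F) := by
          rw [hGe, hGe, Finset.mul_sum, Finset.mul_sum, ← Finset.sum_add_distrib]
          exact Finset.sum_le_sum fun j _ => hj j
        refine h2.trans ?_
        have hGw0 : 0 ≤ S.ev x (YM.Gam S.D w w) := by
          rw [hGe]; exact Finset.sum_nonneg fun j _ => sq_nonneg _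
        have h3 : 2 * S.ev x F ^ 4 * S.ev x (YM.Gam S.D w w) ≤
            32 * M ^ 4 * S.ev x (YM.Gam S.D w w) :=
          mul_le_mul_of_nonneg_right (by linarith [hevF4 x]) hGw0
        have h4 : 8 * (S.ev x F ^ 2 * S.ev x w ^ 2) * S.ev x (YM.Gam S.D F F) ≤
            8 * (4 * M ^ 2 * S.ev x w ^ 2) * c ^ 2 := by
          have h5 := hc x
          rw [← hGF] at h5
          have h6 : 0 ≤ S.ev x (YM.Gam S.D F F) := by
            rw [hGe]; exact Finset.sum_nonneg fun j _ => sq_nonneg _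
          refine mul_le_mul ?_ h5 h6 (by positivity)
          have := mul_le_mul_of_nonneg_right (hevF2 x) (sq_nonneg (S.ev x w))
          linarith
        have h7 : 8 * (4 * M ^ 2 * S.ev x w ^ 2) * c ^ 2 =
            32 * M ^ 2 * c ^ 2 * (S.ev x w * S.ev x w) := by ring
        linarith)
      rw [map_add, map_smul, map_smul, smul_eq_mul, smul_eq_mul, hw1, mul_one] at h1
      exact h1
    have hP : S.I (V * (F * F * w * (F * F * w))) ≤ 16 * M ^ 4 * S.I (V * (w * w)) := by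
      have h1 := S.I_mono (V * (F * F * w * (F * F * w))) ((16 * M ^ 4) • (V * (w * w)))
        (fun x => by
          rw [map_smul, smul_eq_mul]
          simp only [map_mul]
          have h2 := mul_le_mul_of_nonneg_right (hevF4 x)
            (mul_nonneg (hV x) (mul_self_nonneg (S.ev x w)))
          have h3 : S.ev x V * (S.ev x F * S.ev x F * S.ev x w * (S.ev x F * S.ev x F * S.ev x w)) =
              S.ev x F ^ 4 * (S.ev x V * (S.ev x w * S.ev x w)) := by ring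
          rw [h3]; exact h2)
      rwa [map_smul, smul_eq_mul] at h1
    have h1 := S.enr_eq g V E0 (F * F * w) (F * F * w)
    have h2 := S.enr_eq g V E0 w w
    rw [hw1, mul_one] at h2
    have h3 : 0 ≤ S.I (F * F * w * (F * F * w)) := S.sq_nonneg' _
    have h4 : 0 ≤ E0 * S.I (F * F * w * (F * F * w)) := mul_nonneg hE0 h3
    have h5 : g ^ 2 / 2 * S.I (YM.Gam S.D (F * F * w) (F * F * w)) ≤
        g ^ 2 / 2 * (32 * M ^ 4 * S.I (YM.Gam S.D w w) + 32 * M ^ 2 * c ^ 2) :=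
      mul_le_mul_of_nonneg_left hG (by positivity)
    have h6 : 1 / g ^ 2 * S.I (V * (F * F * w * (F * F * w))) ≤
        1 / g ^ 2 * (16 * M ^ 4 * S.I (V * (w * w))) :=
      mul_le_mul_of_nonneg_left hP (by positivity)
    have hVw : 0 ≤ S.I (V * (w * w)) := S.I_nonneg fun x => by
      rw [map_mul]; exact mul_nonneg (hV x) (hww x)
    have h7 : 0 ≤ 1 / g ^ 2 * (16 * M ^ 4 * S.I (V * (w * w))) := by positivity
    have h8 : 32 * M ^ 4 * (g ^ 2 / 2 * S.I (YM.Gam S.D w w) + 1 / g ^ 2 * S.I (V * (w * w))) ≤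
        32 * M ^ 4 * (E0 + 1) :=
      mul_le_mul_of_nonneg_left (by linarith) (by positivity)
    rw [h1, hK]
    have h9 : g ^ 2 / 2 * (32 * M ^ 4 * S.I (YM.Gam S.D w w) + 32 * M ^ 2 * c ^ 2) +
        1 / g ^ 2 * (16 * M ^ 4 * S.I (V * (w * w))) =
        32 * M ^ 4 * (g ^ 2 / 2 * S.I (YM.Gam S.D w w) + 1 / g ^ 2 * S.I (V * (w * w))) +
          16 * g ^ 2 * M ^ 2 * c ^ 2 - 1 / g ^ 2 * (16 * M ^ 4 * S.I (V * (w * w))) := by
      ring
    linarith
  -- energy of `F * w`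
  have hcross : |S.enr g V E0 (F * F * w) w| ≤ √(K * δ) := by
    refine Real.abs_le_sqrt ?_
    refine (S.enr_cs g V E0 hpos _ _).trans ?_
    exact mul_le_mul hbig hw (hpos w) hK0
  have hFwE : S.enr g V E0 (F * w) (F * w) ≤
      g ^ 2 / 2 * S.I (YM.Gam S.D f f * (w * w)) + √(K * δ) := by
    rw [YM.enr_mul_mul2, hGF]
    have h1 : S.I (F * w * F * (YM.HH S.D g V w - E0 • w)) = S.enr g V E0 (F * F * w) w := by
      unfold YM.Fn.enr
      congr 1; ring
    rw [h1]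
    linarith [le_abs_self (S.enr g V E0 (F * F * w) w)]
  rcases hZ0.eq_or_lt with h0 | h0
  · rw [← h0, mul_zero]
    have := mul_nonneg hδ (sq_nonneg M)
    have := Real.sqrt_nonneg (K * δ)
    positivity
  · obtain ⟨s, hs⟩ : ∃ s, s = (√Z)⁻¹ := ⟨_, rfl⟩
    have hs2 : s ^ 2 * Z = 1 := by
      rw [hs, inv_pow, Real.sq_sqrt h0.le, inv_mul_cancel₀ h0.ne']
    have hv1 : S.I (s • (F * w) * (s • (F * w))) = 1 := by
      rw [smul_mul_assoc, mul_smul_comm, map_smul, map_smul, smul_eq_mul, smul_eq_mul, hZe,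
        ← hs2]
      ring
    have hv2 : S.I (w * (s • (F * w))) = 0 := by
      rw [mul_smul_comm, map_smul, hFw, smul_zero]
    have h1 := hgap w (s • (F * w)) hw1 hv1 hv2 (δ + s ^ 2 * S.enr g V E0 (F * w) (F * w)) (by
      intro a b hab
      rw [smul_smul, enr_combB]
      have hcs := S.enr_cs g V E0 hpos w (F * w)
      obtain ⟨p, hp⟩ : ∃ p, p = S.enr g V E0 w w := ⟨_, rfl⟩
      obtain ⟨q, hq⟩ : ∃ q, q = S.enr g V E0 (F * w) (F * w) := ⟨_, rfl⟩
      obtain ⟨r, hr⟩ : ∃ r, r = S.enr g V E0 w (F * w) := ⟨_, rfl⟩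
      have hp0 : 0 ≤ p := by rw [hp]; exact hpos _
      have hq0 : 0 ≤ q := by rw [hq]; exact hpos _
      have hpδ : p ≤ δ := by rw [hp]; exact hw
      rw [← hp, ← hq, ← hr] at hcs ⊢
      -- `2 a b s r ≤ b² p + a² s² q`
      have hpq : 2 * (a * (b * s)) * r ≤ b ^ 2 * p + a ^ 2 * (s ^ 2 * q) := by
        have h2 : (a * b * s * r) ^ 2 ≤ (b ^ 2 * p) * (a ^ 2 * (s ^ 2 * q)) := by
          have := mul_le_mul_of_nonneg_left hcs (sq_nonneg (a * b * s))
          calc (a * b * s * r) ^ 2 = (a * b * s) ^ 2 * r ^ 2 := by ring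
            _ ≤ (a * b * s) ^ 2 * (p * q) := this
            _ = _ := by ring
        have h3 : 0 ≤ b ^ 2 * p := by positivity
        have h4 : 0 ≤ a ^ 2 * (s ^ 2 * q) := by positivity
        have h5 : (2 * (a * b * s * r)) ^ 2 ≤ (b ^ 2 * p + a ^ 2 * (s ^ 2 * q)) ^ 2 := by
          nlinarith [sq_nonneg (b ^ 2 * p - a ^ 2 * (s ^ 2 * q))]
        have h6 := abs_le_of_sq_le_sq' h5 (by positivity)
        linarith [h6.2]
      have hb2 : b ^ 2 = 1 - a ^ 2 := by linarith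
      have h7 : a ^ 2 * p + 2 * (a * (b * s)) * r + (b * s) ^ 2 * q ≤ p + s ^ 2 * q := by
        have : a ^ 2 * p + (b ^ 2 * p + a ^ 2 * (s ^ 2 * q)) + (b * s) ^ 2 * q =
            (a ^ 2 + b ^ 2) * (p + s ^ 2 * q) := by ring
        rw [hab, one_mul] at this
        linarith
      linarith)
    have h2 : Δ * Z ≤ (δ + s ^ 2 * S.enr g V E0 (F * w) (F * w)) * Z :=
      mul_le_mul_of_nonneg_right h1 hZ0
    have h3 : (δ + s ^ 2 * S.enr g V E0 (F * w) (F * w)) * Z =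
        δ * Z + S.enr g V E0 (F * w) (F * w) := by
      have : (δ + s ^ 2 * S.enr g V E0 (F * w) (F * w)) * Z =
        δ * Z + (s ^ 2 * Z) * S.enr g V E0 (F * w) (F * w) := by ring
      rw [this, hs2, one_mul]
    have h4 : δ * Z ≤ δ * M ^ 2 := mul_le_mul_of_nonneg_left hZM hδ
    linarith

end abs

section main

open Pool.Agent.H906R3

variable {N n D : ℕ} {G : Subgroup (UU N)} [CompactSpace G] [SecondCountableTopology G]
  [MeasurableSpace G] [BorelSpace G] (μ : Measure G) [IsProbabilityMeasure μ] [μ.IsHaarMeasure]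
  {l : ℕ} [NeZero l] (B : LieBasis G n) {g Δ : ℝ}

/-- The Poincaré inequality, up to a small error, for functions of low energy. -/
theorem poincare (hg : 0 < g) (hΔ : 0 < Δ)
    (hgap : ∀ Ψ Φ : (Link D l → G) → ℝ, IsSmooth Ψ → IsSmooth Φ →
      ∫ U, Ψ U ^ 2 ∂(Measure.pi fun _ : Link D l => μ) = 1 →
      ∫ U, Φ U ^ 2 ∂(Measure.pi fun _ : Link D l => μ) = 1 →
      ∫ U, Ψ U * Φ U ∂(Measure.pi fun _ : Link D l => μ) = 0 →
      ∀ E : ℝ, (∀ a b : ℝ, a ^ 2 + b ^ 2 = 1 →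
        energy B μ g (fun U => a * Ψ U + b * Φ U) ≤ E) → groundEnergy D l B μ g + Δ ≤ E)
    (hE0 : ∀ F : (Link D l → G) → ℝ, IsSmooth F → groundEnergy D l B μ g *
      ∫ U, F U ^ 2 ∂(Measure.pi fun _ : Link D l => μ) ≤ energy B μ g F)
    (M c : ℝ) {ε : ℝ} (hε : 0 < ε) : ∃ δ : ℝ, 0 < δ ∧
      ∀ Ψ : (Link D l → G) → ℝ, Low B μ g l δ Ψ → ∀ F : (Link D l → G) → ℝ, IsSmooth F →
      (∀ U, |F U| ≤ M) → (∀ U, ∑ e, ∑ a, dlink B e a F U ^ 2 ≤ c ^ 2) →
      Δ * (ex μ Ψ (fun U => F U ^ 2) - ex μ Ψ F ^ 2) ≤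
        g ^ 2 / 2 * ex μ Ψ (fun U => ∑ e, ∑ a, dlink B e a F U ^ 2) + ε := by
  obtain ⟨E0, hE⟩ : ∃ E0, E0 = groundEnergy D l B μ g := ⟨_, rfl⟩
  rw [← hE] at hgap hE0
  have hE00 : 0 ≤ E0 := by rw [hE]; exact ground_nonneg μ B g
  have hpos : ∀ u : YM.Sm (ld B) (Link D l),
      0 ≤ (YM.fnE (ld B) μ (Link D l)).enr g (YM.VT (ld B) D l) E0 u u := by
    intro u
    rw [enr_eq']
    have h := hE0 u.1 u.2
    rw [norm_eq] at h
    linarith
  have hgap' : ∀ u v : YM.Sm (ld B) (Link D l), (ld B).I μ (u * u) = 1 →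
      (ld B).I μ (v * v) = 1 → (ld B).I μ (u * v) = 0 → ∀ E : ℝ,
      (∀ a b : ℝ, a ^ 2 + b ^ 2 = 1 → (YM.fnE (ld B) μ (Link D l)).enr g (YM.VT (ld B) D l) E0
        (a • u + b • v) (a • u + b • v) ≤ E) → Δ ≤ E := by
    intro u v hu hv huv E hE'
    have h1 := hgap u.1 v.1 u.2 v.2 (by rw [norm_eq]; exact hu) (by rw [norm_eq]; exact hv)
      huv (E0 + E) (by
        intro a b hab
        have h2 := hE' a b hab
        rw [enr_eq'] at h2
        have h3 : (ld B).I μ ((a • u + b • v) * (a • u + b • v)) = 1 := by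
          have h4 : (a • u + b • v) * (a • u + b • v) =
              (a ^ 2) • (u * u) + (2 * (a * b)) • (u * v) + (b ^ 2) • (v * v) := by
            simp only [Algebra.smul_def, map_mul, map_pow, map_ofNat]; ring
          rw [h4, map_add, map_add, map_smul, map_smul, map_smul, hu, hv, huv, smul_zero,
            smul_eq_mul, smul_eq_mul, mul_one, mul_one, add_zero]
          exact hab
        rw [h3, mul_one] at h2
        have h5 : energy B μ g (a • u + b • v).1 = energy B μ g (fun U => a * u.1 U + b * v.1 U) :=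
          rfl
        rw [← h5]
        linarith)
    linarith
  have hV : ∀ U, 0 ≤ (ld B).ev U (YM.VT (ld B) D l) := fun U => by
    rw [YM.VT_apply]
    exact Finset.sum_nonneg fun _ _ => YM.we_nonneg _
  obtain ⟨K, hK⟩ : ∃ K, K = 32 * M ^ 4 * (E0 + 1) + 16 * g ^ 2 * M ^ 2 * c ^ 2 := ⟨_, rfl⟩
  have hK0 : 0 ≤ K := by rw [hK]; positivity
  obtain ⟨δ, hδ⟩ : ∃ δ, δ = min 1 (min (ε / (2 * (M ^ 2 + 1))) (ε ^ 2 / (4 * (K + 1)))) :=
    ⟨_, rfl⟩
  have hδ0 : 0 < δ := by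
    rw [hδ]
    refine lt_min one_pos (lt_min ?_ ?_) <;> positivity
  have hδ1 : δ ≤ 1 := by rw [hδ]; exact min_le_left _ _
  have hδ2 : δ ≤ ε / (2 * (M ^ 2 + 1)) := by
    rw [hδ]; exact (min_le_right _ _).trans (min_le_left _ _)
  have hδ3 : δ ≤ ε ^ 2 / (4 * (K + 1)) := by
    rw [hδ]; exact (min_le_right _ _).trans (min_le_right _ _)
  have hsmall : δ * M ^ 2 + √(K * δ) ≤ ε := by
    have h1 : δ * M ^ 2 ≤ ε / 2 := by
      have h2 : δ * (2 * (M ^ 2 + 1)) ≤ ε := by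
        rwa [le_div_iff₀ (by positivity)] at hδ2
      nlinarith
    have h3 : √(K * δ) ≤ ε / 2 := by
      refine Real.sqrt_le_iff.2 ⟨by positivity, ?_⟩
      rw [le_div_iff₀ (by positivity)] at hδ3
      nlinarith
    linarith
  refine ⟨δ, hδ0, fun Ψ hΨ F hF hM hc => ?_⟩
  obtain ⟨w, hw⟩ : ∃ w : YM.Sm (ld B) (Link D l), w.1 = Ψ := ⟨⟨Ψ, hΨ.smooth⟩, rfl⟩
  obtain ⟨f, hf⟩ : ∃ f : YM.Sm (ld B) (Link D l), f.1 = F := ⟨⟨F, hF⟩, rfl⟩
  subst hw
  subst hf
  have hM0 : 0 ≤ M := (abs_nonneg _).trans (hM 1)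
  have hGe : ∀ U, (ld B).ev U (YM.Gam (ld B).Dv f f) = ∑ e, ∑ a, dlink B e a f.1 U ^ 2 := by
    intro U
    unfold YM.Gam
    rw [map_sum]
    refine Eq.trans (Fintype.sum_prod_type fun j : Link D l × Fin n =>
      (ld B).ev U ((ld B).Dv j f * (ld B).Dv j f)) ?_
    refine Finset.sum_congr rfl fun e _ => Finset.sum_congr rfl fun a _ => ?_
    rw [map_mul, dlink_eq, sq]
    rfl
  have hnorm : (ld B).I μ (w * w) = 1 := by
    rw [← norm_eq]; exact hΨ.norm
  have hlow : (YM.fnE (ld B) μ (Link D l)).enr g (YM.VT (ld B) D l) E0 w w ≤ δ := by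
    rw [enr_eq', hnorm, mul_one]
    have := hΨ.low
    rw [← hE] at this
    linarith
  have h := abs_poincare (YM.fnE (ld B) μ (Link D l)) hg (V := YM.VT (ld B) D l) hV hE00 hpos
    (Δ := Δ) hgap' (w := w) hnorm hδ0.le hδ1 hlow (f := f) hM0 (M := M) (fun U => hM U) (c := c)
    (fun U => by
      have := hGe U
      show (ld B).ev U (YM.Gam (ld B).Dv f f) ≤ c ^ 2
      rw [this]; exact hc U)
  have e1 : ex μ w.1 (fun U => f.1 U ^ 2) = (ld B).I μ (f * f * (w * w)) := by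
    unfold ex
    rw [YM.I_apply]
    refine integral_congr_ae (Filter.Eventually.of_forall fun U => ?_)
    show f.1 U ^ 2 * w.1 U ^ 2 = f.1 U * f.1 U * (w.1 U * w.1 U)
    ring
  have e2 : ex μ w.1 f.1 = (ld B).I μ (f * (w * w)) := by
    unfold ex
    rw [YM.I_apply]
    refine integral_congr_ae (Filter.Eventually.of_forall fun U => ?_)
    show f.1 U * w.1 U ^ 2 = f.1 U * (w.1 U * w.1 U)
    ring
  have e3 : ex μ w.1 (fun U => ∑ e, ∑ a, dlink B e a f.1 U ^ 2) =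
      (ld B).I μ (YM.Gam (ld B).Dv f f * (w * w)) := by
    unfold ex
    rw [YM.I_apply]
    refine integral_congr_ae (Filter.Eventually.of_forall fun U => ?_)
    show (∑ e, ∑ a, dlink B e a f.1 U ^ 2) * w.1 U ^ 2 =
      (ld B).ev U (YM.Gam (ld B).Dv f f) * (w.1 U * w.1 U)
    rw [hGe, sq]
  rw [e1, e2, e3]
  rw [← hK] at h
  refine le_trans h ?_
  exact add_le_add_right hsmall _

end main

end

end Pool.Agent.YMI
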