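import Mathlib
import Pool.Agent.YMI.Bridge

/-!
# Consequences of the gap: low energy functions are close to each other, Poincaré inequality
-/

open MeasureTheory Matrix
open scoped ContDiff Matrix.Norms.Frobenius

namespace Pool.Agent.YMI

set_option linter.unusedSectionVars false

noncomputable section

variable {N n D : ℕ} {G : Subgroup (UU N)} [CompactSpace G] [SecondCountableTopology G]
  [MeasurableSpace G] [BorelSpace G] (μ : Measure G) [IsProbabilityMeasure μ] [μ.IsHaarMeasure]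
  {l : ℕ} [NeZero l] (B : LieBasis G n) {g Δ : ℝ}

/-- Two functions of low energy give almost the same expectations. -/
theorem closeness (hg : 0 < g) (hΔ : 0 < Δ)
    (hgap : ∀ Ψ Φ : (Link D l → G) → ℝ, IsSmooth Ψ → IsSmooth Φ →
      ∫ U, Ψ U ^ 2 ∂(Measure.pi fun _ : Link D l => μ) = 1 →
      ∫ U, Φ U ^ 2 ∂(Measure.pi fun _ : Link D l => μ) = 1 →
      ∫ U, Ψ U * Φ U ∂(Measure.pi fun _ : Link D l => μ) = 0 →
      ∀ E : ℝ, (∀ a b : ℝ, a ^ 2 + b ^ 2 = 1 →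
        energy B μ g (fun U => a * Ψ U + b * Φ U) ≤ E) → groundEnergy D l B μ g + Δ ≤ E)
    (hE0 : ∀ F : (Link D l → G) → ℝ, IsSmooth F → groundEnergy D l B μ g *
      ∫ U, F U ^ 2 ∂(Measure.pi fun _ : Link D l => μ) ≤ energy B μ g F)
    {δ : ℝ} (hδ : 0 ≤ δ) {Ψ Φ : (Link D l → G) → ℝ} (hΨ : Low B μ g l δ Ψ) (hΦ : Low B μ g l δ Φ)
    {F : (Link D l → G) → ℝ} {M : ℝ} (hF : Continuous F) (hM : ∀ U, |F U| ≤ M) :
    |ex μ Ψ F - ex μ Φ F| ≤ 4 * M * Real.sqrt (δ / Δ) := by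
  sorry

/-- The Poincaré inequality, up to a small error, for functions of low energy. -/
theorem poincare (hg : 0 < g) (hΔ : 0 < Δ)
    (hgap : ∀ Ψ Φ : (Link D l → G) → ℝ, IsSmooth Ψ → IsSmooth Φ →
      ∫ U, Ψ U ^ 2 ∂(Measure.pi fun _ : Link D l => μ) = 1 →
      ∫ U, Φ U ^ 2 ∂(Measure.pi fun _ : Link D l => μ) = 1 →
      ∫ U, Ψ U * Φ U ∂(Measure.pi fun _ : Link D l => μ) = 0 →
      ∀ E : ℝ, (∀ a b : ℝ, a ^ 2 + b ^ 2 = 1 →
        energy B μ g (fun U => a * Ψ U + b * Φ U) ≤ E) → groundEnergy D l B μ g + Δ ≤ E)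
    (hE0 : ∀ F : (Link D l → G) → ℝ, IsSmooth F → groundEnergy D l B μ g *
      ∫ U, F U ^ 2 ∂(Measure.pi fun _ : Link D l => μ) ≤ energy B μ g F)
    (M c : ℝ) {ε : ℝ} (hε : 0 < ε) : ∃ δ : ℝ, 0 < δ ∧
      ∀ Ψ : (Link D l → G) → ℝ, Low B μ g l δ Ψ → ∀ F : (Link D l → G) → ℝ, IsSmooth F →
      (∀ U, |F U| ≤ M) → (∀ U, ∑ e, ∑ a, dlink B e a F U ^ 2 ≤ c ^ 2) →
      Δ * (ex μ Ψ (fun U => F U ^ 2) - ex μ Ψ F ^ 2) ≤
        g ^ 2 / 2 * ex μ Ψ (fun U => ∑ e, ∑ a, dlink B e a F U ^ 2) + ε := by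
  sorry

end

end Pool.Agent.YMI
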